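import Pool.Agent.Lib.MP_4fbe7c_an.SD.Cmp

/-!
Module APRI1 (helper48): nonnegativity, upper bounds.
-/

set_option autoImplicit false

open Set

namespace Pool.Agent.Lib.MP_4fbe7c_an.SD

/-! ### APRI1 -/
theorem nonneg {L : ℝ} {m : ℝ → ℝ} (hL : 0 < L) (hm : ContinuousOn m (Icc 0 L)) {N : ℕ}
    {d : Fin N → ℝ} (hd : ∀ i, 0 < d i) {u v w : Fin N → ℝ → ℝ → ℝ} (h : Sol L m d u v w) :
    ∀ i t, 0 ≤ t → ∀ x ∈ Icc 0 L, 0 ≤ u i t x := by
  intro i T hT x hx
  have hsub : Icc 0 T ×ˢ Icc 0 L ⊆ Ici 0 ×ˢ Icc 0 L :=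
    prod_mono (fun t ht => ht.1) (fun _ h => h)
  have hc : ContinuousOn (fun p : ℝ × ℝ => m p.2 - ∑ j, u j p.1 p.2) (Icc 0 T ×ˢ Icc 0 L) := by
    apply ContinuousOn.sub
    · exact hm.comp continuousOn_snd fun p hp => hp.2
    · exact continuousOn_finsetSum _ fun j _ => (h.cu j).mono hsub
  obtain ⟨K, hK⟩ := (isCompact_Icc.prod isCompact_Icc).exists_bound_of_continuousOn hc
  have := comparison (w := fun t x => -u i t x) (wx := fun t x => -v i t x)
    (wxx := fun t x => -w i t x)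
    (wt := fun t x => -(d i * w i t x + u i t x * (m x - ∑ j, u j t x)))
    (c := fun t x => m x - ∑ j, u j t x) (d := d i) (K := K) (s := 0) (T := T) hL (hd i).le hT
    ((h.cu i).mono hsub).neg
    (fun t ht y hy => (h.dx i t ht.1 y hy).neg)
    (fun t ht y hy => (h.dxx i t ht.1 y hy).neg)
    (fun t ht => by simp [h.b0 i t ht.1])
    (fun t ht => by simp [h.bL i t ht.1])
    (fun t ht y hy => (h.dt i t ht.1 y hy).neg)
    (fun t ht y hy _ => by
      show -(d i * w i t y + u i t y * (m y - ∑ j, u j t y)) ≤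
        d i * (-w i t y) + (m y - ∑ j, u j t y) * (-u i t y)
      apply le_of_eq
      ring)
    (fun t ht y hy => by
      have h1 := hK (t, y) ⟨⟨ht.1.le, ht.2⟩, hy⟩
      exact (le_abs_self _).trans h1)
    (fun y hy => by
      have := h.init i y hy
      show -u i 0 y ≤ 0
      linarith)
    T ⟨hT, le_rfl⟩ x hx
  have h2 : -u i T x ≤ 0 := this
  linarith

theorem le_bound {L : ℝ} {m : ℝ → ℝ} (hL : 0 < L) (hm : ContinuousOn m (Icc 0 L)) {N : ℕ}
    {d : Fin N → ℝ} (hd : ∀ i, 0 < d i) {u v w : Fin N → ℝ → ℝ → ℝ} (h : Sol L m d u v w)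
    {M : ℝ} (hM0 : 0 ≤ M) (hM : ∀ x ∈ Icc 0 L, m x ≤ M) (i : Fin N)
    (h0 : ∀ x ∈ Icc 0 L, u i 0 x ≤ M) :
    ∀ t, 0 ≤ t → ∀ x ∈ Icc 0 L, u i t x ≤ M := by
  intro T hT x hx
  have hsub : Icc 0 T ×ˢ Icc 0 L ⊆ Ici 0 ×ˢ Icc 0 L :=
    prod_mono (fun t ht => ht.1) (fun _ h => h)
  have hnn := nonneg hL hm hd h
  have := comparison (w := fun t x => u i t x - M) (wx := v i) (wxx := w i)
    (wt := fun t x => d i * w i t x + u i t x * (m x - ∑ j, u j t x))
    (c := fun _ _ => 0) (d := d i) (K := 0) (s := 0) (T := T) hL (hd i).le hT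
    (((h.cu i).mono hsub).sub continuousOn_const)
    (fun t ht y hy => (h.dx i t ht.1 y hy).sub_const _)
    (fun t ht y hy => h.dxx i t ht.1 y hy)
    (fun t ht => h.b0 i t ht.1)
    (fun t ht => h.bL i t ht.1)
    (fun t ht y hy => (h.dt i t ht.1 y hy).sub_const _)
    (fun t ht y hy hw => by
      have hw' : 0 < u i t y - M := hw
      show d i * w i t y + u i t y * (m y - ∑ j, u j t y) ≤ d i * w i t y + 0 * (u i t y - M)
      have h1 : u i t y ≤ ∑ j, u j t y :=
        Finset.single_le_sum (f := fun j => u j t y) (fun j _ => hnn j t ht.1.le y hy)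
          (Finset.mem_univ i)
      have h2 := hM y hy
      have h3 : u i t y * (m y - ∑ j, u j t y) ≤ 0 :=
        mul_nonpos_of_nonneg_of_nonpos (hnn i t ht.1.le y hy) (by linarith)
      linarith)
    (fun _ _ _ _ => le_rfl)
    (fun y hy => by
      have := h0 y hy
      show u i 0 y - M ≤ 0
      linarith)
    T ⟨hT, le_rfl⟩ x hx
  have h2 : u i T x - M ≤ 0 := this
  linarith

theorem growth {L : ℝ} {m : ℝ → ℝ} (hL : 0 < L) (hm : ContinuousOn m (Icc 0 L)) {N : ℕ}
    {d : Fin N → ℝ} (hd : ∀ i, 0 < d i) {u v w : Fin N → ℝ → ℝ → ℝ} (h : Sol L m d u v w)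
    {K : ℝ} (hK : ∀ x ∈ Icc 0 L, m x ≤ K) (i : Fin N) {s B : ℝ} (hs : 0 ≤ s) (hB : 0 ≤ B)
    (h0 : ∀ x ∈ Icc 0 L, u i s x ≤ B) :
    ∀ t, s ≤ t → ∀ x ∈ Icc 0 L, u i t x ≤ B * Real.exp (K * (t - s)) := by
  intro T hT x hx
  have hsub : Icc s T ×ˢ Icc 0 L ⊆ Ici 0 ×ˢ Icc 0 L :=
    prod_mono (fun t ht => hs.trans ht.1) (fun _ h => h)
  have hpos : ∀ t ∈ Ioc s T, 0 < t := fun t ht => lt_of_le_of_lt hs ht.1
  have hnn := nonneg hL hm hd h
  have hexp : ∀ t : ℝ, HasDerivAt (fun r => B * Real.exp (K * (r - s)))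
      (B * (Real.exp (K * (t - s)) * K)) t := by
    intro t
    have h1 : HasDerivAt (fun r : ℝ => K * (r - s)) K t := by
      simpa using ((hasDerivAt_id t).sub_const s).const_mul K
    exact (h1.exp).const_mul B
  have := comparison (w := fun t x => u i t x - B * Real.exp (K * (t - s)))
    (wx := v i) (wxx := w i)
    (wt := fun t x => (d i * w i t x + u i t x * (m x - ∑ j, u j t x)) -
      B * (Real.exp (K * (t - s)) * K))
    (c := fun _ _ => K) (d := d i) (K := K) (s := s) (T := T) hL (hd i).le hT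
    (by
      apply ContinuousOn.sub
      · exact (h.cu i).mono hsub
      · apply Continuous.continuousOn
        fun_prop)
    (fun t ht y hy => (h.dx i t (hpos t ht) y hy).sub_const _)
    (fun t ht y hy => h.dxx i t (hpos t ht) y hy)
    (fun t ht => h.b0 i t (hpos t ht))
    (fun t ht => h.bL i t (hpos t ht))
    (fun t ht y hy => (h.dt i t (hpos t ht) y hy).sub (hexp t))
    (fun t ht y hy _ => by
      show (d i * w i t y + u i t y * (m y - ∑ j, u j t y)) -
        B * (Real.exp (K * (t - s)) * K) ≤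
        d i * w i t y + K * (u i t y - B * Real.exp (K * (t - s)))
      have h1 : 0 ≤ ∑ j, u j t y := Finset.sum_nonneg fun j _ => hnn j t (hpos t ht).le y hy
      have h2 := hnn i t (hpos t ht).le y hy
      have h3 := hK y hy
      have h4 : u i t y * (m y - ∑ j, u j t y) ≤ u i t y * K :=
        mul_le_mul_of_nonneg_left (by linarith) h2
      nlinarith)
    (fun _ _ _ _ => le_rfl)
    (fun y hy => by
      have := h0 y hy
      show u i s y - B * Real.exp (K * (s - s)) ≤ 0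
      rw [sub_self, mul_zero, Real.exp_zero, mul_one]
      linarith)
    T ⟨hT, le_rfl⟩ x hx
  have h2 : u i T x - B * Real.exp (K * (T - s)) ≤ 0 := this
  linarith

end Pool.Agent.Lib.MP_4fbe7c_an.SD
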