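import Pool.Agent.Lib.MP_4fbe7c_an.SD.Cmp

/-!
Module APRI2 (helper74): lower bound, growth of the difference with the steady state.
-/

set_option autoImplicit false

open Set

namespace Pool.Agent.Lib.MP_4fbe7c_an.SD

theorem nonneg_aux {L : ℝ} {m : ℝ → ℝ} (hL : 0 < L) (hm : ContinuousOn m (Icc 0 L)) {N : ℕ}
    {d : Fin N → ℝ} (hd : ∀ i, 0 < d i) {u v w : Fin N → ℝ → ℝ → ℝ} (h : Sol L m d u v w) :
    ∀ i t, 0 ≤ t → ∀ x ∈ Icc 0 L, 0 ≤ u i t x := by
  intro i T hT x hx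
  have hsub : Icc 0 T ×ˢ Icc 0 L ⊆ Ici 0 ×ˢ Icc 0 L :=
    prod_mono (fun t ht => ht.1) (fun _ h => h)
  have hc : ContinuousOn (fun p : ℝ × ℝ => m p.2 - ∑ j, u j p.1 p.2) (Icc 0 T ×ˢ Icc 0 L) := by
    apply ContinuousOn.sub
    · exact hm.comp continuousOn_snd fun p hp => hp.2
    · exact continuousOn_finsetSum _ fun j _ => (h.cu j).mono hsub
  obtain ⟨K, hK⟩ := (isCompact_Icc.prod isCompact_Icc).exists_bound_of_continuousOn hc
  have := comparison (w := fun t x => -u i t x) (wx := fun t x => -v i t x)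
    (wxx := fun t x => -w i t x)
    (wt := fun t x => -(d i * w i t x + u i t x * (m x - ∑ j, u j t x)))
    (c := fun t x => m x - ∑ j, u j t x) (d := d i) (K := K) (s := 0) (T := T) hL (hd i).le hT
    ((h.cu i).mono hsub).neg
    (fun t ht y hy => (h.dx i t ht.1 y hy).neg)
    (fun t ht y hy => (h.dxx i t ht.1 y hy).neg)
    (fun t ht => by simp [h.b0 i t ht.1])
    (fun t ht => by simp [h.bL i t ht.1])
    (fun t ht y hy => (h.dt i t ht.1 y hy).neg)
    (fun t ht y hy _ => by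
      show -(d i * w i t y + u i t y * (m y - ∑ j, u j t y)) ≤
        d i * (-w i t y) + (m y - ∑ j, u j t y) * (-u i t y)
      apply le_of_eq
      ring)
    (fun t ht y hy => by
      have h1 := hK (t, y) ⟨⟨ht.1.le, ht.2⟩, hy⟩
      exact (le_abs_self _).trans h1)
    (fun y hy => by
      have := h.init i y hy
      show -u i 0 y ≤ 0
      linarith)
    T ⟨hT, le_rfl⟩ x hx
  have h2 : -u i T x ≤ 0 := this
  linarith

/-! ### APRI2 -/
theorem lower {L : ℝ} {m : ℝ → ℝ} (hL : 0 < L) (hm : ContinuousOn m (Icc 0 L)) {N : ℕ}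
    {d : Fin N → ℝ} (hd : ∀ i, 0 < d i) {u v w : Fin N → ℝ → ℝ → ℝ} (h : Sol L m d u v w)
    {K : ℝ} (i : Fin N) {s T b : ℝ} (hs : 0 ≤ s) (hb : 0 ≤ b)
    (hK : ∀ t ∈ Icc s T, ∀ x ∈ Icc 0 L, -K ≤ m x - ∑ j, u j t x)
    (h0 : ∀ x ∈ Icc 0 L, b ≤ u i s x) :
    ∀ t ∈ Icc s T, ∀ x ∈ Icc 0 L, b * Real.exp (-K * (t - s)) ≤ u i t x := by
  intro t₀ ht₀ x₀ hx₀
  have hsT : s ≤ T := ht₀.1.trans ht₀.2
  have hsub : Icc s T ×ˢ Icc 0 L ⊆ Ici 0 ×ˢ Icc 0 L :=
    prod_mono (fun t ht => hs.trans ht.1) (fun _ h => h)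
  have hpos : ∀ t ∈ Ioc s T, 0 < t := fun t ht => lt_of_le_of_lt hs ht.1
  have hnn := nonneg_aux hL hm hd h
  have hexp : ∀ t : ℝ, HasDerivAt (fun r => b * Real.exp (-K * (r - s)))
      (b * (Real.exp (-K * (t - s)) * (-K))) t := by
    intro t
    have h1 : HasDerivAt (fun r : ℝ => -K * (r - s)) (-K) t := by
      simpa using ((hasDerivAt_id t).sub_const s).const_mul (-K)
    exact (h1.exp).const_mul b
  have := comparison (w := fun t x => b * Real.exp (-K * (t - s)) - u i t x)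
    (wx := fun t x => -v i t x) (wxx := fun t x => -w i t x)
    (wt := fun t x => b * (Real.exp (-K * (t - s)) * (-K)) -
      (d i * w i t x + u i t x * (m x - ∑ j, u j t x)))
    (c := fun _ _ => -K) (d := d i) (K := -K) (s := s) (T := T) hL (hd i).le hsT
    (by
      apply ContinuousOn.sub
      · apply Continuous.continuousOn
        fun_prop
      · exact (h.cu i).mono hsub)
    (fun t ht y hy => (h.dx i t (hpos t ht) y hy).const_sub _)
    (fun t ht y hy => (h.dxx i t (hpos t ht) y hy).neg)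
    (fun t ht => by simp [h.b0 i t (hpos t ht)])
    (fun t ht => by simp [h.bL i t (hpos t ht)])
    (fun t ht y hy => (hexp t).sub (h.dt i t (hpos t ht) y hy))
    (fun t ht y hy _ => by
      show b * (Real.exp (-K * (t - s)) * (-K)) -
        (d i * w i t y + u i t y * (m y - ∑ j, u j t y)) ≤
        d i * (-w i t y) + (-K) * (b * Real.exp (-K * (t - s)) - u i t y)
      have h1 := hK t ⟨ht.1.le, ht.2⟩ y hy
      have h2 := hnn i t (hpos t ht).le y hy
      have h3 : 0 ≤ u i t y * ((m y - ∑ j, u j t y) + K) := mul_nonneg h2 (by linarith)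
      nlinarith)
    (fun t ht y hy => le_rfl)
    (fun y hy => by
      have := h0 y hy
      show b * Real.exp (-K * (s - s)) - u i s y ≤ 0
      rw [sub_self, mul_zero, Real.exp_zero, mul_one]
      linarith)
    t₀ ht₀ x₀ hx₀
  have h2 : b * Real.exp (-K * (t₀ - s)) - u i t₀ x₀ ≤ 0 := this
  linarith

theorem diff_growth {L : ℝ} {m : ℝ → ℝ} (hL : 0 < L) (hm : ContinuousOn m (Icc 0 L)) {N : ℕ}
    {d : Fin N → ℝ} (hd : ∀ i, 0 < d i) {u v w : Fin N → ℝ → ℝ → ℝ} (h : Sol L m d u v w)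
    (i₀ : Fin N) {θ θ' θ'' : ℝ → ℝ} (hθ : Steady L m (d i₀) θ θ' θ'') {K R B s T : ℝ}
    (hs : 0 ≤ s) (hR : 0 ≤ R) (hB : 0 ≤ B) (hK0 : 0 ≤ K)
    (hK : ∀ t ∈ Icc s T, ∀ x ∈ Icc 0 L, m x - θ x - u i₀ t x ≤ K)
    (hR' : ∀ t ∈ Icc s T, ∀ x ∈ Icc 0 L, u i₀ t x * ∑ j ∈ Finset.univ.erase i₀, u j t x ≤ R)
    (h0 : ∀ x ∈ Icc 0 L, |u i₀ s x - θ x| ≤ B) :
    ∀ t ∈ Icc s T, ∀ x ∈ Icc 0 L,
      |u i₀ t x - θ x| ≤ (B + R) * Real.exp ((K + 1) * (t - s)) := by
  intro t₀ ht₀ x₀ hx₀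
  have hsT : s ≤ T := ht₀.1.trans ht₀.2
  have hsub : Icc s T ×ˢ Icc 0 L ⊆ Ici 0 ×ˢ Icc 0 L :=
    prod_mono (fun t ht => hs.trans ht.1) (fun _ h => h)
  have hpos : ∀ t ∈ Ioc s T, 0 < t := fun t ht => lt_of_le_of_lt hs ht.1
  have hnn := nonneg_aux hL hm hd h
  have hexp : ∀ t : ℝ, HasDerivAt (fun r => (B + R) * Real.exp ((K + 1) * (r - s)))
      ((B + R) * (Real.exp ((K + 1) * (t - s)) * (K + 1))) t := by
    intro t
    have h1 : HasDerivAt (fun r : ℝ => (K + 1) * (r - s)) (K + 1) t := by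
      simpa using ((hasDerivAt_id t).sub_const s).const_mul (K + 1)
    exact (h1.exp).const_mul (B + R)
  have hE : ∀ t ∈ Ioc s T, 1 ≤ Real.exp ((K + 1) * (t - s)) := fun t ht =>
    Real.one_le_exp (mul_nonneg (by linarith) (by linarith [ht.1]))
  have hcθ : ContinuousOn (fun p : ℝ × ℝ => θ p.2) (Icc s T ×ˢ Icc 0 L) := by
    have h1 : ContinuousOn θ (Icc 0 L) := fun x hx => (hθ.d1 x hx).continuousWithinAt
    exact h1.comp continuousOn_snd fun p hp => hp.2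
  have hcexp : ContinuousOn (fun p : ℝ × ℝ => (B + R) * Real.exp ((K + 1) * (p.1 - s)))
      (Icc s T ×ˢ Icc 0 L) := by
    apply Continuous.continuousOn
    fun_prop
  have hsum : ∀ t x, ∑ j, u j t x = u i₀ t x + ∑ j ∈ Finset.univ.erase i₀, u j t x :=
    fun t x => (Finset.add_sum_erase _ _ (Finset.mem_univ i₀)).symm
  have h1 := comparison
    (w := fun t x => (u i₀ t x - θ x) - (B + R) * Real.exp ((K + 1) * (t - s)))
    (wx := fun t x => v i₀ t x - θ' x) (wxx := fun t x => w i₀ t x - θ'' x)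
    (wt := fun t x => (d i₀ * w i₀ t x + u i₀ t x * (m x - ∑ j, u j t x)) -
      (B + R) * (Real.exp ((K + 1) * (t - s)) * (K + 1)))
    (c := fun _ _ => K) (d := d i₀) (K := K) (s := s) (T := T) hL (hd i₀).le hsT
    ((((h.cu i₀).mono hsub).sub hcθ).sub hcexp)
    (fun t ht y hy => ((h.dx i₀ t (hpos t ht) y hy).sub (hθ.d1 y hy)).sub_const _)
    (fun t ht y hy => (h.dxx i₀ t (hpos t ht) y hy).sub (hθ.d2 y hy))
    (fun t ht => by simp [h.b0 i₀ t (hpos t ht), hθ.b0])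
    (fun t ht => by simp [h.bL i₀ t (hpos t ht), hθ.bL])
    (fun t ht y hy => ((h.dt i₀ t (hpos t ht) y hy).sub_const _).sub (hexp t))
    (fun t ht y hy hw => by
      have hw' : 0 < (u i₀ t y - θ y) - (B + R) * Real.exp ((K + 1) * (t - s)) := hw
      show (d i₀ * w i₀ t y + u i₀ t y * (m y - ∑ j, u j t y)) -
        (B + R) * (Real.exp ((K + 1) * (t - s)) * (K + 1)) ≤
        d i₀ * (w i₀ t y - θ'' y) +
          K * ((u i₀ t y - θ y) - (B + R) * Real.exp ((K + 1) * (t - s)))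
      have e1 := hE t ht
      have e2 := hK t ⟨ht.1.le, ht.2⟩ y hy
      have e3 := hθ.eq y hy
      have e4 : 0 ≤ u i₀ t y * ∑ j ∈ Finset.univ.erase i₀, u j t y :=
        mul_nonneg (hnn i₀ t (hpos t ht).le y hy)
          (Finset.sum_nonneg fun j _ => hnn j t (hpos t ht).le y hy)
      rw [hsum]
      obtain ⟨S, hS⟩ : ∃ S, S = ∑ j ∈ Finset.univ.erase i₀, u j t y := ⟨_, rfl⟩
      obtain ⟨E, hE'⟩ : ∃ E, E = Real.exp ((K + 1) * (t - s)) := ⟨_, rfl⟩
      rw [← hS] at e4 ⊢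
      rw [← hE'] at e1 hw' ⊢
      have hBR : 0 ≤ (B + R) * E := mul_nonneg (by linarith) (by linarith)
      have e5 : (m y - θ y - u i₀ t y) * (u i₀ t y - θ y) ≤ K * (u i₀ t y - θ y) :=
        mul_le_mul_of_nonneg_right e2 (by linarith)
      linear_combination e3 + e5 + e4 + hBR)
    (fun t ht y hy => le_rfl)
    (fun y hy => by
      have := (abs_le.1 (h0 y hy)).2
      show (u i₀ s y - θ y) - (B + R) * Real.exp ((K + 1) * (s - s)) ≤ 0
      rw [sub_self, mul_zero, Real.exp_zero, mul_one]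
      linarith)
    t₀ ht₀ x₀ hx₀
  have h2 := comparison
    (w := fun t x => -(u i₀ t x - θ x) - (B + R) * Real.exp ((K + 1) * (t - s)))
    (wx := fun t x => -(v i₀ t x - θ' x)) (wxx := fun t x => -(w i₀ t x - θ'' x))
    (wt := fun t x => -(d i₀ * w i₀ t x + u i₀ t x * (m x - ∑ j, u j t x)) -
      (B + R) * (Real.exp ((K + 1) * (t - s)) * (K + 1)))
    (c := fun _ _ => K) (d := d i₀) (K := K) (s := s) (T := T) hL (hd i₀).le hsT
    ((((h.cu i₀).mono hsub).sub hcθ).neg.sub hcexp)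
    (fun t ht y hy => ((h.dx i₀ t (hpos t ht) y hy).sub (hθ.d1 y hy)).neg.sub_const _)
    (fun t ht y hy => ((h.dxx i₀ t (hpos t ht) y hy).sub (hθ.d2 y hy)).neg)
    (fun t ht => by simp [h.b0 i₀ t (hpos t ht), hθ.b0])
    (fun t ht => by simp [h.bL i₀ t (hpos t ht), hθ.bL])
    (fun t ht y hy => ((h.dt i₀ t (hpos t ht) y hy).sub_const _).neg.sub (hexp t))
    (fun t ht y hy hw => by
      have hw' : 0 < -(u i₀ t y - θ y) - (B + R) * Real.exp ((K + 1) * (t - s)) := hw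
      show -(d i₀ * w i₀ t y + u i₀ t y * (m y - ∑ j, u j t y)) -
        (B + R) * (Real.exp ((K + 1) * (t - s)) * (K + 1)) ≤
        d i₀ * (-(w i₀ t y - θ'' y)) +
          K * (-(u i₀ t y - θ y) - (B + R) * Real.exp ((K + 1) * (t - s)))
      have e1 := hE t ht
      have e2 := hK t ⟨ht.1.le, ht.2⟩ y hy
      have e3 := hθ.eq y hy
      have e4 := hR' t ⟨ht.1.le, ht.2⟩ y hy
      rw [hsum]
      obtain ⟨S, hS⟩ : ∃ S, S = ∑ j ∈ Finset.univ.erase i₀, u j t y := ⟨_, rfl⟩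
      obtain ⟨E, hE'⟩ : ∃ E, E = Real.exp ((K + 1) * (t - s)) := ⟨_, rfl⟩
      rw [← hS] at e4 ⊢
      rw [← hE'] at e1 hw' ⊢
      have hBR : 0 ≤ (B + R) * (E - 1) := mul_nonneg (by linarith) (by linarith)
      have hBR' : 0 ≤ (B + R) * E := mul_nonneg (by linarith) (by linarith)
      have e5 : (m y - θ y - u i₀ t y) * (-(u i₀ t y - θ y)) ≤ K * (-(u i₀ t y - θ y)) :=
        mul_le_mul_of_nonneg_right e2 (by linarith)
      linear_combination -e3 + e5 + e4 + hBR + hB)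
    (fun t ht y hy => le_rfl)
    (fun y hy => by
      have := (abs_le.1 (h0 y hy)).1
      show -(u i₀ s y - θ y) - (B + R) * Real.exp ((K + 1) * (s - s)) ≤ 0
      rw [sub_self, mul_zero, Real.exp_zero, mul_one]
      linarith)
    t₀ ht₀ x₀ hx₀
  have h1' : (u i₀ t₀ x₀ - θ x₀) - (B + R) * Real.exp ((K + 1) * (t₀ - s)) ≤ 0 := h1
  have h2' : -(u i₀ t₀ x₀ - θ x₀) - (B + R) * Real.exp ((K + 1) * (t₀ - s)) ≤ 0 := h2
  exact abs_le.2 ⟨by linarith, by linarith⟩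

end Pool.Agent.Lib.MP_4fbe7c_an.SD
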