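import Pool.Agent.Lib.MP_4fbe7c_an.SD.Logg
import Pool.Agent.Lib.MP_4fbe7c_an.SD.Apri2

/-!
Module POS (helper96): strong positivity.
-/

set_option autoImplicit false

open Set Filter Topology

namespace Pool.Agent.Lib.MP_4fbe7c_an.SD

/-- Strong positivity. -/
theorem pos_of_init {L : ℝ} {m : ℝ → ℝ} (hL : 0 < L) (hm : ContinuousOn m (Icc 0 L)) {N : ℕ}
    {d : Fin N → ℝ} (hd : ∀ i, 0 < d i) {u v w : Fin N → ℝ → ℝ → ℝ} (h : Sol L m d u v w)
    (i : Fin N) (hx : ∃ x ∈ Icc 0 L, 0 < u i 0 x) :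
    ∀ t, 0 < t → ∀ x ∈ Icc 0 L, 0 < u i t x := by
  intro t ht x hxL
  obtain ⟨K, hK0, hK⟩ := h.bdd_rate_log hm t
  obtain ⟨a0, ha0, hmass⟩ := mass_lower hL hm hd h i hx t
  obtain ⟨W, hW0, hW⟩ := log_gradient hL hm hd h i hx (a := t / 2) (b := t) (by linarith)
    (by linarith)
  have hnn := nonneg_aux hL hm hd h i
  set c0 : ℝ := a0 / L * Real.exp (-((W + L) / 2)) with hc0
  have hc0pos : 0 < c0 := by positivity
  obtain ⟨s, hs, hsW⟩ := hW (min (c0 / 2) (1 / 2)) (by positivity)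
    (lt_of_le_of_lt (min_le_right _ _) (by norm_num))
  set ε : ℝ := min (c0 / 2) (1 / 2) with hε
  have hεpos : 0 < ε := by positivity
  have hs0 : 0 < s := by linarith [hs.1]
  have hup : ∀ x ∈ Icc 0 L, 0 < u i s x + ε := fun x hx' => by
    linarith [hnn s hs0.le x hx']
  -- a point where `u` is large
  obtain ⟨x0, hx0, hux0⟩ := exists_large_log hL (slice (h.cu i) (mem_Ici.2 hs0.le))
    (hmass s ⟨hs0.le, hs.2.le⟩)
  have hgx : DerivOn L (fun x => Real.log (u i s x + ε)) (fun x => v i s x / (u i s x + ε)) :=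
    fun x hx' => ((h.dx i s hs0 x hx').add_const ε).log (hup x hx').ne'
  have hcgx : ContinuousOn (fun x => v i s x / (u i s x + ε)) (Icc 0 L) :=
    (slice (h.cv i) hs0).div ((slice (h.cuIoi_log i) hs0).add continuousOn_const)
      (fun x hx' => (hup x hx').ne')
  have hlow : ∀ x ∈ Icc 0 L, c0 / 2 ≤ u i s x := by
    intro x hx'
    have h2 := osc_le_log hL hgx hcgx one_pos hx0 hx'
    have h3 := (abs_le.1 h2).1
    have h4 : Real.log (a0 / L) ≤ Real.log (u i s x0 + ε) := by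
      apply Real.log_le_log (by positivity)
      linarith
    have h5 : Real.log c0 ≤ Real.log (u i s x + ε) := by
      rw [hc0, Real.log_mul (by positivity) (Real.exp_pos _).ne', Real.log_exp]
      have : (1 * (∫ z in (0)..L, (v i s z / (u i s z + ε)) ^ 2) + L / 1) / 2 ≤ (W + L) / 2 := by
        rw [one_mul, div_one]
        linarith
      linarith
    have h6 : c0 ≤ u i s x + ε := (Real.log_le_log_iff hc0pos (hup x hx')).1 h5
    have h7 : ε ≤ c0 / 2 := min_le_left _ _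
    linarith
  have hl := lower hL hm hd h (K := K) i (s := s) (T := t) (b := c0 / 2) hs0.le (by positivity)
    (fun r hr y hy => (abs_le.1 (hK r ⟨hs0.le.trans hr.1, hr.2⟩ y hy)).1) hlow t
    ⟨hs.2.le, le_rfl⟩ x hxL
  exact lt_of_lt_of_le (by positivity) hl

end Pool.Agent.Lib.MP_4fbe7c_an.SD
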