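import Pool.Agent.Lib.MP_4fbe7c_an.SD.Base

set_option autoImplicit false

open Set Filter Topology MeasureTheory intervalIntegral
open scoped Interval Uniformity

namespace Pool.Agent.Lib.MP_4fbe7c_an.SD

theorem DerivOn.continuousOn {L : ℝ} {f f' : ℝ → ℝ} (h : DerivOn L f f') :
    ContinuousOn f (Icc 0 L) := fun x hx => (h x hx).continuousWithinAt

theorem integral_deriv {L : ℝ} (hL : 0 < L) {F F' : ℝ → ℝ} (h : DerivOn L F F')
    (hc : ContinuousOn F' (Icc 0 L)) : ∫ x in (0)..L, F' x = F L - F 0 := by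
  refine intervalIntegral.integral_eq_sub_of_hasDerivAt_of_le hL.le h.continuousOn ?_ ?_
  · intro x hx
    exact (h x ⟨hx.1.le, hx.2.le⟩).hasDerivAt (Icc_mem_nhds hx.1 hx.2)
  · exact (hc.mono (by rw [uIcc_of_le hL.le])).intervalIntegrable

/-- fundamental theorem on subintervals -/
theorem integral_deriv_sub {L : ℝ} {F F' : ℝ → ℝ} (h : DerivOn L F F')
    (hc : ContinuousOn F' (Icc 0 L)) {x y : ℝ} (hx : x ∈ Icc 0 L) (hy : y ∈ Icc 0 L) :
    ∫ z in x..y, F' z = F y - F x := by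
  have hsub : uIcc x y ⊆ Icc 0 L := uIcc_subset_Icc hx hy
  refine intervalIntegral.integral_eq_sub_of_hasDeriv_right ?_ ?_ ?_
  · exact h.continuousOn.mono hsub
  · intro z hz
    have hz' : z ∈ Icc 0 L := hsub ⟨hz.1.le, hz.2.le⟩
    have h0 : 0 < z := lt_of_le_of_lt (le_min hx.1 hy.1) hz.1
    have h1 : z < L := lt_of_lt_of_le hz.2 (max_le hx.2 hy.2)
    exact ((h z hz').hasDerivAt (Icc_mem_nhds h0 h1)).hasDerivWithinAt
  · exact (hc.mono hsub).intervalIntegrable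

theorem slice {L : ℝ} {g : ℝ → ℝ → ℝ} {A : Set ℝ}
    (hc : ContinuousOn (fun p : ℝ × ℝ => g p.1 p.2) (A ×ˢ Icc 0 L)) {t : ℝ} (ht : t ∈ A) :
    ContinuousOn (g t) (Icc 0 L) := by
  have h1 : ContinuousOn (fun x : ℝ => ((t, x) : ℝ × ℝ)) (Icc 0 L) := by fun_prop
  exact hc.comp h1 fun x hx => mk_mem_prod ht hx

theorem hasDerivAt_integral {L : ℝ} (hL : 0 < L) {g gt : ℝ → ℝ → ℝ}
    (hc : ContinuousOn (fun p : ℝ × ℝ => g p.1 p.2) (Ioi 0 ×ˢ Icc 0 L))
    (hct : ContinuousOn (fun p : ℝ × ℝ => gt p.1 p.2) (Ioi 0 ×ˢ Icc 0 L))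
    (hd : ∀ t, 0 < t → ∀ x ∈ Icc 0 L, HasDerivAt (fun s => g s x) (gt t x) t) :
    ∀ t, 0 < t → HasDerivAt (fun t => ∫ x in (0)..L, g t x) (∫ x in (0)..L, gt t x) t := by
  intro t ht
  have hK : IsCompact (Icc (t / 2) (2 * t) ×ˢ Icc 0 L) := isCompact_Icc.prod isCompact_Icc
  have hsub : Icc (t / 2) (2 * t) ×ˢ Icc 0 L ⊆ Ioi 0 ×ˢ Icc 0 L := by
    rintro ⟨s, x⟩ ⟨hs, hx⟩
    exact ⟨lt_of_lt_of_le (by linarith) hs.1, hx⟩
  obtain ⟨B, hB⟩ := hK.exists_bound_of_continuousOn (hct.mono hsub)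
  have hball : Metric.ball t (t / 2) ∈ 𝓝 t := Metric.ball_mem_nhds t (by linarith)
  have hb : ∀ s ∈ Metric.ball t (t / 2), s ∈ Icc (t / 2) (2 * t) := by
    intro s hs
    rw [Metric.mem_ball, Real.dist_eq, abs_lt] at hs
    constructor <;> linarith [hs.1, hs.2]
  have hIoc : Ι (0:ℝ) L ⊆ Icc 0 L := by
    rw [uIoc_of_le hL.le]; exact Ioc_subset_Icc_self
  have hmeas : ∀ s, 0 < s → AEStronglyMeasurable (g s) (volume.restrict (Ι 0 L)) := by
    intro s hs
    exact ((slice hc (mem_Ioi.2 hs)).mono hIoc).aestronglyMeasurable measurableSet_uIoc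
  refine (intervalIntegral.hasDerivAt_integral_of_dominated_loc_of_deriv_le
    (bound := fun _ => B) hball ?_ ?_ ?_ ?_ ?_ ?_).2
  · filter_upwards [hball] with s hs
    exact hmeas s (lt_of_lt_of_le (by linarith) (hb s hs).1)
  · exact ((slice hc (mem_Ioi.2 ht)).mono (by rw [uIcc_of_le hL.le])).intervalIntegrable
  · exact ((slice hct (mem_Ioi.2 ht)).mono hIoc).aestronglyMeasurable measurableSet_uIoc
  · refine Eventually.of_forall fun x hx s hs => ?_
    exact hB (s, x) ⟨hb s hs, hIoc hx⟩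
  · exact intervalIntegrable_const
  · refine Eventually.of_forall fun x hx s hs => ?_
    exact hd s (lt_of_lt_of_le (by linarith) (hb s hs).1) x (hIoc hx)

theorem continuousOn_integral {L : ℝ} (hL : 0 < L) {g : ℝ → ℝ → ℝ} {A : Set ℝ}
    (hc : ContinuousOn (fun p : ℝ × ℝ => g p.1 p.2) (A ×ˢ Icc 0 L)) :
    ContinuousOn (fun t => ∫ x in (0)..L, g t x) A := by
  have hint : ∀ t ∈ A, IntervalIntegrable (g t) volume 0 L := fun t ht =>
    ((slice hc ht).mono (by rw [uIcc_of_le hL.le])).intervalIntegrable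
  intro q hq
  rw [Metric.continuousWithinAt_iff']
  intro ε hε
  have hδ : 0 < ε / (2 * L) := by positivity
  obtain ⟨v, hv, hvk⟩ := IsCompact.mem_uniformity_of_prod (f := g) (s := A) (k := Icc 0 L)
    isCompact_Icc (by simpa [Function.uncurry_def] using hc) hq (Metric.dist_mem_uniformity hδ)
  filter_upwards [hv, self_mem_nhdsWithin] with t ht htA
  rw [Real.dist_eq, ← intervalIntegral.integral_sub (hint t htA) (hint q hq)]
  have h1 : ‖∫ x in (0)..L, (g t x - g q x)‖ ≤ ε / (2 * L) * |L - 0| := by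
    refine intervalIntegral.norm_integral_le_of_norm_le_const fun x hx => ?_
    rw [uIoc_of_le hL.le] at hx
    have h2 := hvk t ht x ⟨hx.1.le, hx.2⟩
    simp only [mem_setOf_eq, Real.dist_eq] at h2
    exact h2.le
  rw [Real.norm_eq_abs, sub_zero, abs_of_pos hL] at h1
  have h3 : ε / (2 * L) * L = ε / 2 := by field_simp
  linarith

end Pool.Agent.Lib.MP_4fbe7c_an.SD
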