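import Pool.Agent.Lib.MP_4fbe7c_an.SD.Base

set_option autoImplicit false

open Set Filter Topology

namespace Pool.Agent.Lib.MP_4fbe7c_an.SD

/-- At a maximum on `[0, L]` (Neumann condition at the end points) the second derivative is
nonpositive. -/
theorem second_deriv_nonpos {L : ℝ} (hL : 0 < L) {g g1 : ℝ → ℝ} {c x0 : ℝ} (h1 : DerivOn L g g1)
    (b0 : g1 0 = 0) (bL : g1 L = 0) (hx : x0 ∈ Icc 0 L) (hmax : ∀ x ∈ Icc 0 L, g x ≤ g x0)
    (h2 : HasDerivWithinAt g1 c (Icc 0 L) x0) : c ≤ 0 := by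
  by_contra hc
  push Not at hc
  -- the first derivative vanishes at `x0`
  have hz : g1 x0 = 0 := by
    rcases eq_or_lt_of_le hx.1 with h | h
    · rw [← h]; exact b0
    rcases eq_or_lt_of_le hx.2 with h' | h'
    · rw [h']; exact bL
    have hd : HasDerivAt g (g1 x0) x0 := (h1 x0 hx).hasDerivAt (Icc_mem_nhds h h')
    have hloc : IsLocalMax g x0 := by
      filter_upwards [Icc_mem_nhds h h'] with x hx'
      exact hmax x hx'
    exact hloc.hasDerivAt_eq_zero hd
  -- slopes are positive near `x0`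
  have hs : ∀ᶠ x in 𝓝[Icc 0 L \ {x0}] x0, 0 < slope g1 x0 x := by
    have := (hasDerivWithinAt_iff_tendsto_slope.1 h2)
    exact this.eventually (lt_mem_nhds hc)
  rw [eventually_nhdsWithin_iff, Metric.eventually_nhds_iff] at hs
  obtain ⟨ρ, hρ, hs⟩ := hs
  have hcont : ContinuousOn g (Icc 0 L) := fun x hx => (h1 x hx).continuousWithinAt
  rcases lt_or_eq_of_le hx.2 with hlt | heq
  · -- to the right
    set y := min L (x0 + ρ / 2) with hy
    have hxy : x0 < y := lt_min hlt (by linarith)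
    have hyL : y ≤ L := min_le_left _ _
    have hsub : Icc x0 y ⊆ Icc 0 L := Icc_subset_Icc hx.1 hyL
    have hmono : StrictMonoOn g (Icc x0 y) := by
      refine strictMonoOn_of_deriv_pos (convex_Icc _ _) (hcont.mono hsub) ?_
      intro z hz'
      rw [interior_Icc] at hz'
      have hz0 : z ∈ Icc 0 L := hsub ⟨hz'.1.le, hz'.2.le⟩
      have hdz : HasDerivAt g (g1 z) z := by
        refine (h1 z hz0).hasDerivAt (Icc_mem_nhds (lt_of_le_of_lt hx.1 hz'.1) ?_)
        exact lt_of_lt_of_le hz'.2 hyL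
      rw [hdz.deriv]
      have h3 := hs (y := z) (by
        rw [Real.dist_eq, abs_of_pos (by linarith [hz'.1])]
        have : y ≤ x0 + ρ / 2 := min_le_right _ _
        linarith [hz'.2]) ⟨hz0, by simp only [mem_singleton_iff]; exact ne_of_gt hz'.1⟩
      rw [slope_def_field, hz, sub_zero] at h3
      exact (div_pos_iff_of_pos_right (by linarith [hz'.1])).1 h3
    have := hmono (left_mem_Icc.2 hxy.le) (right_mem_Icc.2 hxy.le) hxy
    exact absurd (hmax y (hsub (right_mem_Icc.2 hxy.le))) (not_le.2 this)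
  · -- to the left
    set y := max 0 (x0 - ρ / 2) with hy
    have hxy : y < x0 := max_lt (by rw [heq]; exact hL) (by linarith)
    have hy0 : 0 ≤ y := le_max_left _ _
    have hsub : Icc y x0 ⊆ Icc 0 L := Icc_subset_Icc hy0 hx.2
    have hanti : StrictAntiOn g (Icc y x0) := by
      refine strictAntiOn_of_deriv_neg (convex_Icc _ _) (hcont.mono hsub) ?_
      intro z hz'
      rw [interior_Icc] at hz'
      have hz0 : z ∈ Icc 0 L := hsub ⟨hz'.1.le, hz'.2.le⟩
      have hdz : HasDerivAt g (g1 z) z := by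
        refine (h1 z hz0).hasDerivAt (Icc_mem_nhds (lt_of_le_of_lt hy0 hz'.1) ?_)
        exact lt_of_lt_of_le hz'.2 hx.2
      rw [hdz.deriv]
      have h3 := hs (y := z) (by
        rw [Real.dist_eq, abs_of_neg (by linarith [hz'.2])]
        have : x0 - ρ / 2 ≤ y := le_max_right _ _
        linarith [hz'.1]) ⟨hz0, by simp only [mem_singleton_iff]; exact ne_of_lt hz'.2⟩
      rw [slope_def_field, hz, sub_zero] at h3
      have h4 : z - x0 < 0 := by linarith [hz'.2]
      rcases div_pos_iff.1 h3 with h | h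
      · exact absurd h.2 (not_lt.2 h4.le)
      · exact h.1
    have := hanti (left_mem_Icc.2 hxy.le) (right_mem_Icc.2 hxy.le) hxy
    exact absurd (hmax y (hsub (left_mem_Icc.2 hxy.le))) (not_le.2 this)

/-- The parabolic comparison principle with Neumann conditions. -/
theorem comparison {L d K s T : ℝ} (hL : 0 < L) (hd : 0 ≤ d) (hsT : s ≤ T)
    {w wx wxx wt c : ℝ → ℝ → ℝ}
    (cont : ContinuousOn (fun p : ℝ × ℝ => w p.1 p.2) (Icc s T ×ˢ Icc 0 L))
    (dx : ∀ t ∈ Ioc s T, DerivOn L (w t) (wx t))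
    (dxx : ∀ t ∈ Ioc s T, DerivOn L (wx t) (wxx t))
    (b0 : ∀ t ∈ Ioc s T, wx t 0 = 0) (bL : ∀ t ∈ Ioc s T, wx t L = 0)
    (dt : ∀ t ∈ Ioc s T, ∀ x ∈ Icc 0 L, HasDerivAt (fun r => w r x) (wt t x) t)
    (ineq : ∀ t ∈ Ioc s T, ∀ x ∈ Icc 0 L, 0 < w t x → wt t x ≤ d * wxx t x + c t x * w t x)
    (hc : ∀ t ∈ Ioc s T, ∀ x ∈ Icc 0 L, c t x ≤ K)
    (h0 : ∀ x ∈ Icc 0 L, w s x ≤ 0) :
    ∀ t ∈ Icc s T, ∀ x ∈ Icc 0 L, w t x ≤ 0 := by
  set v : ℝ × ℝ → ℝ := fun p => Real.exp (-(K + 1) * (p.1 - s)) * w p.1 p.2 with hv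
  have hvc : ContinuousOn v (Icc s T ×ˢ Icc 0 L) :=
    (by fun_prop : Continuous fun p : ℝ × ℝ => Real.exp (-(K + 1) * (p.1 - s))).continuousOn.mul
      cont
  have hne : (Icc s T ×ˢ Icc 0 L).Nonempty :=
    ⟨(s, 0), ⟨left_mem_Icc.2 hsT, left_mem_Icc.2 hL.le⟩⟩
  obtain ⟨⟨t0, x0⟩, ⟨ht0, hx0⟩, hmax⟩ :=
    (isCompact_Icc.prod isCompact_Icc).exists_isMaxOn hne hvc
  simp only at ht0 hx0
  have hmax' : ∀ t ∈ Icc s T, ∀ x ∈ Icc 0 L, v (t, x) ≤ v (t0, x0) :=
    fun t ht x hx => hmax (mk_mem_prod ht hx)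
  have key : v (t0, x0) ≤ 0 := by
    by_contra hpos
    push Not at hpos
    have hE : ∀ r : ℝ, 0 < Real.exp (-(K + 1) * (r - s)) := fun r => Real.exp_pos _
    have hw : 0 < w t0 x0 := by
      have : 0 < Real.exp (-(K + 1) * (t0 - s)) * w t0 x0 := hpos
      exact (mul_pos_iff_of_pos_left (hE t0)).1 this
    have hst : s < t0 := by
      rcases eq_or_lt_of_le ht0.1 with h | h
      · rw [← h] at hw; exact absurd (h0 x0 hx0) (not_le.2 hw)
      · exact h
    have ht0' : t0 ∈ Ioc s T := ⟨hst, ht0.2⟩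
    -- space
    have hxx : wxx t0 x0 ≤ 0 := by
      refine second_deriv_nonpos hL (dx t0 ht0') (b0 t0 ht0') (bL t0 ht0') hx0 ?_
        (dxx t0 ht0' x0 hx0)
      intro x hx
      have := hmax' t0 ht0 x hx
      simp only [hv] at this
      exact le_of_mul_le_mul_left this (hE t0)
    -- time
    have hdv : HasDerivAt (fun r => Real.exp (-(K + 1) * (r - s)) * w r x0)
        (Real.exp (-(K + 1) * (t0 - s)) * (-(K + 1)) * w t0 x0
          + Real.exp (-(K + 1) * (t0 - s)) * wt t0 x0) t0 := by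
      have h1 : HasDerivAt (fun r : ℝ => Real.exp (-(K + 1) * (r - s)))
          (Real.exp (-(K + 1) * (t0 - s)) * (-(K + 1))) t0 := by
        have h2 : HasDerivAt (fun r : ℝ => -(K + 1) * (r - s)) (-(K + 1)) t0 := by
          simpa using ((hasDerivAt_id t0).sub_const s).const_mul (-(K + 1))
        exact h2.exp
      exact h1.mul (dt t0 ht0' x0 hx0)
    have hge : 0 ≤ Real.exp (-(K + 1) * (t0 - s)) * (-(K + 1)) * w t0 x0
          + Real.exp (-(K + 1) * (t0 - s)) * wt t0 x0 := by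
      by_contra hneg
      push Not at hneg
      have hsl : ∀ᶠ r in 𝓝[≠] t0,
          slope (fun r => Real.exp (-(K + 1) * (r - s)) * w r x0) t0 r < 0 :=
        (hasDerivAt_iff_tendsto_slope.1 hdv).eventually (gt_mem_nhds hneg)
      rw [eventually_nhdsWithin_iff, Metric.eventually_nhds_iff] at hsl
      obtain ⟨ρ, hρ, hsl⟩ := hsl
      set r := max s (t0 - ρ / 2) with hr
      have hr1 : r < t0 := max_lt hst (by linarith)
      have h3 := hsl (y := r) (by
        rw [Real.dist_eq, abs_of_neg (by linarith)]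
        have : t0 - ρ / 2 ≤ r := le_max_right _ _
        linarith) (by simp only [mem_compl_iff, mem_singleton_iff]; exact ne_of_lt hr1)
      rw [slope_def_field] at h3
      have h4 := hmax' r ⟨le_max_left _ _, hr1.le.trans ht0.2⟩ x0 hx0
      simp only [hv] at h4
      have h5 : 0 ≤ (Real.exp (-(K + 1) * (r - s)) * w r x0
          - Real.exp (-(K + 1) * (t0 - s)) * w t0 x0) / (r - t0) :=
        div_nonneg_of_nonpos (by linarith) (by linarith)
      linarith
    have h6 : (K + 1) * w t0 x0 ≤ wt t0 x0 := by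
      have h7 : 0 ≤ Real.exp (-(K + 1) * (t0 - s)) * (wt t0 x0 - (K + 1) * w t0 x0) := by
        calc (0:ℝ) ≤ _ := hge
          _ = _ := by ring
      have := (mul_nonneg_iff_of_pos_left (hE t0)).1 h7
      linarith
    have h8 := ineq t0 ht0' x0 hx0 hw
    have h9 : c t0 x0 * w t0 x0 ≤ K * w t0 x0 :=
      mul_le_mul_of_nonneg_right (hc t0 ht0' x0 hx0) hw.le
    have h10 : d * wxx t0 x0 ≤ 0 := mul_nonpos_of_nonneg_of_nonpos hd hxx
    nlinarith
  intro t ht x hx
  have h11 := (hmax' t ht x hx).trans key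
  simp only [hv] at h11
  have := Real.exp_pos (-(K + 1) * (t - s))
  by_contra h12
  push Not at h12
  exact absurd h11 (not_le.2 (mul_pos this h12))

end Pool.Agent.Lib.MP_4fbe7c_an.SD
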