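import Pool.Agent.Lib.MP_4fbe7c_an.SD.H95.Tools

set_option autoImplicit false

open Set MeasureTheory intervalIntegral

namespace Pool.Agent.Lib.MP_4fbe7c_an.SD

open Pool.Agent.Lib.MP_4fbe7c_an.SD.H95

theorem sq_sqrt_sub_le {θ y : ℝ} (hθ : 0 < θ) (hy : 0 ≤ y) :
    θ * (√(θ * y) - √θ) ^ 2 ≤ θ ^ 2 * (y - 1) ^ 2 := by
  have h1 : √(θ * y) = √θ * √y := Real.sqrt_mul hθ.le y
  have h2 : √θ ^ 2 = θ := Real.sq_sqrt hθ.le
  have h3 : √y ^ 2 = y := Real.sq_sqrt hy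
  have h4 : 0 ≤ √y := Real.sqrt_nonneg y
  have h5 : θ * (√(θ * y) - √θ) ^ 2 = θ ^ 2 * (√y - 1) ^ 2 := by
    rw [h1]
    calc θ * (√θ * √y - √θ) ^ 2 = θ * (√θ ^ 2 * (√y - 1) ^ 2) := by ring
      _ = θ ^ 2 * (√y - 1) ^ 2 := by rw [h2]; ring
  rw [h5]
  apply mul_le_mul_of_nonneg_left _ (sq_nonneg θ)
  have h6 : (y - 1) ^ 2 = (√y - 1) ^ 2 * (√y + 1) ^ 2 := by
    nth_rewrite 1 [← h3]; ring
  rw [h6]
  nlinarith [sq_nonneg (√y - 1), mul_nonneg (sq_nonneg (√y - 1)) h4,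
    mul_nonneg (sq_nonneg (√y - 1)) (mul_nonneg h4 h4)]

/-- `θ'` is not identically zero if `m` is not constant. -/
theorem int_sq_pos {L : ℝ} {m : ℝ → ℝ} {d : ℝ} (hL : 0 < L)
    (hnc : ∃ x ∈ Icc 0 L, ∃ y ∈ Icc 0 L, m x ≠ m y) {θ θ' θ'' : ℝ → ℝ}
    (hθ : Steady L m d θ θ' θ'') : 0 < ∫ x in (0)..L, θ' x ^ 2 := by
  by_contra hle
  rw [not_lt] at hle
  have hc : ContinuousOn (fun x => θ' x ^ 2) (Icc 0 L) := (st_c1 hθ).pow 2
  have hz := eq_zero_of_integral hL hc (fun x _ => sq_nonneg _) hle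
  have hz1 : ∀ x ∈ Icc 0 L, θ' x = 0 := fun x hx => by
    have := hz x hx
    exact pow_eq_zero_iff (two_ne_zero) |>.mp this
  have hz2 : ∀ x ∈ Icc 0 L, θ'' x = 0 := by
    have h1 : DerivOn L θ' (fun _ => 0) := by
      intro x hx
      have h2 : HasDerivWithinAt (fun _ : ℝ => (0 : ℝ)) 0 (Icc 0 L) x :=
        hasDerivWithinAt_const x _ 0
      exact h2.congr (fun y hy => hz1 y hy) (hz1 x hx)
    exact uniq hL hθ.d2 h1
  have hz3 : ∀ x ∈ Icc 0 L, m x = θ x := by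
    intro x hx
    have h1 := hθ.eq x hx
    rw [hz2 x hx, mul_zero, zero_add] at h1
    rcases mul_eq_zero.mp h1 with h2 | h2
    · exact absurd h2 (hθ.pos x hx).ne'
    · linarith
  obtain ⟨x, hx, y, hy, hne⟩ := hnc
  apply hne
  rw [hz3 x hx, hz3 y hy]
  have h1 := abs_sub_le hθ.d1 (st_c1 hθ) (K := 0) (fun z hz' => by rw [hz1 z hz', abs_zero]) hx hy
  rw [zero_mul] at h1
  have := abs_nonpos_iff.mp h1
  linarith

theorem weight_near {L : ℝ} {m : ℝ → ℝ} {d : ℝ} (hL : 0 < L) (hm : ContinuousOn m (Icc 0 L))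
    (hnc : ∃ x ∈ Icc 0 L, ∃ y ∈ Icc 0 L, m x ≠ m y) (hd : 0 < d) {θ θ' θ'' : ℝ → ℝ}
    (hθ : Steady L m d θ θ' θ'') :
    ∃ D : ℝ, d < D ∧ ∀ d', d < d' → d' < D →
      ∃ φ φ' φ'' : ℝ → ℝ, Weight L m θ d' φ φ' φ'' := by
  have hc0 := st_c0 hθ
  have hc1 := st_c1 hθ
  have hc2 := st_c2 hθ hm hd
  have h0m : (0 : ℝ) ∈ Icc 0 L := ⟨le_refl 0, hL.le⟩
  have hLm : L ∈ Icc 0 L := ⟨hL.le, le_refl L⟩
  have hIθ : 0 < ∫ x in (0)..L, θ x :=
    intervalIntegral.integral_pos hL hc0 (fun y hy => (hθ.pos y (Ioc_subset_Icc_self hy)).le)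
      ⟨0, h0m, hθ.pos 0 h0m⟩
  have hI1 := int_sq_pos hL hnc hθ
  obtain ⟨c0, hc0def⟩ : ∃ c0 : ℝ, c0 = (∫ x in (0)..L, θ' x ^ 2) / (∫ x in (0)..L, θ x) := ⟨_, rfl⟩
  have hc0pos : 0 < c0 := by rw [hc0def]; exact div_pos hI1 hIθ
  have hc0eq : c0 * (∫ x in (0)..L, θ x) = ∫ x in (0)..L, θ' x ^ 2 := by
    rw [hc0def]; field_simp
  obtain ⟨g, hg⟩ : ∃ g : ℝ → ℝ, g = fun x => -θ'' x - c0 := ⟨_, rfl⟩
  have hgc : ContinuousOn g (Icc 0 L) := by rw [hg]; exact hc2.neg.sub continuousOn_const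
  have hgtc : ContinuousOn (fun x => g x * θ x / d) (Icc 0 L) := (hgc.mul hc0).div_const d
  obtain ⟨P, hP, hP0⟩ := exists_prim hL hgtc
  have hPc := DerivOn.cont hP
  -- P L = 0
  have hPL : P L = 0 := by
    have h1 := ftc hP hgtc (le_refl 0) hL.le (le_refl L)
    rw [hP0, sub_zero] at h1
    -- integrate by parts
    have h2 : DerivOn L (fun x => -(θ' x * θ x)) (fun x => -(θ'' x * θ x + θ' x * θ' x)) := by
      intro x hx
      exact ((hθ.d2 x hx).mul (hθ.d1 x hx)).neg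
    have hc2' : ContinuousOn (fun x => -(θ'' x * θ x + θ' x * θ' x)) (Icc 0 L) :=
      ((hc2.mul hc0).add (hc1.mul hc1)).neg
    have h3 := ftc h2 hc2' (le_refl 0) hL.le (le_refl L)
    simp only [hθ.b0, hθ.bL, zero_mul, neg_zero, sub_zero] at h3
    have hsq : ContinuousOn (fun x => θ' x ^ 2) (Icc 0 L) := hc1.pow 2
    have h4 : (∫ x in (0)..L, g x * θ x / d)
        = (1 / d) * ((∫ x in (0)..L, -(θ'' x * θ x + θ' x * θ' x))
          + (∫ x in (0)..L, θ' x ^ 2) - c0 * ∫ x in (0)..L, θ x) := by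
      rw [← intervalIntegral.integral_const_mul c0, ← intervalIntegral.integral_add
        (intble hc2' h0m hLm) (intble hsq h0m hLm), ← intervalIntegral.integral_sub
        ((intble hc2' h0m hLm).add (intble hsq h0m hLm))
        ((intble hc0 h0m hLm).const_mul c0), ← intervalIntegral.integral_const_mul]
      apply intervalIntegral.integral_congr
      intro x hx
      simp only [hg]
      ring
    rw [← h1, h4, h3, hc0eq]
    ring
  have hPt : ContinuousOn (fun x => P x / θ x ^ 2) (Icc 0 L) :=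
    hPc.div (hc0.pow 2) (fun x hx => (pow_pos (hθ.pos x hx) 2).ne')
  obtain ⟨η, hη, hη0⟩ := exists_prim hL hPt
  have hηc := DerivOn.cont hη
  -- bounds
  obtain ⟨K1, hK1, hK1b⟩ := exists_bound hηc
  have hRc : ContinuousOn (fun x => θ'' x * η x + g x / d + θ x ^ 2 * η x ^ 2) (Icc 0 L) :=
    ((hc2.mul hηc).add (hgc.div_const d)).add ((hc0.pow 2).mul (hηc.pow 2))
  obtain ⟨K2, hK2, hK2b⟩ := exists_bound hRc
  refine ⟨d + min (1 / (2 * K1)) (c0 / (2 * K2)), ?_, ?_⟩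
  · have : 0 < min (1 / (2 * K1)) (c0 / (2 * K2)) := lt_min (by positivity) (by positivity)
    linarith
  intro d' hd' hd'2
  obtain ⟨h, hh⟩ : ∃ h : ℝ, h = d' - d := ⟨_, rfl⟩
  have hhpos : 0 < h := by rw [hh]; linarith
  have hh1 : h < 1 / (2 * K1) := by
    rw [hh]; linarith [min_le_left (1 / (2 * K1)) (c0 / (2 * K2))]
  have hh2 : h < c0 / (2 * K2) := by
    rw [hh]; linarith [min_le_right (1 / (2 * K1)) (c0 / (2 * K2))]
  have hd'eq : d' = d + h := by rw [hh]; ring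
  have hη1 : ∀ x ∈ Icc 0 L, 1 / 2 < 1 + h * η x := by
    intro x hx
    have h1 : |h * η x| < 1 / 2 := by
      rw [abs_mul, abs_of_pos hhpos]
      calc h * |η x| ≤ h * K1 := mul_le_mul_of_nonneg_left (hK1b x hx) hhpos.le
        _ < 1 / (2 * K1) * K1 := mul_lt_mul_of_pos_right hh1 hK1
        _ = 1 / 2 := by field_simp
    have h2 := (abs_lt.mp h1).1
    linarith
  refine ⟨fun x => θ x * (1 + h * η x), fun x => θ' x * (1 + h * η x) + h * (P x / θ x),
    fun x => θ'' x * (1 + h * η x) + h * (g x / d), ?_, ?_, ?_, ?_, ?_, ?_, ?_⟩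
  · intro x hx
    exact mul_pos (hθ.pos x hx) (by linarith [hη1 x hx])
  · intro x hx
    have hp := (hθ.pos x hx).ne'
    have h1 := (hθ.d1 x hx).mul (((hη x hx).const_mul h).const_add 1)
    refine h1.congr_deriv ?_
    field_simp
  · intro x hx
    have hp := (hθ.pos x hx).ne'
    have h1 := ((hθ.d2 x hx).mul (((hη x hx).const_mul h).const_add 1)).add
      (((hP x hx).div (hθ.d1 x hx) hp).const_mul h)
    refine h1.congr_deriv ?_
    field_simp
    ring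
  · exact (hc2.mul (continuousOn_const.add (continuousOn_const.mul hηc))).add
      (continuousOn_const.mul (hgc.div_const d))
  · simp only [hθ.b0, hP0]; simp
  · simp only [hθ.bL, hPL]; simp
  · intro x hx
    have hp := hθ.pos x hx
    have h1 := sq_sqrt_sub_le hp (by linarith [hη1 x hx] : (0 : ℝ) ≤ 1 + h * η x)
    have h2 := hθ.eq x hx
    have h3 := (abs_le.mp (hK2b x hx)).2
    have h4 : d' * (θ'' x * (1 + h * η x) + h * (g x / d)) + (m x - θ x) * (θ x * (1 + h * η x))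
        = -c0 * h + h ^ 2 * (θ'' x * η x + g x / d) := by
      have h5 : g x = -θ'' x - c0 := by rw [hg]
      have h6 : (m x - θ x) * θ x = -(d * θ'' x) := by linarith
      have h7 : (m x - θ x) * (θ x * (1 + h * η x)) = -(d * θ'' x) * (1 + h * η x) := by
        rw [← h6]; ring
      rw [h7, h5, hd'eq]
      field_simp
      ring
    have h8 : h * (θ'' x * η x + g x / d + θ x ^ 2 * η x ^ 2) < c0 := by
      calc h * (θ'' x * η x + g x / d + θ x ^ 2 * η x ^ 2) ≤ h * K2 :=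
            mul_le_mul_of_nonneg_left h3 hhpos.le
        _ < c0 / (2 * K2) * K2 := mul_lt_mul_of_pos_right hh2 hK2
        _ = c0 / 2 := by field_simp
        _ < c0 := by linarith
    calc d' * (θ'' x * (1 + h * η x) + h * (g x / d)) + (m x - θ x) * (θ x * (1 + h * η x))
          + θ x * (√(θ x * (1 + h * η x)) - √(θ x)) ^ 2
        ≤ (-c0 * h + h ^ 2 * (θ'' x * η x + g x / d))
          + θ x ^ 2 * (1 + h * η x - 1) ^ 2 := by rw [h4]; linarith
      _ = h * (h * (θ'' x * η x + g x / d + θ x ^ 2 * η x ^ 2) - c0) := by ring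
      _ < 0 := mul_neg_of_pos_of_neg hhpos (by linarith)

end Pool.Agent.Lib.MP_4fbe7c_an.SD
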