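import Pool.Agent.Lib.MP_4fbe7c_an.SD.Calc

set_option autoImplicit false

open Set MeasureTheory

namespace Pool.Agent.Lib.MP_4fbe7c_an.SD

theorem log_lower {a y : ℝ} (ha : 0 < a) (hy : 0 < y) :
    a ^ 2 - a ^ 2 * Real.log a ≤ a * y - a ^ 2 * Real.log y := by
  have h1 : Real.log (y / a) ≤ y / a - 1 := Real.log_le_sub_one_of_pos (by positivity)
  rw [Real.log_div hy.ne' ha.ne'] at h1
  have h2 := mul_le_mul_of_nonneg_left h1 (sq_nonneg a)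
  have h3 : a ^ 2 * (y / a - 1) = a * y - a ^ 2 := by field_simp
  nlinarith

theorem log_upper {a y : ℝ} (ha : 0 < a) (hy : 0 < y) :
    a * y - a ^ 2 * Real.log y ≤ a ^ 2 - a ^ 2 * Real.log a + a * ((y - a) ^ 2 / y) := by
  have h1 : Real.log (a / y) ≤ a / y - 1 := Real.log_le_sub_one_of_pos (by positivity)
  rw [Real.log_div ha.ne' hy.ne'] at h1
  have h2 := mul_le_mul_of_nonneg_left h1 (sq_nonneg a)
  have h3 : a ^ 2 * (a / y - 1) + a * y - a ^ 2 = a * ((y - a) ^ 2 / y) := by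
    field_simp
    ring
  nlinarith

theorem cont_integrand {L : ℝ} {m : ℝ → ℝ} {N : ℕ}
    {d : Fin N → ℝ} {u v w : Fin N → ℝ → ℝ → ℝ} (h : Sol L m d u v w)
    (i₀ : Fin N) {θ θ' θ'' : ℝ → ℝ} (hθ : Steady L m (d i₀) θ θ' θ'')
    {φ φ' φ'' : Fin N → ℝ → ℝ} (hφ : ∀ j, j ≠ i₀ → Weight L m θ (d j) (φ j) (φ' j) (φ'' j))
    {A : Set ℝ} (hA : A ⊆ Ici 0)
    (hpos : ∀ t ∈ A, ∀ x ∈ Icc 0 L, 0 < u i₀ t x) :
    ContinuousOn (fun p : ℝ × ℝ => θ p.2 * u i₀ p.1 p.2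
      + (∑ j ∈ Finset.univ.erase i₀, φ j p.2 * u j p.1 p.2)
      - θ p.2 ^ 2 * Real.log (u i₀ p.1 p.2)) (A ×ˢ Icc 0 L) := by
  have hsnd : MapsTo (fun p : ℝ × ℝ => p.2) (A ×ˢ Icc 0 L) (Icc 0 L) := fun p hp => hp.2
  have hθc : ContinuousOn (fun p : ℝ × ℝ => θ p.2) (A ×ˢ Icc 0 L) :=
    hθ.d1.continuousOn.comp continuousOn_snd hsnd
  have hu : ∀ j, ContinuousOn (fun p : ℝ × ℝ => u j p.1 p.2) (A ×ˢ Icc 0 L) := fun j =>
    (h.cu j).mono (prod_mono hA le_rfl)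
  refine ((hθc.mul (hu i₀)).add ?_).sub ((hθc.pow 2).mul ((hu i₀).log ?_))
  · refine continuousOn_finsetSum _ fun j hj => ?_
    have hj' : j ≠ i₀ := Finset.ne_of_mem_erase hj
    exact ((hφ j hj').d1.continuousOn.comp continuousOn_snd hsnd).mul (hu j)
  · rintro ⟨t, x⟩ ⟨ht, hx⟩
    exact (hpos t ht x hx).ne'

theorem vmin_le {L : ℝ} {m : ℝ → ℝ} (hL : 0 < L) {N : ℕ}
    {d : Fin N → ℝ} {u v w : Fin N → ℝ → ℝ → ℝ} (h : Sol L m d u v w)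
    (i₀ : Fin N) {θ θ' θ'' : ℝ → ℝ} (hθ : Steady L m (d i₀) θ θ' θ'')
    {φ φ' φ'' : Fin N → ℝ → ℝ} (hφ : ∀ j, j ≠ i₀ → Weight L m θ (d j) (φ j) (φ' j) (φ'' j))
    {t : ℝ} (ht : 0 ≤ t) (hnn : ∀ j, ∀ x ∈ Icc 0 L, 0 ≤ u j t x)
    (hpos : ∀ x ∈ Icc 0 L, 0 < u i₀ t x) :
    Vmin L θ ≤ V L i₀ θ φ u t := by
  have hIcc : uIcc 0 L = Icc 0 L := uIcc_of_le hL.le
  have hc := cont_integrand h i₀ hθ hφ (A := {t}) (by intro s hs; rw [mem_singleton_iff.1 hs]; exact ht)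
    (by intro s hs; rw [mem_singleton_iff.1 hs]; exact hpos)
  have hc' := slice (g := fun t x => θ x * u i₀ t x
      + (∑ j ∈ Finset.univ.erase i₀, φ j x * u j t x)
      - θ x ^ 2 * Real.log (u i₀ t x)) hc (mem_singleton t)
  have hθc := hθ.d1.continuousOn
  unfold Vmin V
  refine intervalIntegral.integral_mono_on hL.le ?_ ?_ ?_
  · rw [← hIcc] at hθc
    refine ContinuousOn.intervalIntegrable ?_
    refine (hθc.pow 2).sub ((hθc.pow 2).mul (hθc.log ?_))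
    intro x hx
    rw [hIcc] at hx
    exact (hθ.pos x hx).ne'
  · rw [← hIcc] at hc'
    exact hc'.intervalIntegrable
  · intro x hx
    have h1 := log_lower (hθ.pos x hx) (hpos x hx)
    have h2 : 0 ≤ ∑ j ∈ Finset.univ.erase i₀, φ j x * u j t x := by
      refine Finset.sum_nonneg fun j hj => ?_
      have hj' : j ≠ i₀ := Finset.ne_of_mem_erase hj
      exact mul_nonneg ((hφ j hj').pos x hx).le (hnn j x hx)
    linarith

/-- Close initial data have `V(0)` close to its minimum. -/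
theorem v_zero_small {L : ℝ} {m : ℝ → ℝ} (hL : 0 < L) {N : ℕ} {d : Fin N → ℝ}
    (i₀ : Fin N) {θ θ' θ'' : ℝ → ℝ} (hθ : Steady L m (d i₀) θ θ' θ'')
    {φ φ' φ'' : Fin N → ℝ → ℝ} (hφ : ∀ j, j ≠ i₀ → Weight L m θ (d j) (φ j) (φ' j) (φ'' j))
    {η : ℝ} (hη : 0 < η) :
    ∃ δ : ℝ, 0 < δ ∧ (∀ x ∈ Icc 0 L, δ < θ x) ∧
      ∀ u v w : Fin N → ℝ → ℝ → ℝ, Sol L m d u v w →
      (∀ x ∈ Icc 0 L, |u i₀ 0 x - θ x| < δ ∧ ∀ j, j ≠ i₀ → u j 0 x < δ) →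
      V L i₀ θ φ u 0 ≤ Vmin L θ + η := by
  have hIcc : uIcc 0 L = Icc 0 L := uIcc_of_le hL.le
  have hθc := hθ.d1.continuousOn
  have hne : (Icc 0 L).Nonempty := ⟨0, left_mem_Icc.2 hL.le⟩
  obtain ⟨x₁, hx₁, hmin⟩ := isCompact_Icc.exists_isMinOn hne hθc
  obtain ⟨x₂, hx₂, hmax⟩ := isCompact_Icc.exists_isMaxOn hne hθc
  have hc0 : 0 < θ x₁ := hθ.pos x₁ hx₁
  have hM0 : 0 < θ x₂ := hθ.pos x₂ hx₂
  have hlo : ∀ x ∈ Icc 0 L, θ x₁ ≤ θ x := fun x hx => hmin hx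
  have hhi : ∀ x ∈ Icc 0 L, θ x ≤ θ x₂ := fun x hx => hmax hx
  -- a bound for the weights
  have hΦ : ∃ Φ : ℝ, 0 ≤ Φ ∧ ∀ x ∈ Icc 0 L, (∑ j ∈ Finset.univ.erase i₀, φ j x) ≤ Φ := by
    have hc : ContinuousOn (fun x => ∑ j ∈ Finset.univ.erase i₀, φ j x) (Icc 0 L) :=
      continuousOn_finsetSum _ fun j hj => (hφ j (Finset.ne_of_mem_erase hj)).d1.continuousOn
    obtain ⟨x₃, hx₃, hmax₃⟩ := isCompact_Icc.exists_isMaxOn hne hc
    refine ⟨∑ j ∈ Finset.univ.erase i₀, φ j x₃, ?_, fun x hx => hmax₃ hx⟩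
    exact Finset.sum_nonneg fun j hj => ((hφ j (Finset.ne_of_mem_erase hj)).pos x₃ hx₃).le
  obtain ⟨Φ, hΦ0, hΦ⟩ := hΦ
  have hC : 0 < L * (θ x₂ + Φ) := by positivity
  refine ⟨min (θ x₁ / 2) (η / (L * (θ x₂ + Φ))), lt_min (by positivity) (by positivity), ?_, ?_⟩
  · intro x hx
    have h1 := hlo x hx
    have h2 := min_le_left (θ x₁ / 2) (η / (L * (θ x₂ + Φ)))
    linarith
  intro u v w hs hu
  set δ := min (θ x₁ / 2) (η / (L * (θ x₂ + Φ))) with hδdef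
  have hδ0 : 0 < δ := lt_min (by positivity) (by positivity)
  have hδ1 : δ ≤ θ x₁ / 2 := min_le_left _ _
  have hδ2 : δ * (L * (θ x₂ + Φ)) ≤ η := by
    have := min_le_right (θ x₁ / 2) (η / (L * (θ x₂ + Φ)))
    rwa [le_div_iff₀ hC] at this
  have hpos : ∀ x ∈ Icc 0 L, θ x₁ / 2 ≤ u i₀ 0 x := by
    intro x hx
    have h1 := abs_lt.1 (hu x hx).1
    have h2 := hlo x hx
    linarith [h1.1]
  have hpos' : ∀ x ∈ Icc 0 L, 0 < u i₀ 0 x := fun x hx => lt_of_lt_of_le (by positivity) (hpos x hx)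
  have hc := cont_integrand hs i₀ hθ hφ (A := {0}) (by intro s hs; rw [mem_singleton_iff.1 hs]; exact mem_Ici.2 le_rfl)
    (by intro s hs; rw [mem_singleton_iff.1 hs]; exact hpos')
  have hc' := slice (g := fun t x => θ x * u i₀ t x
      + (∑ j ∈ Finset.univ.erase i₀, φ j x * u j t x)
      - θ x ^ 2 * Real.log (u i₀ t x)) hc (mem_singleton 0)
  have hint : IntervalIntegrable (fun x => θ x ^ 2 - θ x ^ 2 * Real.log (θ x)) volume 0 L := by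
    have hθc2 := hθc
    rw [← hIcc] at hθc2
    refine ContinuousOn.intervalIntegrable ?_
    refine (hθc2.pow 2).sub ((hθc2.pow 2).mul (hθc2.log ?_))
    intro x hx
    rw [hIcc] at hx
    exact (hθ.pos x hx).ne'
  have hle : V L i₀ θ φ u 0 ≤ ∫ x in (0)..L, ((θ x ^ 2 - θ x ^ 2 * Real.log (θ x))
      + δ * (θ x₂ + Φ)) := by
    unfold V
    refine intervalIntegral.integral_mono_on hL.le ?_ ?_ ?_
    · rw [← hIcc] at hc'
      exact hc'.intervalIntegrable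
    · exact hint.add intervalIntegrable_const
    · intro x hx
      have h1 := log_upper (hθ.pos x hx) (hpos' x hx)
      have h2 : (∑ j ∈ Finset.univ.erase i₀, φ j x * u j 0 x) ≤ Φ * δ := by
        calc (∑ j ∈ Finset.univ.erase i₀, φ j x * u j 0 x)
            ≤ ∑ j ∈ Finset.univ.erase i₀, φ j x * δ := by
              refine Finset.sum_le_sum fun j hj => ?_
              have hj' : j ≠ i₀ := Finset.ne_of_mem_erase hj
              exact mul_le_mul_of_nonneg_left ((hu x hx).2 j hj').le ((hφ j hj').pos x hx).le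
          _ = (∑ j ∈ Finset.univ.erase i₀, φ j x) * δ := by rw [Finset.sum_mul]
          _ ≤ Φ * δ := mul_le_mul_of_nonneg_right (hΦ x hx) hδ0.le
      have h3 : (u i₀ 0 x - θ x) ^ 2 / u i₀ 0 x ≤ δ := by
        rw [div_le_iff₀ (hpos' x hx)]
        have h4 := (hu x hx).1
        have h5 : (u i₀ 0 x - θ x) ^ 2 = |u i₀ 0 x - θ x| * |u i₀ 0 x - θ x| := by
          rw [← abs_mul, ← sq, abs_of_nonneg (sq_nonneg _)]
        rw [h5]
        have h6 : |u i₀ 0 x - θ x| ≤ u i₀ 0 x := by linarith [hpos x hx]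
        exact mul_le_mul h4.le h6 (abs_nonneg _) hδ0.le
      have h7 : θ x * ((u i₀ 0 x - θ x) ^ 2 / u i₀ 0 x) ≤ θ x₂ * δ :=
        mul_le_mul (hhi x hx) h3 (div_nonneg (sq_nonneg _) (hpos' x hx).le) hM0.le
      have h8 : δ * (θ x₂ + Φ) = θ x₂ * δ + Φ * δ := by ring
      linarith
  rw [intervalIntegral.integral_add hint intervalIntegrable_const,
    intervalIntegral.integral_const, smul_eq_mul] at hle
  have h9 : (L - 0) * (δ * (θ x₂ + Φ)) = δ * (L * (θ x₂ + Φ)) := by ring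
  rw [h9] at hle
  unfold Vmin
  linarith

/-- `V` is continuous on `[0, ∞)` if `u_{i₀}` is positive on `[0, ∞)`. -/
theorem v_continuousOn {L : ℝ} {m : ℝ → ℝ} (hL : 0 < L) {N : ℕ}
    {d : Fin N → ℝ} {u v w : Fin N → ℝ → ℝ → ℝ} (h : Sol L m d u v w)
    (i₀ : Fin N) {θ θ' θ'' : ℝ → ℝ} (hθ : Steady L m (d i₀) θ θ' θ'')
    {φ φ' φ'' : Fin N → ℝ → ℝ} (hφ : ∀ j, j ≠ i₀ → Weight L m θ (d j) (φ j) (φ' j) (φ'' j))
    (hpos : ∀ t, 0 ≤ t → ∀ x ∈ Icc 0 L, 0 < u i₀ t x) :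
    ContinuousOn (V L i₀ θ φ u) (Ici 0) := by
  have hc := cont_integrand h i₀ hθ hφ (A := Ici 0) le_rfl (fun t ht => hpos t ht)
  exact continuousOn_integral hL hc

end Pool.Agent.Lib.MP_4fbe7c_an.SD
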