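import Pool.Agent.Lib.MP_4fbe7c_an.SD.Key
import Pool.Agent.Lib.MP_4fbe7c_an.SD.Pos
import Pool.Agent.Lib.MP_4fbe7c_an.SD.Vmin

set_option autoImplicit false

/-!
MAIN: weights imply global asymptotic stability.
-/

open Set Filter Topology

namespace Pool.Agent.Lib.MP_4fbe7c_an.SD

open Lyap

/-- A continuous function on `[0, L]` is bounded above. -/
theorem main_bdd {L : ℝ} {g : ℝ → ℝ} (hg : ContinuousOn g (Icc 0 L)) :
    ∃ C : ℝ, ∀ x ∈ Icc 0 L, g x ≤ C := by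
  obtain ⟨C, hC⟩ := isCompact_Icc.bddAbove_image hg
  exact ⟨C, fun x hx => hC ⟨x, hx, rfl⟩⟩

/-- A continuous negative function on `[0, L]` is at most `-σ` for some `σ > 0`. -/
theorem main_neg {L : ℝ} (hL : 0 < L) {g : ℝ → ℝ} (hg : ContinuousOn g (Icc 0 L))
    (h : ∀ x ∈ Icc 0 L, g x < 0) : ∃ σ : ℝ, 0 < σ ∧ ∀ x ∈ Icc 0 L, g x ≤ -σ := by
  obtain ⟨x0, hx0, hmax⟩ := isCompact_Icc.exists_isMaxOn ⟨0, le_refl 0, hL.le⟩ hg
  refine ⟨-g x0, by linarith [h x0 hx0], fun x hx => ?_⟩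
  have : g x ≤ g x0 := hmax hx
  linarith

/-- The constant `σ`. -/
theorem main_sigma {L : ℝ} {m : ℝ → ℝ} (hL : 0 < L) (hm : ContinuousOn m (Icc 0 L)) {N : ℕ}
    {d : Fin N → ℝ} (i₀ : Fin N) {θ θ' θ'' : ℝ → ℝ} (hθ : Steady L m (d i₀) θ θ' θ'')
    {φ φ' φ'' : Fin N → ℝ → ℝ} (hφ : ∀ j, j ≠ i₀ → Weight L m θ (d j) (φ j) (φ' j) (φ'' j)) :
    ∃ σ : ℝ, 0 < σ ∧ ∀ j, j ≠ i₀ → ∀ x ∈ Icc 0 L,
      d j * φ'' j x + (m x - θ x) * φ j x + θ x * (√(φ j x) - √(θ x)) ^ 2 ≤ -σ := by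
  classical
  have hθc : ContinuousOn θ (Icc 0 L) := fun x hx => (hθ.d1 x hx).continuousWithinAt
  have h1 : ∀ j, ∃ σ : ℝ, 0 < σ ∧ (j ≠ i₀ → ∀ x ∈ Icc 0 L,
      d j * φ'' j x + (m x - θ x) * φ j x + θ x * (√(φ j x) - √(θ x)) ^ 2 ≤ -σ) := by
    intro j
    by_cases hj : j = i₀
    · exact ⟨1, one_pos, fun h => absurd hj h⟩
    · have hw := hφ j hj
      have hφc : ContinuousOn (φ j) (Icc 0 L) := fun x hx => (hw.d1 x hx).continuousWithinAt
      obtain ⟨σ, hσ, hs⟩ := main_neg hL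
        ((((continuousOn_const (c := d j)).mul hw.c2).add ((hm.sub hθc).mul hφc)).add
          (hθc.mul ((hφc.sqrt.sub hθc.sqrt).pow 2))) hw.neg
      exact ⟨σ, hσ, fun _ => hs⟩
  choose s hs1 hs2 using h1
  have hne : (Finset.univ : Finset (Fin N)).Nonempty := ⟨i₀, Finset.mem_univ _⟩
  refine ⟨Finset.univ.inf' hne s, ?_, fun j hj x hx => ?_⟩
  · rw [Finset.lt_inf'_iff]
    exact fun j _ => hs1 j
  · have h2 : Finset.univ.inf' hne s ≤ s j := Finset.inf'_le s (Finset.mem_univ j)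
    linarith [hs2 j hj x hx]

/-- The dissipation is nonnegative. -/
theorem main_diss {L : ℝ} (hL : 0 < L) {N : ℕ} (i₀ : Fin N) {θ : ℝ → ℝ}
    {φ : Fin N → ℝ → ℝ} {u : Fin N → ℝ → ℝ → ℝ} {σ t : ℝ} (hσ : 0 < σ)
    (hnn : ∀ j, ∀ x ∈ Icc 0 L, 0 ≤ u j t x) :
    0 ≤ ∫ x in (0)..L, (σ * (∑ j ∈ Finset.univ.erase i₀, u j t x)
        + (√(θ x) * u i₀ t x + (∑ j ∈ Finset.univ.erase i₀, √(φ j x) * u j t x)
            - √(θ x) ^ 3) ^ 2) := by
  refine intervalIntegral.integral_nonneg hL.le fun x hx => ?_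
  have h1 : 0 ≤ ∑ j ∈ Finset.univ.erase i₀, u j t x :=
    Finset.sum_nonneg fun j _ => hnn j x hx
  positivity

theorem gas_of_weights {L : ℝ} {m : ℝ → ℝ} (hL : 0 < L) (hm : ContinuousOn m (Icc 0 L)) {N : ℕ}
    {d : Fin N → ℝ} (hd : ∀ i, 0 < d i)
    (i₀ : Fin N) {θ θ' θ'' : ℝ → ℝ} (hθ : Steady L m (d i₀) θ θ' θ'')
    {φ φ' φ'' : Fin N → ℝ → ℝ} (hφ : ∀ j, j ≠ i₀ → Weight L m θ (d j) (φ j) (φ' j) (φ'' j)) :
    Gas L m d i₀ θ := by
  classical
  obtain ⟨σ, hσ, hneg⟩ := main_sigma hL hm i₀ hθ hφ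
  have hθc : ContinuousOn θ (Icc 0 L) := fun x hx => (hθ.d1 x hx).continuousWithinAt
  obtain ⟨K0, hK0⟩ := main_bdd hm
  obtain ⟨K, hKdef⟩ : ∃ K : ℝ, K = max K0 0 := ⟨_, rfl⟩
  have hK : ∀ x ∈ Icc 0 L, m x ≤ K := fun x hx => (hK0 x hx).trans (by rw [hKdef]; exact le_max_left _ _)
  have hKnn : 0 ≤ K := by rw [hKdef]; exact le_max_right _ _
  obtain ⟨Θ, hΘ⟩ := main_bdd hθc
  -- monotonicity
  have hV : ∀ u v w : Fin N → ℝ → ℝ → ℝ, Sol L m d u v w →
      (∀ t, 0 < t → ∀ x ∈ Icc 0 L, 0 < u i₀ t x) →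
      AntitoneOn (V L i₀ θ φ u) (Ioi 0) := by
    intro u v w h hpos
    have hly := lyapunov hL hm hd h i₀ hθ hφ hσ.le hneg hpos
    have hnn := nonneg hL hm hd h
    refine antitoneOn_of_deriv_nonpos (convex_Ioi 0) (fun t ht => ?_) (fun t ht => ?_)
      (fun t ht => ?_)
    · obtain ⟨V', hV', -⟩ := hly t ht
      exact hV'.continuousAt.continuousWithinAt
    · rw [interior_Ioi] at ht
      obtain ⟨V', hV', -⟩ := hly t ht
      exact hV'.differentiableAt.differentiableWithinAt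
    · rw [interior_Ioi] at ht
      obtain ⟨V', hV', hle⟩ := hly t ht
      rw [hV'.deriv]
      have := main_diss (θ := θ) (φ := φ) hL i₀ hσ (fun j x hx => hnn j t (le_of_lt ht) x hx)
      linarith
  intro ε hε
  -- stability
  obtain ⟨M, hMdef⟩ : ∃ M : ℝ, M = max K (Θ + 1) := ⟨_, rfl⟩
  have hMK : K ≤ M := by rw [hMdef]; exact le_max_left _ _
  have hMΘ : Θ + 1 ≤ M := by rw [hMdef]; exact le_max_right _ _
  have hM0 : 0 ≤ M := hKnn.trans hMK
  obtain ⟨η, hη, hkey⟩ := key hL hm hd i₀ hθ hφ hσ hneg M hε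
  obtain ⟨δ1, hδ1, hδ1θ, hv0⟩ := v_zero_small (m := m) (d := d) hL i₀ hθ hφ hη
  obtain ⟨E, hE⟩ : ∃ E : ℝ, E = Real.exp (2 * (K + 1)) := ⟨_, rfl⟩
  have hE0 : 0 < E := by rw [hE]; exact Real.exp_pos _
  obtain ⟨F, hF⟩ : ∃ F : ℝ, F = (1 + M * (N * E)) * E + E + 1 := ⟨_, rfl⟩
  have hF0 : 0 < F := by rw [hF]; positivity
  obtain ⟨δ, hδdef⟩ : ∃ δ : ℝ, δ = min (min δ1 1) (ε / (2 * F)) := ⟨_, rfl⟩
  have hδ : 0 < δ := by rw [hδdef]; exact lt_min (lt_min hδ1 one_pos) (by positivity)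
  have hδδ1 : δ ≤ δ1 := by rw [hδdef]; exact (min_le_left _ _).trans (min_le_left _ _)
  have hδ1' : δ ≤ 1 := by rw [hδdef]; exact (min_le_left _ _).trans (min_le_right _ _)
  have hδF : δ * F < ε := by
    have h1 : δ ≤ ε / (2 * F) := by rw [hδdef]; exact min_le_right _ _
    have h2 : δ * F ≤ ε / (2 * F) * F := mul_le_mul_of_nonneg_right h1 hF0.le
    have h3 : ε / (2 * F) * F = ε / 2 := by field_simp
    linarith
  refine ⟨δ, hδ, fun u v w h => ⟨fun hclose => ?_, fun hx => ?_⟩⟩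
  · -- stability
    have hnn := nonneg hL hm hd h
    have hpos0 : ∀ x ∈ Icc 0 L, 0 < u i₀ 0 x := by
      intro x hx
      have h1 := (abs_lt.1 (hclose x hx).1).1
      have h2 := hδ1θ x hx
      linarith
    have h0m : (0 : ℝ) ∈ Icc 0 L := ⟨le_refl 0, hL.le⟩
    have hpos : ∀ t, 0 < t → ∀ x ∈ Icc 0 L, 0 < u i₀ t x :=
      pos_of_init hL hm hd h i₀ ⟨0, h0m, hpos0 0 h0m⟩
    have hposc : ∀ t, 0 ≤ t → ∀ x ∈ Icc 0 L, 0 < u i₀ t x := by
      intro t ht
      rcases eq_or_lt_of_le ht with h1 | h1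
      · rw [← h1]; exact hpos0
      · exact hpos t h1
    have hinit : ∀ i, ∀ x ∈ Icc 0 L, u i 0 x ≤ M := by
      intro i x hx
      by_cases hi : i = i₀
      · rw [hi]
        have h1 := (abs_lt.1 (hclose x hx).1).2
        have h2 := hΘ x hx
        linarith
      · have h1 := (hclose x hx).2 i hi
        have h2 := hΘ x hx
        have h3 := hθ.pos x hx
        linarith
    have hMb : ∀ i t, 0 ≤ t → ∀ x ∈ Icc 0 L, u i t x ≤ M := fun i =>
      le_bound hL hm hd h hM0 (fun x hx => (hK x hx).trans hMK) i (hinit i)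
    -- short times
    have hexp : ∀ t ∈ Icc (0 : ℝ) 2, Real.exp (K * (t - 0)) ≤ E ∧
        Real.exp ((K + 1) * (t - 0)) ≤ E := by
      intro t ht
      rw [hE]
      constructor
      · exact Real.exp_le_exp.2 (by nlinarith [ht.1, ht.2])
      · exact Real.exp_le_exp.2 (by nlinarith [ht.1, ht.2])
    have hsm : ∀ j, j ≠ i₀ → ∀ t ∈ Icc (0 : ℝ) 2, ∀ x ∈ Icc 0 L, u j t x ≤ δ * E := by
      intro j hj t ht x hx
      have h1 := growth hL hm hd h hK j (le_refl 0) hδ.le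
        (fun y hy => ((hclose y hy).2 j hj).le) t ht.1 x hx
      exact h1.trans (mul_le_mul_of_nonneg_left (hexp t ht).1 hδ.le)
    have hsum : ∀ t ∈ Icc (0 : ℝ) 2, ∀ x ∈ Icc 0 L,
        u i₀ t x * ∑ j ∈ Finset.univ.erase i₀, u j t x ≤ M * (N * (δ * E)) := by
      intro t ht x hx
      have h1 : ∑ j ∈ Finset.univ.erase i₀, u j t x ≤ N * (δ * E) := by
        calc ∑ j ∈ Finset.univ.erase i₀, u j t x ≤ ∑ j ∈ Finset.univ.erase i₀, δ * E :=
              Finset.sum_le_sum fun j hj => hsm j (Finset.ne_of_mem_erase hj) t ht x hx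
          _ = ((Finset.univ.erase i₀).card : ℝ) * (δ * E) := by
              rw [Finset.sum_const, nsmul_eq_mul]
          _ ≤ N * (δ * E) := by
              refine mul_le_mul_of_nonneg_right ?_ (by positivity)
              have : (Finset.univ.erase i₀).card ≤ N := by
                calc (Finset.univ.erase i₀).card ≤ (Finset.univ : Finset (Fin N)).card :=
                      Finset.card_le_card (Finset.erase_subset _ _)
                  _ = N := by simp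
              exact_mod_cast this
      have h2 : 0 ≤ ∑ j ∈ Finset.univ.erase i₀, u j t x :=
        Finset.sum_nonneg fun j _ => hnn j t ht.1 x hx
      exact mul_le_mul (hMb i₀ t ht.1 x hx) h1 h2 hM0
    have hdiff := diff_growth (K := K) (R := M * (N * (δ * E))) (B := δ) (s := 0) (T := 2)
      hL hm hd h i₀ hθ (le_refl 0) (by positivity) hδ.le hKnn
      (fun t ht x hx => by
        have h1 := hK x hx
        have h2 := hθ.pos x hx
        have h3 := hnn i₀ t ht.1 x hx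
        linarith) hsum (fun x hx => (hclose x hx).1.le)
    intro t ht x hx
    by_cases ht2 : t ≤ 2
    · have htI : t ∈ Icc (0 : ℝ) 2 := ⟨ht, ht2⟩
      have hEF : δ * E ≤ δ * F := by
        refine mul_le_mul_of_nonneg_left ?_ hδ.le
        rw [hF]
        have : 0 ≤ (1 + M * (N * E)) * E := by positivity
        linarith
      constructor
      · have h1 := hdiff t htI x hx
        have h2 : (δ + M * (N * (δ * E))) * Real.exp ((K + 1) * (t - 0)) ≤
            (δ + M * (N * (δ * E))) * E :=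
          mul_le_mul_of_nonneg_left (hexp t htI).2 (by positivity)
        have h3 : (δ + M * (N * (δ * E))) * E = δ * ((1 + M * (N * E)) * E) := by ring
        have h4 : δ * ((1 + M * (N * E)) * E) ≤ δ * F := by
          refine mul_le_mul_of_nonneg_left ?_ hδ.le
          rw [hF]; linarith
        linarith
      · intro j hj
        rw [abs_of_nonneg (hnn j t ht x hx)]
        have := hsm j hj t htI x hx
        linarith
    · push Not at ht2
      -- long times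
      have hT : 0 < t - 1 := by linarith
      have hanti := hV u v w h hpos
      have hcont := v_continuousOn hL h i₀ hθ hφ hposc
      have hV0 : V L i₀ θ φ u (t - 1) ≤ V L i₀ θ φ u 0 := by
        have hlim : Tendsto (V L i₀ θ φ u) (𝓝[>] 0) (𝓝 (V L i₀ θ φ u 0)) :=
          (hcont 0 self_mem_Ici).mono_left (nhdsWithin_mono 0 Ioi_subset_Ici_self)
        refine ge_of_tendsto hlim ?_
        have : Ioo (0 : ℝ) (t - 1) ∈ 𝓝[>] (0 : ℝ) := Ioo_mem_nhdsGT hT
        filter_upwards [this] with r hr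
        exact hanti (mem_Ioi.2 hr.1) (mem_Ioi.2 hT) hr.2.le
      have hV1 : V L i₀ θ φ u 0 ≤ Vmin L θ + η := hv0 u v w h fun y hy =>
        ⟨(hclose y hy).1.trans_le hδδ1, fun j hj => ((hclose y hy).2 j hj).trans_le hδδ1⟩
      have hV2 : Vmin L θ ≤ V L i₀ θ φ u (t - 1 + 1) :=
        vmin_le hL h i₀ hθ hφ (by linarith) (fun j y hy => hnn j _ (by linarith) y hy)
          (fun y hy => hposc _ (by linarith) y hy)
      have h1 := hkey u v w h hMb hpos (t - 1) hT (by linarith) t ⟨by linarith, by linarith⟩ x hx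
      exact h1
  · -- attractivity
    have hnn := nonneg hL hm hd h
    have hpos : ∀ t, 0 < t → ∀ x ∈ Icc 0 L, 0 < u i₀ t x := pos_of_init hL hm hd h i₀ hx
    have hinit : ∃ M' : ℝ, K ≤ M' ∧ ∀ i, ∀ x ∈ Icc 0 L, u i 0 x ≤ M' := by
      have h1 : ∀ i, ∃ C : ℝ, ∀ x ∈ Icc 0 L, u i 0 x ≤ C := fun i => main_bdd (by
        have h2 : ContinuousOn (fun x : ℝ => ((0 : ℝ), x)) (Icc 0 L) :=
          (continuous_const.prodMk continuous_id).continuousOn
        exact (h.cu i).comp h2 fun x hx => ⟨self_mem_Ici, hx⟩)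
      choose C hC using h1
      refine ⟨max K (∑ i, |C i|), le_max_left _ _, fun i x hx => ?_⟩
      calc u i 0 x ≤ C i := hC i x hx
        _ ≤ |C i| := le_abs_self _
        _ ≤ ∑ i, |C i| := Finset.single_le_sum (f := fun i => |C i|)
            (fun j _ => abs_nonneg _) (Finset.mem_univ i)
        _ ≤ _ := le_max_right _ _
    obtain ⟨M', hM'K, hM'⟩ := hinit
    have hM'0 : 0 ≤ M' := hKnn.trans hM'K
    have hMb : ∀ i t, 0 ≤ t → ∀ x ∈ Icc 0 L, u i t x ≤ M' := fun i =>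
      le_bound hL hm hd h hM'0 (fun x hx => (hK x hx).trans hM'K) i (hM' i)
    obtain ⟨η', hη', hkey'⟩ := key hL hm hd i₀ hθ hφ hσ hneg M' hε
    have hanti := hV u v w h hpos
    have hlow : ∀ t, 0 < t → Vmin L θ ≤ V L i₀ θ φ u t := fun t ht =>
      vmin_le hL h i₀ hθ hφ ht.le (fun j y hy => hnn j t ht.le y hy) (hpos t ht)
    -- a time with small decrease
    obtain ⟨T, hT0, hT⟩ : ∃ T : ℝ, 0 < T ∧ ∀ t, T ≤ t →
        V L i₀ θ φ u t - V L i₀ θ φ u (t + 1) ≤ η' := by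
      have hbdd : BddBelow (V L i₀ θ φ u '' Ioi 0) := ⟨Vmin L θ, by
        rintro _ ⟨t, ht, rfl⟩; exact hlow t ht⟩
      have hne : (V L i₀ θ φ u '' Ioi 0).Nonempty := ⟨_, 1, mem_Ioi.2 one_pos, rfl⟩
      obtain ⟨_, ⟨T, hT, rfl⟩, hTlt⟩ := exists_lt_of_csInf_lt hne
        (lt_add_of_pos_right (sInf (V L i₀ θ φ u '' Ioi 0)) hη')
      refine ⟨T, hT, fun t ht => ?_⟩
      have ht0 : 0 < t := lt_of_lt_of_le hT ht
      have h1 : V L i₀ θ φ u t ≤ V L i₀ θ φ u T := hanti hT ht0 ht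
      have h2 : sInf (V L i₀ θ φ u '' Ioi 0) ≤ V L i₀ θ φ u (t + 1) :=
        csInf_le hbdd ⟨t + 1, by show (0:ℝ) < t + 1; linarith, rfl⟩
      linarith
    refine ⟨T + 1, fun t ht x hx => ?_⟩
    exact hkey' u v w h hMb hpos (t - 1) (by linarith) (hT (t - 1) (by linarith)) t
      ⟨by linarith, by linarith⟩ x hx

end Pool.Agent.Lib.MP_4fbe7c_an.SD
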