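import Pool.Agent.Lib.MP_4fbe7c_an.SD.Calc

set_option autoImplicit false

open Set Filter Topology MeasureTheory intervalIntegral
open scoped Interval

namespace Pool.Agent.Lib.MP_4fbe7c_an.SD

/-- oscillation bound without square roots -/
theorem osc_le {L C lam : ℝ} (hL : 0 < L) (hlam : 0 < lam) {f f' : ℝ → ℝ} (h : DerivOn L f f')
    (hc : ContinuousOn f' (Icc 0 L)) (hC : (∫ x in (0)..L, f' x ^ 2) ≤ C) {x y : ℝ}
    (hx : x ∈ Icc 0 L) (hy : y ∈ Icc 0 L) :
    |f y - f x| ≤ (lam * C + |y - x| / lam) / 2 := by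
  wlog hxy : x ≤ y generalizing x y
  · have := this hy hx (le_of_not_ge hxy)
    rwa [abs_sub_comm, abs_sub_comm y x]
  have hsub : Icc x y ⊆ Icc 0 L := Icc_subset_Icc hx.1 hy.2
  have e1 : f y - f x = ∫ z in x..y, f' z := (integral_deriv_sub h hc hx hy).symm
  have hi : IntervalIntegrable f' volume x y :=
    (hc.mono (by rw [uIcc_of_le hxy]; exact hsub)).intervalIntegrable
  have hi2 : IntervalIntegrable (fun z => f' z ^ 2) volume x y :=
    ((hc.pow 2).mono (by rw [uIcc_of_le hxy]; exact hsub)).intervalIntegrable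
  have hi0 : IntervalIntegrable (fun z => f' z ^ 2) volume 0 L :=
    ((hc.pow 2).mono (by rw [uIcc_of_le hL.le])).intervalIntegrable
  have e2 : |f y - f x| ≤ ∫ z in x..y, |f' z| := by
    rw [e1]; exact abs_integral_le_integral_abs hxy
  have e3 : ∫ z in x..y, |f' z| ≤ ∫ z in x..y, (lam / 2 * f' z ^ 2 + 1 / (2 * lam)) := by
    refine integral_mono_on hxy hi.abs ((hi2.const_mul _).add intervalIntegrable_const) ?_
    intro z _
    have h1 : 0 ≤ (lam * |f' z| - 1) ^ 2 := sq_nonneg _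
    have h2 : |f' z| ^ 2 = f' z ^ 2 := sq_abs _
    have h3 : lam / 2 * f' z ^ 2 + 1 / (2 * lam) - |f' z| = (lam * |f' z| - 1) ^ 2 / (2 * lam) := by
      rw [← h2]; field_simp; ring
    have h4 : 0 ≤ (lam * |f' z| - 1) ^ 2 / (2 * lam) := by positivity
    linarith
  have e4 : ∫ z in x..y, (lam / 2 * f' z ^ 2 + 1 / (2 * lam)) =
      lam / 2 * (∫ z in x..y, f' z ^ 2) + (y - x) * (1 / (2 * lam)) := by
    rw [integral_add (hi2.const_mul _) intervalIntegrable_const, intervalIntegral.integral_const_mul,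
      intervalIntegral.integral_const, smul_eq_mul]
  have e5 : ∫ z in x..y, f' z ^ 2 ≤ ∫ z in (0)..L, f' z ^ 2 := by
    refine integral_mono_interval hx.1 hxy hy.2 ?_ hi0
    exact Eventually.of_forall fun z => sq_nonneg _
  have e6 : lam / 2 * (∫ z in x..y, f' z ^ 2) ≤ lam / 2 * C :=
    mul_le_mul_of_nonneg_left (e5.trans hC) (by positivity)
  have e7 : |y - x| = y - x := abs_of_nonneg (by linarith)
  rw [e7]
  calc |f y - f x| ≤ lam / 2 * C + (y - x) * (1 / (2 * lam)) := by linarith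
    _ = (lam * C + (y - x) / lam) / 2 := by field_simp

theorem sup_small {L C ε : ℝ} (hL : 0 < L) (hε : 0 < ε) (hC : 0 < C) :
    ∃ h : ℝ, 0 < h ∧ ∀ f f' : ℝ → ℝ, DerivOn L f f' → ContinuousOn f' (Icc 0 L) →
      (∫ x in (0)..L, f' x ^ 2) ≤ C →
      ((∫ x in (0)..L, |f x|) ≤ h ∨ (∫ x in (0)..L, f x ^ 2) ≤ h) →
      ∀ x ∈ Icc 0 L, |f x| < ε := by
  -- length of the interval on which |f| ≥ ε/2
  set r : ℝ := min (L / 2) (ε ^ 2 / (4 * C)) with hr
  have hr0 : 0 < r := lt_min (by linarith) (by positivity)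
  have hrL : r ≤ L / 2 := min_le_left _ _
  have hrC : r ≤ ε ^ 2 / (4 * C) := min_le_right _ _
  refine ⟨min (r * (ε / 2)) (r * (ε / 2) ^ 2) / 2, by positivity, ?_⟩
  intro f f' hf hc hCf hsm x hx
  by_contra hge
  push Not at hge
  have hfc := hf.continuousOn
  -- on points at distance ≤ r, |f| ≥ ε/2
  have hnear : ∀ y ∈ Icc 0 L, |y - x| ≤ r → ε / 2 ≤ |f y| := by
    intro y hy hyx
    have h1 := osc_le hL (lam := ε / (2 * C)) (by positivity) hf hc hCf hx hy
    have h2 : |y - x| / (ε / (2 * C)) ≤ ε / 2 := by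
      rw [div_le_iff₀ (by positivity)]
      calc |y - x| ≤ ε ^ 2 / (4 * C) := hyx.trans hrC
        _ = ε / 2 * (ε / (2 * C)) := by field_simp; ring
    have h3 : ε / (2 * C) * C = ε / 2 := by field_simp
    rw [h3] at h1
    have h4 : |f x| ≤ |f y| + |f y - f x| := by
      have := abs_sub_abs_le_abs_sub (f x) (f y)
      rw [abs_sub_comm (f x) (f y)] at this
      linarith
    linarith
  -- an interval of length r containing x
  obtain ⟨a, b, hab, ha, hb, hr'⟩ : ∃ a b : ℝ, a + r = b ∧ 0 ≤ a ∧ b ≤ L ∧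
      ∀ y ∈ Icc a b, |y - x| ≤ r := by
    rcases le_total x (L / 2) with h | h
    · refine ⟨x, x + r, rfl, hx.1, by linarith, fun y hy => ?_⟩
      rw [abs_of_nonneg (by linarith [hy.1])]; linarith [hy.2]
    · refine ⟨x - r, x, by ring, by linarith, hx.2, fun y hy => ?_⟩
      rw [abs_of_nonpos (by linarith [hy.2])]; linarith [hy.1]
  have hab' : a ≤ b := by linarith
  have hsub : Icc a b ⊆ Icc 0 L := Icc_subset_Icc ha hb
  have hlow : ∀ y ∈ Icc a b, ε / 2 ≤ |f y| := fun y hy => hnear y (hsub hy) (hr' y hy)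
  have hfi : IntervalIntegrable (fun z => |f z|) volume 0 L :=
    (hfc.abs.mono (by rw [uIcc_of_le hL.le])).intervalIntegrable
  have hfi2 : IntervalIntegrable (fun z => f z ^ 2) volume 0 L :=
    ((hfc.pow 2).mono (by rw [uIcc_of_le hL.le])).intervalIntegrable
  have hfiab : IntervalIntegrable (fun z => |f z|) volume a b :=
    (hfc.abs.mono (by rw [uIcc_of_le hab']; exact hsub)).intervalIntegrable
  have hfi2ab : IntervalIntegrable (fun z => f z ^ 2) volume a b :=
    ((hfc.pow 2).mono (by rw [uIcc_of_le hab']; exact hsub)).intervalIntegrable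
  have hm1 : min (r * (ε / 2)) (r * (ε / 2) ^ 2) ≤ r * (ε / 2) := min_le_left _ _
  have hm2 : min (r * (ε / 2)) (r * (ε / 2) ^ 2) ≤ r * (ε / 2) ^ 2 := min_le_right _ _
  have hm0 : 0 < min (r * (ε / 2)) (r * (ε / 2) ^ 2) := by positivity
  rcases hsm with hsm | hsm
  · have h1 : r * (ε / 2) ≤ ∫ z in a..b, |f z| := by
      have : ∫ z in a..b, ε / 2 ≤ ∫ z in a..b, |f z| :=
        integral_mono_on hab' intervalIntegrable_const hfiab hlow
      rw [intervalIntegral.integral_const, smul_eq_mul, show b - a = r by linarith] at this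
      exact this
    have h2 : ∫ z in a..b, |f z| ≤ ∫ z in (0)..L, |f z| :=
      integral_mono_interval ha hab' hb (Eventually.of_forall fun z => abs_nonneg _) hfi
    linarith
  · have h1 : r * (ε / 2) ^ 2 ≤ ∫ z in a..b, f z ^ 2 := by
      have : ∫ z in a..b, (ε / 2) ^ 2 ≤ ∫ z in a..b, f z ^ 2 := by
        refine integral_mono_on hab' intervalIntegrable_const hfi2ab fun y hy => ?_
        rw [← sq_abs (f y)]
        exact pow_le_pow_left₀ (by positivity) (hlow y hy) 2
      rw [intervalIntegral.integral_const, smul_eq_mul, show b - a = r by linarith] at this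
      exact this
    have h2 : ∫ z in a..b, f z ^ 2 ≤ ∫ z in (0)..L, f z ^ 2 :=
      integral_mono_interval ha hab' hb (Eventually.of_forall fun z => sq_nonneg _) hfi2
    linarith

end Pool.Agent.Lib.MP_4fbe7c_an.SD
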