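import Pool.Agent.Lib.MP_4fbe7c_an.SD.H95.Tools
import Pool.Agent.Lib.MP_4fbe7c_an.SD.WNEAR
import Pool.Agent.Lib.MP_4fbe7c_an.SD.Int

set_option autoImplicit false

open Set MeasureTheory intervalIntegral

namespace Pool.Agent.Lib.MP_4fbe7c_an.SD

open Pool.Agent.Lib.MP_4fbe7c_an.SD.H95

/-- the algebraic identity for the weight `φ = θ η₀ (1 + s p K₀)` -/
theorem weight_identity {d d' s p θ θ2 m ζ η κ K1 Z : ℝ} (hθ : θ ≠ 0) (hd : d ≠ 0)
    (hd' : d' ≠ 0) (hs : s = d / d') (hp : p = 1 - s) (h2 : d * θ2 + θ * (m - θ) = 0) :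
    d' * (θ * η * (s ^ 2 * ζ ^ 2 * (1 + κ) + s * (θ2 / θ - ζ ^ 2) * (1 + κ)
        + 2 * s ^ 2 * p * ζ * K1 + s * p * (ζ ^ 2 - Z)))
      + (m - θ) * (θ * η * (1 + κ))
    = d * (θ * η) * p * (-Z - κ * ζ ^ 2 + 2 * s * ζ * K1) := by
  have h3 : θ2 / θ = -(m - θ) / d := by
    field_simp
    linarith
  rw [h3, hp]
  have h4 : d' = d / s := by rw [hs]; field_simp
  have hs0 : s ≠ 0 := by rw [hs]; exact div_ne_zero hd hd'
  rw [h4]
  field_simp
  ring

/-- pointwise estimate for the first part -/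
theorem first_part {d a p s Z κ ζ K1 L : ℝ} (hL : 0 < L) (hd : 0 < d) (ha : 0 < a) (hp : 0 < p)
    (hs0 : 0 ≤ s) (hs1 : s ≤ 1) (hZ : 0 < Z) (hκ : |κ| ≤ L ^ 2 * Z / 4) (hζ : |ζ| * L ≤ 1 / 4)
    (hK : |K1| ≤ L * Z) :
    d * a * p * (-Z - κ * ζ ^ 2 + 2 * s * ζ * K1) ≤ -(d * a * p * Z * (31 / 64)) := by
  have h1 : |κ * ζ ^ 2| ≤ Z / 64 := by
    rw [abs_mul, abs_of_nonneg (sq_nonneg ζ), ← sq_abs ζ]
    have h2 : (|ζ| * L) ^ 2 ≤ (1 / 4) ^ 2 := pow_le_pow_left₀ (by positivity) hζ 2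
    calc |κ| * |ζ| ^ 2 ≤ L ^ 2 * Z / 4 * |ζ| ^ 2 :=
          mul_le_mul_of_nonneg_right hκ (by positivity)
      _ = Z / 4 * (|ζ| * L) ^ 2 := by ring
      _ ≤ Z / 4 * (1 / 4) ^ 2 := mul_le_mul_of_nonneg_left h2 (by positivity)
      _ = Z / 64 := by ring
  have h2 : |2 * s * ζ * K1| ≤ Z / 2 := by
    rw [abs_mul, abs_mul, abs_mul, abs_of_pos (two_pos : (0:ℝ) < 2), abs_of_nonneg hs0]
    calc 2 * s * |ζ| * |K1| ≤ 2 * 1 * |ζ| * (L * Z) := by gcongr
      _ = 2 * Z * (|ζ| * L) := by ring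
      _ ≤ 2 * Z * (1 / 4) := mul_le_mul_of_nonneg_left hζ (by positivity)
      _ = Z / 2 := by ring
  have h3 := (abs_le.1 h1).1
  have h4 := (abs_le.1 h2).2
  have h5 : -Z - κ * ζ ^ 2 + 2 * s * ζ * K1 ≤ -(Z * (31 / 64)) := by linarith
  have h6 : 0 < d * a * p := by positivity
  calc d * a * p * (-Z - κ * ζ ^ 2 + 2 * s * ζ * K1) ≤ d * a * p * (-(Z * (31 / 64))) :=
        mul_le_mul_of_nonneg_left h5 h6.le
    _ = _ := by ring

/-- pointwise estimate for the second part -/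
theorem second_part {p s Z l K0 L : ℝ} (hL : 0 < L) (hp : 0 < p) (hp1 : p ≤ 1)
    (hs0 : 0 ≤ s) (hs1 : s ≤ 1) (hsp : s * p ≤ 1 / 4) (hZ : 0 ≤ Z) (hl : |l| ≤ 1 / 4)
    (hl2 : l ^ 2 ≤ L ^ 2 * Z) (hK : |K0| ≤ L ^ 2 * Z) (hLZ : L ^ 2 * Z ≤ 1 / 16) :
    (Real.exp (-(p * l)) * (1 + s * p * K0) - 1) ^ 2 ≤ 9 * p ^ 2 * (L ^ 2 * Z) := by
  have h1 : |-(p * l)| ≤ 1 := by
    rw [abs_neg, abs_mul, abs_of_pos hp]
    calc p * |l| ≤ 1 * (1 / 4) := by gcongr
      _ ≤ 1 := by norm_num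
  have h2 : |Real.exp (-(p * l)) - 1| ≤ 2 * (p * |l|) := by
    have := Real.abs_exp_sub_one_le h1
    rwa [abs_neg, abs_mul, abs_of_pos hp] at this
  have h3 : |s * p * K0| ≤ p * |K0| := by
    rw [abs_mul, abs_mul, abs_of_nonneg hs0, abs_of_pos hp]
    calc s * p * |K0| ≤ 1 * p * |K0| := by gcongr
      _ = _ := by ring
  have h4 : |s * p * K0| ≤ 1 / 64 := by
    rw [abs_mul, abs_of_nonneg (mul_nonneg hs0 hp.le)]
    calc s * p * |K0| ≤ 1 / 4 * (1 / 16) := by gcongr; exact hK.trans hLZ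
      _ = _ := by ring
  have h5 : |Real.exp (-(p * l)) * (1 + s * p * K0) - 1| ≤
      2 * (p * |l|) * (65 / 64) + p * |K0| := by
    have e : Real.exp (-(p * l)) * (1 + s * p * K0) - 1 =
        (Real.exp (-(p * l)) - 1) * (1 + s * p * K0) + s * p * K0 := by ring
    rw [e]
    refine (abs_add_le _ _).trans (add_le_add ?_ h3)
    rw [abs_mul]
    have h6 : |1 + s * p * K0| ≤ 65 / 64 := by
      have := abs_add_le 1 (s * p * K0)
      rw [abs_one] at this
      linarith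
    exact mul_le_mul h2 h6 (abs_nonneg _) (by positivity)
  have h7 : (Real.exp (-(p * l)) * (1 + s * p * K0) - 1) ^ 2 ≤
      (2 * (p * |l|) * (65 / 64) + p * |K0|) ^ 2 := by
    rw [← sq_abs]
    exact pow_le_pow_left₀ (abs_nonneg _) h5 2
  have h8 : |K0| ^ 2 ≤ L ^ 2 * Z / 16 := by
    calc |K0| ^ 2 = |K0| * |K0| := by ring
      _ ≤ (L ^ 2 * Z) * (1 / 16) := mul_le_mul hK (hK.trans hLZ) (abs_nonneg _) (by positivity)
      _ = _ := by ring
  have h9 : |l| ^ 2 ≤ L ^ 2 * Z := by rw [sq_abs]; exact hl2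
  have h10 : (2 * (p * |l|) * (65 / 64) + p * |K0|) ^ 2 ≤
      2 * (2 * (p * |l|) * (65 / 64)) ^ 2 + 2 * (p * |K0|) ^ 2 := by
    nlinarith [sq_nonneg (2 * (p * |l|) * (65 / 64) - p * |K0|)]
  have h11 : 2 * (2 * (p * |l|) * (65 / 64)) ^ 2 + 2 * (p * |K0|) ^ 2 =
      p ^ 2 * (8 * (65 / 64) ^ 2 * |l| ^ 2 + 2 * |K0| ^ 2) := by ring
  have h12 : 8 * (65 / 64) ^ 2 * |l| ^ 2 + 2 * |K0| ^ 2 ≤ 9 * (L ^ 2 * Z) := by
    nlinarith [mul_nonneg (sq_nonneg L) hZ]
  calc _ ≤ _ := h7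
    _ ≤ _ := h10
    _ = _ := h11
    _ ≤ p ^ 2 * (9 * (L ^ 2 * Z)) := mul_le_mul_of_nonneg_left h12 (by positivity)
    _ = _ := by ring

theorem weight_of_bounds {L : ℝ} {m : ℝ → ℝ} {d A : ℝ} (hL : 0 < L)
    (hm : ContinuousOn m (Icc 0 L)) (hd : 0 < d) {θ θ' θ'' : ℝ → ℝ}
    (hθ : Steady L m d θ θ' θ'') (hA : ∀ x ∈ Icc 0 L, θ x ≤ A)
    (hζ : ∀ x ∈ Icc 0 L, |θ' x / θ x| * L ≤ 1 / 4) (hAd : 25 * A * L ^ 2 ≤ d)
    (hpos : 0 < ∫ x in (0)..L, (θ' x / θ x) ^ 2) :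
    ∀ d', d < d' → ∃ φ φ' φ'' : ℝ → ℝ, Weight L m θ d' φ φ' φ'' := by
  have h0m : (0 : ℝ) ∈ Icc 0 L := ⟨le_refl 0, hL.le⟩
  have hLm : L ∈ Icc 0 L := ⟨hL.le, le_refl L⟩
  have hc0 := st_c0 hθ
  have hc1 := st_c1 hθ
  have hc2 := st_c2 hθ hm hd
  have hζd := st_zeta hθ
  set ζ : ℝ → ℝ := fun x => θ' x / θ x with hζdef
  have hζc : ContinuousOn ζ (Icc 0 L) := DerivOn.cont hζd
  have hζ2c : ContinuousOn (fun x => ζ x ^ 2) (Icc 0 L) := hζc.pow 2
  set I : ℝ := ∫ x in (0)..L, ζ x ^ 2 with hI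
  set Z : ℝ := I / L with hZ
  have hZpos : 0 < Z := div_pos hpos hL
  have hIZ : I = L * Z := by rw [hZ]; field_simp
  -- primitives
  obtain ⟨F, hF, hF0⟩ := exists_prim hL hζ2c
  have hFL : F L = I := by
    have := ftc hF hζ2c (le_refl 0) hL.le (le_refl L)
    rw [hF0, sub_zero] at this
    exact this.symm
  have hFmono : ∀ x ∈ Icc 0 L, 0 ≤ F x ∧ F x ≤ I := by
    intro x hx
    have h1 := ftc hF hζ2c (le_refl 0) hx.1 hx.2
    have h2 := ftc hF hζ2c hx.1 hx.2 (le_refl L)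
    have h3 : 0 ≤ ∫ z in (0)..x, ζ z ^ 2 :=
      intervalIntegral.integral_nonneg hx.1 fun z _ => sq_nonneg _
    have h4 : 0 ≤ ∫ z in x..L, ζ z ^ 2 :=
      intervalIntegral.integral_nonneg hx.2 fun z _ => sq_nonneg _
    rw [hF0] at h1
    rw [hFL] at h2
    constructor <;> linarith
  set K1 : ℝ → ℝ := fun x => F x - Z * x with hK1def
  have hK1 : DerivOn L K1 (fun x => ζ x ^ 2 - Z) := by
    intro x hx
    have h1 : HasDerivWithinAt (fun x : ℝ => Z * x) Z (Icc 0 L) x := by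
      simpa using ((hasDerivAt_id x).const_mul Z).hasDerivWithinAt
    exact (hF x hx).sub h1
  have hK1c := DerivOn.cont hK1
  have hK10 : K1 0 = 0 := by simp [hK1def, hF0]
  have hK1L : K1 L = 0 := by
    simp only [hK1def]; rw [hFL, hIZ]; ring
  have hK1b : ∀ x ∈ Icc 0 L, |K1 x| ≤ L * Z := by
    intro x hx
    have h1 := hFmono x hx
    have h2 : 0 ≤ Z * x := mul_nonneg hZpos.le hx.1
    have h3 : Z * x ≤ L * Z := by nlinarith [hx.2]
    rw [hIZ] at h1
    rw [abs_le]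
    constructor
    · simp only [hK1def]; linarith
    · simp only [hK1def]; linarith
  obtain ⟨K0, hK0, hK00⟩ := exists_prim hL hK1c
  have hK0c := DerivOn.cont hK0
  have hK0b : ∀ x ∈ Icc 0 L, |K0 x| ≤ L ^ 2 * Z := by
    intro x hx
    have := abs_le_of_zero hK0 hK1c hK00 hL hK1b hx
    calc |K0 x| ≤ L * Z * L := this
      _ = _ := by ring
  -- logarithm
  set l : ℝ → ℝ := fun x => Real.log (θ x) - Real.log (θ 0) with hldef
  have hl : DerivOn L l ζ := by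
    intro x hx
    exact ((hθ.d1 x hx).log (hθ.pos x hx).ne').sub_const _
  have hl0 : l 0 = 0 := by simp [hldef]
  have hlb : ∀ x ∈ Icc 0 L, |l x| ≤ 1 / 4 := by
    intro x hx
    have h1 : ∀ z ∈ Icc 0 L, |ζ z| ≤ 1 / 4 / L := fun z hz => by
      rw [le_div_iff₀ hL]; exact hζ z hz
    have := abs_le_of_zero hl hζc hl0 hL h1 hx
    calc |l x| ≤ 1 / 4 / L * L := this
      _ = 1 / 4 := by field_simp
  have hl2 : ∀ x ∈ Icc 0 L, l x ^ 2 ≤ L ^ 2 * Z := by
    intro x hx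
    rcases eq_or_ne (l x) 0 with h | h
    · rw [h, zero_pow two_ne_zero]; positivity
    have hlx : 0 < |l x| := abs_pos.2 h
    have h1 := osc_le hL (lam := |l x| / I) (div_pos hlx hpos) hl hζc (le_refl I) h0m hx
    rw [hl0, sub_zero, sub_zero, abs_of_nonneg hx.1] at h1
    have h2 : |l x| / I * I = |l x| := by field_simp
    have h3 : x / (|l x| / I) ≤ L * I / |l x| := by
      rw [div_div_eq_mul_div]
      gcongr
      exact hx.2
    rw [h2] at h1
    have h4 : |l x| ≤ L * I / |l x| := by linarith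
    rw [le_div_iff₀ hlx] at h4
    calc l x ^ 2 = |l x| * |l x| := by rw [← sq_abs]; ring
      _ ≤ L * I := h4
      _ = L ^ 2 * Z := by rw [hIZ]; ring
  have hLZ : L ^ 2 * Z ≤ 1 / 16 := by
    have h1 : I ≤ ∫ x in (0)..L, (1 / 4 / L) ^ 2 := by
      refine intervalIntegral.integral_mono_on hL.le (intble hζ2c h0m hLm)
        intervalIntegrable_const fun x hx => ?_
      rw [← sq_abs (ζ x)]
      refine pow_le_pow_left₀ (abs_nonneg _) ?_ 2
      rw [le_div_iff₀ hL]; exact hζ x hx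
    rw [intervalIntegral.integral_const, smul_eq_mul, sub_zero] at h1
    calc L ^ 2 * Z = L * I := by rw [hIZ]; ring
      _ ≤ L * (L * (1 / 4 / L) ^ 2) := mul_le_mul_of_nonneg_left h1 hL.le
      _ = 1 / 16 := by field_simp; norm_num
  intro d' hd'
  have hd'0 : 0 < d' := hd.trans hd'
  set s : ℝ := d / d' with hs
  have hs0 : 0 < s := div_pos hd hd'0
  have hs1 : s < 1 := by rw [hs, div_lt_one hd'0]; exact hd'
  set p : ℝ := 1 - s with hp
  have hp0 : 0 < p := by rw [hp]; linarith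
  have hp1 : p ≤ 1 := by rw [hp]; linarith
  have hsp : s * p ≤ 1 / 4 := by rw [hp]; nlinarith [sq_nonneg (s - 1 / 2)]
  set η : ℝ → ℝ := fun x => Real.exp (-(p * l x)) with hη
  have hηd : DerivOn L η (fun x => η x * (-(p * ζ x))) := by
    intro x hx
    exact ((hl x hx).const_mul p).neg.exp
  have hηpos : ∀ x, 0 < η x := fun x => Real.exp_pos _
  have hθη : DerivOn L (fun x => θ x * η x) (fun x => θ x * η x * (s * ζ x)) := by
    intro x hx
    refine ((hθ.d1 x hx).mul (hηd x hx)).congr_deriv ?_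
    have hne := (hθ.pos x hx).ne'
    simp only [hζdef, hp]
    field_simp
    ring
  have hκ : ∀ x ∈ Icc 0 L, |s * p * K0 x| ≤ 1 / 64 := by
    intro x hx
    rw [abs_mul, abs_of_pos (mul_pos hs0 hp0)]
    calc s * p * |K0 x| ≤ 1 / 4 * (1 / 16) := by
          gcongr
          exact (hK0b x hx).trans hLZ
      _ = _ := by ring
  refine ⟨fun x => θ x * η x * (1 + s * p * K0 x),
    fun x => θ x * η x * (s * ζ x * (1 + s * p * K0 x) + s * p * K1 x),
    fun x => θ x * η x * (s ^ 2 * ζ x ^ 2 * (1 + s * p * K0 x)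
      + s * (θ'' x / θ x - ζ x ^ 2) * (1 + s * p * K0 x)
        + 2 * s ^ 2 * p * ζ x * K1 x + s * p * (ζ x ^ 2 - Z)), ?_, ?_, ?_, ?_, ?_, ?_, ?_⟩
  · intro x hx
    have := (abs_le.1 (hκ x hx)).1
    exact mul_pos (mul_pos (hθ.pos x hx) (hηpos x)) (by linarith)
  · intro x hx
    refine ((hθη x hx).mul (((hK0 x hx).const_mul (s * p)).const_add 1)).congr_deriv ?_
    ring
  · intro x hx
    refine ((hθη x hx).mul ((((hζd x hx).const_mul s).mul
      (((hK0 x hx).const_mul (s * p)).const_add 1)).add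
        ((hK1 x hx).const_mul (s * p)))).congr_deriv ?_
    simp only [Pi.add_apply, Pi.mul_apply, hζdef]
    ring
  · have e1 : ContinuousOn η (Icc 0 L) := DerivOn.cont hηd
    have e2 : ContinuousOn (fun x => 1 + s * p * K0 x) (Icc 0 L) :=
      continuousOn_const.add (continuousOn_const.mul hK0c)
    have e3 : ContinuousOn (fun x => θ'' x / θ x) (Icc 0 L) :=
      hc2.div hc0 fun x hx => (hθ.pos x hx).ne'
    exact (hc0.mul e1).mul (((((continuousOn_const.mul hζ2c).mul e2).add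
      ((continuousOn_const.mul (e3.sub hζ2c)).mul e2)).add
        ((continuousOn_const.mul hζc).mul hK1c)).add
          (continuousOn_const.mul (hζ2c.sub continuousOn_const)))
  · have : ζ 0 = 0 := by simp [hζdef, hθ.b0]
    simp [this, hK10]
  · have : ζ L = 0 := by simp [hζdef, hθ.bL]
    simp [this, hK1L]
  · intro x hx
    have hθx := hθ.pos x hx
    have hκx := (abs_le.1 (hκ x hx)).1
    rw [weight_identity (η := η x) (ζ := ζ x) (κ := s * p * K0 x) (K1 := K1 x) (Z := Z)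
      hθx.ne' hd.ne' hd'0.ne' hs hp (hθ.eq x hx)]
    have hζx : |ζ x| * L ≤ 1 / 4 := hζ x hx
    have h1 := first_part (d := d) (a := θ x * η x) (p := p) (s := s) (Z := Z)
      (κ := s * p * K0 x) (ζ := ζ x) (K1 := K1 x) hL hd (mul_pos hθx (hηpos x)) hp0 hs0.le
      hs1.le hZpos (by
        rw [abs_mul, abs_of_pos (mul_pos hs0 hp0)]
        calc s * p * |K0 x| ≤ 1 / 4 * (L ^ 2 * Z) := by
              gcongr
              exact hK0b x hx
          _ = _ := by ring) hζx (hK1b x hx)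
    have h2 := second_part (p := p) (s := s) (Z := Z) (l := l x) (K0 := K0 x) hL hp0 hp1 hs0.le
      hs1.le hsp hZpos.le (hlb x hx) (hl2 x hx) (hK0b x hx) hLZ
    have h3 := sq_sqrt_sub_le (y := η x * (1 + s * p * K0 x)) hθx
      (mul_nonneg (hηpos x).le (by linarith))
    have e4 : θ x * η x * (1 + s * p * K0 x) = θ x * (η x * (1 + s * p * K0 x)) := by ring
    rw [e4]
    have h4 : 3 / 4 ≤ η x := by
      have h5 := Real.add_one_le_exp (-(p * l x))
      have h6 : p * l x ≤ 1 / 4 := by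
        calc p * l x ≤ p * |l x| := mul_le_mul_of_nonneg_left (le_abs_self _) hp0.le
          _ ≤ 1 * (1 / 4) := by gcongr; exact hlb x hx
          _ = _ := by ring
      simp only [hη]
      linarith
    have h7 : θ x ^ 2 * (η x * (1 + s * p * K0 x) - 1) ^ 2 ≤
        θ x * A * (9 * p * (L ^ 2 * Z)) := by
      have h8 : θ x ^ 2 ≤ θ x * A := by nlinarith [hA x hx]
      have h9 : (η x * (1 + s * p * K0 x) - 1) ^ 2 ≤ 9 * p * (L ^ 2 * Z) := by
        refine h2.trans ?_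
        have : p ^ 2 ≤ p := by nlinarith
        have h10 : 0 ≤ L ^ 2 * Z := by positivity
        nlinarith
      have h11 : 0 ≤ θ x * A := by
        have := (hθ.pos x hx).le.trans (hA x hx)
        positivity
      exact mul_le_mul h8 h9 (sq_nonneg _) h11
    have h12 : 93 / 256 * d * (θ x * p * Z) ≤ d * (θ x * η x) * p * Z * (31 / 64) := by
      have h13 : 0 ≤ d * θ x * p * Z * (31 / 64) := by positivity
      calc 93 / 256 * d * (θ x * p * Z) = d * θ x * p * Z * (31 / 64) * (3 / 4) := by ring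
        _ ≤ d * θ x * p * Z * (31 / 64) * η x := mul_le_mul_of_nonneg_left h4 h13
        _ = _ := by ring
    have hApos : 0 < A := hθx.trans_le (hA x hx)
    have h14 : 0 < θ x * p * Z := by positivity
    have h15 : 9 * A * L ^ 2 < 93 / 256 * d := by
      have : 0 < A * L ^ 2 := by positivity
      nlinarith
    have h16 := mul_lt_mul_of_pos_right h15 h14
    nlinarith

end Pool.Agent.Lib.MP_4fbe7c_an.SD
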