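import Pool.Agent.Lib.MP_4fbe7c_an.SD.H95.Tools
import Pool.Agent.Lib.MP_4fbe7c_an.SD.Cmp
import Pool.Agent.Lib.MP_4fbe7c_an.SD.WExpl

set_option autoImplicit false

open Set MeasureTheory intervalIntegral

namespace Pool.Agent.Lib.MP_4fbe7c_an.SD

open Pool.Agent.Lib.MP_4fbe7c_an.SD.H95

/-- The steady state is at most the maximum of `m`. -/
theorem steady_le {L : ℝ} {m : ℝ → ℝ} {d M : ℝ} (hL : 0 < L) (hd : 0 < d)
    (hM : ∀ x ∈ Icc 0 L, m x ≤ M) {θ θ' θ'' : ℝ → ℝ} (hθ : Steady L m d θ θ' θ'') :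
    ∀ x ∈ Icc 0 L, θ x ≤ M := by
  have h0m : (0 : ℝ) ∈ Icc 0 L := ⟨le_refl 0, hL.le⟩
  obtain ⟨x0, hx0, hmax⟩ := isCompact_Icc.exists_isMaxOn ⟨0, h0m⟩ (st_c0 hθ)
  have h1 := second_deriv_nonpos hL hθ.d1 hθ.b0 hθ.bL hx0 (fun x hx => hmax hx) (hθ.d2 x0 hx0)
  have h2 := hθ.eq x0 hx0
  have h3 : d * θ'' x0 ≤ 0 := mul_nonpos_of_nonneg_of_nonpos hd.le h1
  have h4 : 0 ≤ θ x0 * (m x0 - θ x0) := by linarith
  have h5 : 0 ≤ m x0 - θ x0 := nonneg_of_mul_nonneg_right h4 (hθ.pos x0 hx0)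
  intro x hx
  have h6 : θ x ≤ θ x0 := hmax hx
  linarith [hM x0 hx0]

/-- The maximum principle for `ζ = θ'/θ`: `d ζ² ≤ M - m₀` if `m₀ ≤ m ≤ M`. -/
theorem zeta_sq_le {L : ℝ} {m : ℝ → ℝ} {d M m₀ : ℝ} (hL : 0 < L) (hd : 0 < d)
    (hM : ∀ x ∈ Icc 0 L, m x ≤ M) (hm₀ : ∀ x ∈ Icc 0 L, m₀ ≤ m x)
    {θ θ' θ'' : ℝ → ℝ} (hθ : Steady L m d θ θ' θ'') :
    ∀ x ∈ Icc 0 L, d * (θ' x / θ x) ^ 2 ≤ M - m₀ := by
  have h0m : (0 : ℝ) ∈ Icc 0 L := ⟨le_refl 0, hL.le⟩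
  have hζ := st_zeta hθ
  have hζc := DerivOn.cont hζ
  have hζ2c : ContinuousOn (fun x => (θ' x / θ x) ^ 2) (Icc 0 L) := hζc.pow 2
  obtain ⟨x0, hx0, hmax⟩ := isCompact_Icc.exists_isMaxOn ⟨0, h0m⟩ hζ2c
  have hkey : d * (θ' x0 / θ x0) ^ 2 ≤ M - m₀ := by
    rcases eq_or_ne (θ' x0 / θ x0) 0 with h | h
    · rw [h, zero_pow two_ne_zero, mul_zero]
      linarith [hM 0 h0m, hm₀ 0 h0m]
    · have hx0' : x0 ∈ Ioo 0 L := by
        refine ⟨lt_of_le_of_ne hx0.1 fun e => ?_, lt_of_le_of_ne hx0.2 fun e => ?_⟩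
        · exact h (by rw [← e, hθ.b0, zero_div])
        · exact h (by rw [e, hθ.bL, zero_div])
      have hnb : Icc 0 L ∈ nhds x0 := Icc_mem_nhds hx0'.1 hx0'.2
      have h1 : HasDerivAt (fun x => θ' x / θ x) _ x0 := (hζ x0 hx0).hasDerivAt hnb
      have h2 := h1.pow 2
      have h3 : IsLocalMax (fun x => (θ' x / θ x) ^ 2) x0 := hmax.isLocalMax hnb
      have h4 := h3.hasDerivAt_eq_zero h2
      have h5 : θ'' x0 / θ x0 - (θ' x0 / θ x0) ^ 2 = 0 := by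
        have h6 : (2 : ℝ) * (θ' x0 / θ x0) ≠ 0 := mul_ne_zero two_ne_zero h
        have h7 : 2 * (θ' x0 / θ x0) * (θ'' x0 / θ x0 - (θ' x0 / θ x0) ^ 2) = 0 := by
          simpa using h4
        exact (mul_eq_zero.1 h7).resolve_left h6
      have hp := hθ.pos x0 hx0
      have h8 : d * (θ'' x0 / θ x0) = θ x0 - m x0 := by
        have := hθ.eq x0 hx0
        field_simp
        linarith
      have h9 := steady_le hL hd hM hθ x0 hx0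
      have h10 := hm₀ x0 hx0
      have h11 : (θ' x0 / θ x0) ^ 2 = θ'' x0 / θ x0 := by linarith
      rw [h11, h8]
      linarith
  intro x hx
  have h1 : (θ' x / θ x) ^ 2 ≤ (θ' x0 / θ x0) ^ 2 := hmax hx
  exact (mul_le_mul_of_nonneg_left h1 hd.le).trans hkey

/-- `θ'/θ` is not identically zero if `m` is not constant. -/
theorem int_zeta_pos {L : ℝ} {m : ℝ → ℝ} {d : ℝ} (hL : 0 < L)
    (hnc : ∃ x ∈ Icc 0 L, ∃ y ∈ Icc 0 L, m x ≠ m y) {θ θ' θ'' : ℝ → ℝ}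
    (hθ : Steady L m d θ θ' θ'') : 0 < ∫ x in (0)..L, (θ' x / θ x) ^ 2 := by
  by_contra hle
  rw [not_lt] at hle
  have hc : ContinuousOn (fun x => (θ' x / θ x) ^ 2) (Icc 0 L) :=
    ((st_c1 hθ).div (st_c0 hθ) fun x hx => (hθ.pos x hx).ne').pow 2
  have hz := eq_zero_of_integral hL hc (fun x _ => sq_nonneg _) hle
  have hz1 : ∀ x ∈ Icc 0 L, θ' x = 0 := fun x hx => by
    have h1 := hz x hx
    have h2 : θ' x / θ x = 0 := pow_eq_zero_iff (two_ne_zero) |>.mp h1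
    rcases div_eq_zero_iff.1 h2 with h | h
    · exact h
    · exact absurd h (hθ.pos x hx).ne'
  have h3 := int_sq_pos hL hnc hθ
  have h4 : ∫ x in (0)..L, θ' x ^ 2 = ∫ _x in (0)..L, (0:ℝ) := by
    refine intervalIntegral.integral_congr fun x hx => ?_
    rw [uIcc_of_le hL.le] at hx
    simp [hz1 x hx]
  rw [intervalIntegral.integral_zero] at h4
  linarith

/-- Weights for all larger rates, explicit threshold. -/
theorem weight_explicit {L : ℝ} {m : ℝ → ℝ} {d M m₀ : ℝ} (hL : 0 < L)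
    (hm : ContinuousOn m (Icc 0 L)) (hnc : ∃ x ∈ Icc 0 L, ∃ y ∈ Icc 0 L, m x ≠ m y)
    (hM : ∀ x ∈ Icc 0 L, m x ≤ M) (hm₀ : ∀ x ∈ Icc 0 L, m₀ ≤ m x) (hd0 : 0 < d)
    (hd1 : 25 * M * L ^ 2 ≤ d) (hd2 : 16 * (M - m₀) * L ^ 2 ≤ d) {θ θ' θ'' : ℝ → ℝ}
    (hθ : Steady L m d θ θ' θ'') :
    ∀ d', d < d' → ∃ φ φ' φ'' : ℝ → ℝ, Weight L m θ d' φ φ' φ'' := by
  refine weight_of_bounds hL hm hd0 hθ (steady_le hL hd0 hM hθ) (fun x hx => ?_) hd1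
    (int_zeta_pos hL hnc hθ)
  have h1 := zeta_sq_le hL hd0 hM hm₀ hθ x hx
  have h2 : d * (|θ' x / θ x| * L) ^ 2 ≤ d * (1 / 4) ^ 2 := by
    rw [mul_pow, sq_abs]
    calc d * ((θ' x / θ x) ^ 2 * L ^ 2) = d * (θ' x / θ x) ^ 2 * L ^ 2 := by ring
      _ ≤ (M - m₀) * L ^ 2 := mul_le_mul_of_nonneg_right h1 (sq_nonneg L)
      _ ≤ d * (1 / 4) ^ 2 := by linarith
  have h3 : (|θ' x / θ x| * L) ^ 2 ≤ (1 / 4) ^ 2 := le_of_mul_le_mul_left h2 hd0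
  exact (abs_le_of_sq_le_sq' h3 (by norm_num)).2

end Pool.Agent.Lib.MP_4fbe7c_an.SD
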