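import Pool.Agent.Lib.MP_4fbe7c_an.SD.Alg
import Pool.Agent.Lib.MP_4fbe7c_an.SD.Calc
import Pool.Agent.Lib.MP_4fbe7c_an.SD.Apri1

/-!
Module LYAP: the Lyapunov functional decreases.
-/

set_option autoImplicit false

open Set

namespace Pool.Agent.Lib.MP_4fbe7c_an.SD


namespace Lyap

theorem derivOn_continuousOn {L : ℝ} {f f' : ℝ → ℝ} (h : DerivOn L f f') :
    ContinuousOn f (Icc 0 L) := fun x hx => (h x hx).continuousWithinAt

theorem slice_continuousOn {L : ℝ} {g : ℝ → ℝ → ℝ} {A : Set ℝ} {t : ℝ} (ht : t ∈ A)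
    (hc : ContinuousOn (fun p : ℝ × ℝ => g p.1 p.2) (A ×ˢ Icc 0 L)) :
    ContinuousOn (g t) (Icc 0 L) := by
  have h : ContinuousOn (fun x : ℝ => ((t, x) : ℝ × ℝ)) (Icc 0 L) := by fun_prop
  exact hc.comp h fun x hx => ⟨ht, hx⟩

theorem space_continuousOn {L : ℝ} {f : ℝ → ℝ} {A : Set ℝ} (hf : ContinuousOn f (Icc 0 L)) :
    ContinuousOn (fun p : ℝ × ℝ => f p.2) (A ×ˢ Icc 0 L) :=
  hf.comp continuous_snd.continuousOn fun _ hp => hp.2

end Lyap

open Lyap

theorem lyapunov {L : ℝ} {m : ℝ → ℝ} (hL : 0 < L) (hm : ContinuousOn m (Icc 0 L)) {N : ℕ}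
    {d : Fin N → ℝ} (hd : ∀ i, 0 < d i) {u v w : Fin N → ℝ → ℝ → ℝ} (h : Sol L m d u v w)
    (i₀ : Fin N) {θ θ' θ'' : ℝ → ℝ} (hθ : Steady L m (d i₀) θ θ' θ'')
    {φ φ' φ'' : Fin N → ℝ → ℝ} (hφ : ∀ j, j ≠ i₀ → Weight L m θ (d j) (φ j) (φ' j) (φ'' j))
    {σ : ℝ} (hσ : 0 ≤ σ)
    (hneg : ∀ j, j ≠ i₀ → ∀ x ∈ Icc 0 L,
      d j * φ'' j x + (m x - θ x) * φ j x + θ x * (√(φ j x) - √(θ x)) ^ 2 ≤ -σ)
    (hpos : ∀ t, 0 < t → ∀ x ∈ Icc 0 L, 0 < u i₀ t x) :
    ∀ t, 0 < t → ∃ V' : ℝ, HasDerivAt (V L i₀ θ φ u) V' t ∧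
      V' ≤ - ∫ x in (0)..L, (σ * (∑ j ∈ Finset.univ.erase i₀, u j t x)
        + (√(θ x) * u i₀ t x + (∑ j ∈ Finset.univ.erase i₀, √(φ j x) * u j t x)
            - √(θ x) ^ 3) ^ 2) := by
  intro t ht
  have hu0 := nonneg hL hm hd h
  have cθ : ContinuousOn θ (Icc 0 L) := derivOn_continuousOn hθ.d1
  have cθ' : ContinuousOn θ' (Icc 0 L) := derivOn_continuousOn hθ.d2
  have cφ : ∀ j, j ≠ i₀ → ContinuousOn (φ j) (Icc 0 L) := fun j hj => derivOn_continuousOn (hφ j hj).d1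
  have cφ' : ∀ j, j ≠ i₀ → ContinuousOn (φ' j) (Icc 0 L) := fun j hj => derivOn_continuousOn (hφ j hj).d2
  have hd0 : d i₀ ≠ 0 := (hd i₀).ne'
  have cθ'' : ContinuousOn θ'' (Icc 0 L) := by
    have h1 : ContinuousOn (fun x => -(θ x * (m x - θ x)) / d i₀) (Icc 0 L) := by fun_prop
    refine h1.congr fun x hx => ?_
    have h2 := hθ.eq x hx
    show θ'' x = -(θ x * (m x - θ x)) / d i₀
    rw [eq_div_iff hd0]
    linarith
  have cu : ∀ i, ContinuousOn (fun p : ℝ × ℝ => u i p.1 p.2) (Ioi 0 ×ˢ Icc 0 L) := fun i =>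
    (h.cu i).mono (prod_mono Ioi_subset_Ici_self subset_rfl)
  -- the integrand and its time derivative
  let g : ℝ → ℝ → ℝ := fun s x => θ x * u i₀ s x +
    (∑ j ∈ Finset.univ.erase i₀, φ j x * u j s x) - θ x ^ 2 * Real.log (u i₀ s x)
  let ut : Fin N → ℝ → ℝ → ℝ := fun i s x => d i * w i s x + u i s x * (m x - ∑ j, u j s x)
  let gt : ℝ → ℝ → ℝ := fun s x => θ x * ut i₀ s x +
    (∑ j ∈ Finset.univ.erase i₀, φ j x * ut j s x) - θ x ^ 2 * (ut i₀ s x / u i₀ s x)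
  have spθ : ContinuousOn (fun p : ℝ × ℝ => θ p.2) (Ioi 0 ×ˢ Icc 0 L) := space_continuousOn cθ
  have spm : ContinuousOn (fun p : ℝ × ℝ => m p.2) (Ioi 0 ×ˢ Icc 0 L) := space_continuousOn hm
  have cut : ∀ i, ContinuousOn (fun p : ℝ × ℝ => ut i p.1 p.2) (Ioi 0 ×ˢ Icc 0 L) := by
    intro i
    have h1 : ContinuousOn (fun p : ℝ × ℝ => ∑ j, u j p.1 p.2) (Ioi 0 ×ˢ Icc 0 L) :=
      continuousOn_finsetSum _ fun j _ => cu j
    exact ((h.cw i).const_mul (d i)).add ((cu i).mul (spm.sub h1))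
  have hne : ∀ p ∈ (Ioi (0 : ℝ)) ×ˢ (Icc 0 L), u i₀ p.1 p.2 ≠ 0 := fun p hp =>
    (hpos p.1 hp.1 p.2 hp.2).ne'
  have cg : ContinuousOn (fun p : ℝ × ℝ => g p.1 p.2) (Ioi 0 ×ˢ Icc 0 L) := by
    refine ((spθ.mul (cu i₀)).add (continuousOn_finsetSum _ fun j hj => ?_)).sub
      ((spθ.pow 2).mul ((cu i₀).log hne))
    exact (space_continuousOn (cφ j (Finset.ne_of_mem_erase hj))).mul (cu j)
  have cgt : ContinuousOn (fun p : ℝ × ℝ => gt p.1 p.2) (Ioi 0 ×ˢ Icc 0 L) := by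
    refine ((spθ.mul (cut i₀)).add (continuousOn_finsetSum _ fun j hj => ?_)).sub
      ((spθ.pow 2).mul ((cut i₀).div (cu i₀) hne))
    exact (space_continuousOn (cφ j (Finset.ne_of_mem_erase hj))).mul (cut j)
  have hV := hasDerivAt_integral hL cg cgt (fun s hs x hx => by
    have h1 := h.dt i₀ s hs x hx
    have h2 : ∀ j ∈ Finset.univ.erase i₀, HasDerivAt (fun r => φ j x * u j r x)
        (φ j x * ut j s x) s := fun j _ => (h.dt j s hs x hx).const_mul _
    exact ((h1.const_mul (θ x)).add (HasDerivAt.fun_sum h2)).sub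
      ((h1.log (hpos s hs x hx).ne').const_mul (θ x ^ 2))) t ht
  refine ⟨∫ x in (0)..L, gt t x, hV, ?_⟩
  -- the divergence term
  let F : ℝ → ℝ := fun x => d i₀ * (θ x * v i₀ t x - θ' x * u i₀ t x) +
    (∑ j ∈ Finset.univ.erase i₀, d j * (φ j x * v j t x - φ' j x * u j t x)) -
    d i₀ * (θ x ^ 2 * (v i₀ t x / u i₀ t x)) + d i₀ * (θ x * θ' x)
  let F' : ℝ → ℝ := fun x => d i₀ * (θ x * w i₀ t x - θ'' x * u i₀ t x) +
    (∑ j ∈ Finset.univ.erase i₀, d j * (φ j x * w j t x - φ'' j x * u j t x)) -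
    d i₀ * (2 * θ x * θ' x * (v i₀ t x / u i₀ t x) +
      θ x ^ 2 * ((w i₀ t x * u i₀ t x - v i₀ t x ^ 2) / u i₀ t x ^ 2)) +
    d i₀ * (θ' x ^ 2 + θ x * θ'' x)
  have hF : DerivOn L F F' := by
    intro x hx
    have e1 := hθ.d1 x hx
    have e2 := hθ.d2 x hx
    have e3 := h.dx i₀ t ht x hx
    have e4 := h.dxx i₀ t ht x hx
    have hu := (hpos t ht x hx).ne'
    have a1 := ((e1.mul e4).sub (e2.mul e3)).const_mul (d i₀)
    have a2 : ∀ j ∈ Finset.univ.erase i₀, HasDerivWithinAt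
        (fun y => d j * (φ j y * v j t y - φ' j y * u j t y))
        (d j * ((φ' j x * v j t x + φ j x * w j t x) -
          (φ'' j x * u j t x + φ' j x * v j t x))) (Icc 0 L) x := by
      intro j hj
      have hj' := Finset.ne_of_mem_erase hj
      exact ((((hφ j hj').d1 x hx).mul (h.dxx j t ht x hx)).sub
        (((hφ j hj').d2 x hx).mul (h.dx j t ht x hx))).const_mul (d j)
    have a3 := ((e1.pow 2).mul (e4.div e3 hu)).const_mul (d i₀)
    have a4 := (e1.mul e2).const_mul (d i₀)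
    have a5 := ((a1.add (HasDerivWithinAt.fun_sum a2)).sub a3).add a4
    refine a5.congr_deriv ?_
    have hs : ∑ j ∈ Finset.univ.erase i₀, d j * ((φ' j x * v j t x + φ j x * w j t x) -
          (φ'' j x * u j t x + φ' j x * v j t x)) =
        ∑ j ∈ Finset.univ.erase i₀, d j * (φ j x * w j t x - φ'' j x * u j t x) :=
      Finset.sum_congr rfl fun j _ => by ring
    rw [hs]
    simp only [F', Pi.div_apply, Pi.pow_apply]
    push_cast
    ring
  have hF0 : F 0 = 0 := by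
    have h0 : (0 : ℝ) ∈ Icc 0 L := ⟨le_rfl, hL.le⟩
    simp only [F]
    rw [h.b0 i₀ t ht, hθ.b0, Finset.sum_eq_zero]
    · simp
    · intro j hj
      rw [h.b0 j t ht, (hφ j (Finset.ne_of_mem_erase hj)).b0]
      simp
  have hFL : F L = 0 := by
    simp only [F]
    rw [h.bL i₀ t ht, hθ.bL, Finset.sum_eq_zero]
    · simp
    · intro j hj
      rw [h.bL j t ht, (hφ j (Finset.ne_of_mem_erase hj)).bL]
      simp
  have su : ∀ i, ContinuousOn (u i t) (Icc 0 L) := fun i => slice_continuousOn ht (cu i)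
  have sv : ∀ i, ContinuousOn (v i t) (Icc 0 L) := fun i => slice_continuousOn ht (h.cv i)
  have sw : ∀ i, ContinuousOn (w i t) (Icc 0 L) := fun i => slice_continuousOn ht (h.cw i)
  have sne : ∀ x ∈ Icc 0 L, u i₀ t x ≠ 0 := fun x hx => (hpos t ht x hx).ne'
  have cF' : ContinuousOn F' (Icc 0 L) := by
    have s1 : ContinuousOn (fun x => ∑ j ∈ Finset.univ.erase i₀,
        d j * (φ j x * w j t x - φ'' j x * u j t x)) (Icc 0 L) := by
      refine continuousOn_finsetSum _ fun j hj => ?_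
      have hj' := Finset.ne_of_mem_erase hj
      exact (((cφ j hj').mul (sw j)).sub ((hφ j hj').c2.mul (su j))).const_mul (d j)
    have s2 : ContinuousOn (fun x => v i₀ t x / u i₀ t x) (Icc 0 L) := (sv i₀).div (su i₀) sne
    have s3 : ContinuousOn (fun x => (w i₀ t x * u i₀ t x - v i₀ t x ^ 2) / u i₀ t x ^ 2)
        (Icc 0 L) := (((sw i₀).mul (su i₀)).sub ((sv i₀).pow 2)).div ((su i₀).pow 2)
          fun x hx => pow_ne_zero 2 (sne x hx)
    exact (((((cθ.mul (sw i₀)).sub (cθ''.mul (su i₀))).const_mul (d i₀)).add s1).sub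
      (((((cθ.const_mul 2).mul cθ').mul s2).add ((cθ.pow 2).mul s3)).const_mul (d i₀))).add
      (((cθ'.pow 2).add (cθ.mul cθ'')).const_mul (d i₀))
  have hint := integral_deriv hL hF cF'
  rw [hF0, hFL, sub_zero] at hint
  have sgt : ContinuousOn (gt t) (Icc 0 L) := slice_continuousOn ht cgt
  have hII : ∀ f : ℝ → ℝ, ContinuousOn f (Icc 0 L) →
      IntervalIntegrable f MeasureTheory.volume 0 L := by
    intro f hf
    apply ContinuousOn.intervalIntegrable
    rwa [uIcc_of_le hL.le]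
  have e : ∫ x in (0)..L, gt t x = ∫ x in (0)..L, (gt t x - F' x) := by
    rw [intervalIntegral.integral_sub (hII _ sgt) (hII _ cF'), hint, sub_zero]
  rw [e, ← intervalIntegral.integral_neg]
  refine intervalIntegral.integral_mono_on hL.le (hII _ (sgt.sub cF')) (hII _ ?_) ?_
  · have s4 : ContinuousOn (fun x => ∑ j ∈ Finset.univ.erase i₀, u j t x) (Icc 0 L) :=
      continuousOn_finsetSum _ fun j _ => su j
    have s5 : ContinuousOn (fun x => ∑ j ∈ Finset.univ.erase i₀, √(φ j x) * u j t x)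
        (Icc 0 L) := by
      refine continuousOn_finsetSum _ fun j hj => ?_
      exact ((cφ j (Finset.ne_of_mem_erase hj)).sqrt).mul (su j)
    exact ((s4.const_mul σ).add ((((cθ.sqrt.mul (su i₀)).add s5).sub (cθ.sqrt.pow 3)).pow 2)).neg
  · intro x hx
    have hθx := hθ.pos x hx
    have hux := sne x hx
    have hsq : √(θ x) ^ 2 = θ x := Real.sq_sqrt hθx.le
    have P := pointwise i₀ (√(θ x)) (∑ j, u j t x) σ (fun i => u i t x) (fun j => φ j x)
      (fun j => d j * φ'' j x + m x * φ j x) (Real.sqrt_pos.2 hθx) hσ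
      (fun i => hu0 i t ht.le x hx) rfl (fun j hj => (hφ j hj).pos x hx)
      (fun j hj => by
        have := hneg j hj x hx
        rw [hsq]
        linarith)
    have h4 : √(θ x) ^ 4 = θ x ^ 2 := by
      rw [show (4 : ℕ) = 2 * 2 from rfl, pow_mul, hsq]
    rw [h4, hsq] at P
    have E : gt t x - F' x = -(d i₀ * (θ x * (v i₀ t x / u i₀ t x) - θ' x) ^ 2) +
        (θ x * (θ x - ∑ j, u j t x) * u i₀ t x +
          (∑ j ∈ Finset.univ.erase i₀, (d j * φ'' j x + m x * φ j x -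
            φ j x * ∑ j, u j t x) * u j t x) + θ x ^ 2 * ((∑ j, u j t x) - θ x)) := by
      have hs1 : (∑ j ∈ Finset.univ.erase i₀, φ j x * ut j t x) -
          (∑ j ∈ Finset.univ.erase i₀, d j * (φ j x * w j t x - φ'' j x * u j t x)) =
          ∑ j ∈ Finset.univ.erase i₀, (d j * φ'' j x + m x * φ j x -
            φ j x * ∑ j, u j t x) * u j t x := by
        rw [← Finset.sum_sub_distrib]
        refine Finset.sum_congr rfl fun j _ => ?_
        simp only [ut]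
        ring
      rw [← hs1]
      simp only [gt, F', ut]
      have hθeq : d i₀ * θ'' x = -(θ x * (m x - θ x)) := by
        have := hθ.eq x hx
        linarith
      generalize (∑ j, u j t x) = U
      generalize (∑ j ∈ Finset.univ.erase i₀, φ j x * (d j * w j t x + u j t x * (m x - U))) = A
      generalize (∑ j ∈ Finset.univ.erase i₀, d j * (φ j x * w j t x - φ'' j x * u j t x)) = B
      field_simp
      have : θ'' x = -(θ x * (m x - θ x)) / d i₀ := by
        rw [eq_div_iff hd0]; linarith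
      rw [this]
      field_simp
      ring
    rw [E]
    have hsqn : 0 ≤ d i₀ * (θ x * (v i₀ t x / u i₀ t x) - θ' x) ^ 2 := by
      have := (hd i₀).le
      positivity
    linarith

end Pool.Agent.Lib.MP_4fbe7c_an.SD
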