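import Pool.Agent.Lib.MP_4fbe7c_an.SD.Mass

/-!
Module LOGG (helper96): a time at which the logarithmic gradient is bounded.
-/

set_option autoImplicit false

open Set Filter Topology

namespace Pool.Agent.Lib.MP_4fbe7c_an.SD

/-- Oscillation is bounded by the gradient. -/
theorem osc_le_log {L : ℝ} (hL : 0 < L) {g g' : ℝ → ℝ} (h : DerivOn L g g')
    (hc : ContinuousOn g' (Icc 0 L)) {lam : ℝ} (hlam : 0 < lam) {x y : ℝ} (hx : x ∈ Icc 0 L)
    (hy : y ∈ Icc 0 L) :
    |g y - g x| ≤ (lam * (∫ z in (0)..L, g' z ^ 2) + L / lam) / 2 := by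
  wlog hxy : x ≤ y generalizing x y
  · rw [abs_sub_comm]; exact this hy hx (le_of_not_ge hxy)
  have hsub : Icc x y ⊆ Icc 0 L := Icc_subset_Icc hx.1 hy.2
  have hcg : ContinuousOn g (Icc x y) := fun z hz => ((h z (hsub hz)).continuousWithinAt).mono hsub
  have hcg' : ContinuousOn g' (Icc x y) := hc.mono hsub
  have h1 : ∫ z in x..y, g' z = g y - g x := by
    apply intervalIntegral.integral_eq_sub_of_hasDerivAt_of_le hxy hcg
    · intro z hz
      have hz0 : z ∈ Icc 0 L := hsub ⟨hz.1.le, hz.2.le⟩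
      exact (h z hz0).hasDerivAt (Icc_mem_nhds (lt_of_le_of_lt hx.1 hz.1) (lt_of_lt_of_le hz.2 hy.2))
    · exact hcg'.intervalIntegrable_of_Icc hxy
  have hq : ContinuousOn (fun z => (lam * g' z ^ 2 + 1 / lam) / 2) (Icc 0 L) :=
    ((continuousOn_const.mul (hc.pow 2)).add continuousOn_const).div_const 2
  have h2 : |∫ z in x..y, g' z| ≤ ∫ z in x..y, (lam * g' z ^ 2 + 1 / lam) / 2 := by
    rw [← Real.norm_eq_abs]
    apply (intervalIntegral.norm_integral_le_integral_norm hxy).trans
    apply intervalIntegral.integral_mono_on hxy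
    · exact hcg'.norm.intervalIntegrable_of_Icc hxy
    · exact (hq.mono hsub).intervalIntegrable_of_Icc hxy
    · intro z hz
      rw [Real.norm_eq_abs, le_div_iff₀ (by norm_num : (0 : ℝ) < 2)]
      have e1 : lam * g' z ^ 2 + 1 / lam - |g' z| * 2 = (lam * |g' z| - 1) ^ 2 / lam := by
        rw [← sq_abs (g' z)]; field_simp; ring
      have e2 : 0 ≤ (lam * |g' z| - 1) ^ 2 / lam := by positivity
      linarith
  have h3 : ∫ z in x..y, (lam * g' z ^ 2 + 1 / lam) / 2
      ≤ ∫ z in (0)..L, (lam * g' z ^ 2 + 1 / lam) / 2 := by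
    apply intervalIntegral.integral_mono_interval hx.1 hxy hy.2
    · exact Filter.Eventually.of_forall fun z => by positivity
    · exact hq.intervalIntegrable_of_Icc hL.le
  have h4 : ∫ z in (0)..L, (lam * g' z ^ 2 + 1 / lam) / 2
      = (lam * (∫ z in (0)..L, g' z ^ 2) + L / lam) / 2 := by
    rw [intervalIntegral.integral_div, intervalIntegral.integral_add,
      intervalIntegral.integral_const_mul, intervalIntegral.integral_const]
    · simp only [sub_zero, smul_eq_mul]
      ring
    · exact (continuousOn_const.mul (hc.pow 2)).intervalIntegrable_of_Icc hL.le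
    · exact continuousOn_const.intervalIntegrable_of_Icc hL.le
  rw [← h1, ← h4]
  exact h2.trans h3

/-- A differential inequality which cannot hold on a long interval. -/
theorem no_long_log {Q Q' : ℝ → ℝ} {a b c lam : ℝ} (hab : a ≤ b) (hc : 0 < c)
    (hd : ∀ t ∈ Icc a b, HasDerivAt Q (Q' t) t)
    (hq : ∀ t ∈ Icc a b, Q' t ≤ -lam * (c ^ 2 + Q t ^ 2)) (hl : Real.pi ≤ lam * c * (b - a)) :
    False := by
  have hanti : AntitoneOn (fun t => Real.arctan (Q t / c) + lam * c * t) (Icc a b) := by
    have hD : ∀ t ∈ Icc a b, HasDerivAt (fun t => Real.arctan (Q t / c) + lam * c * t)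
        (1 / (1 + (Q t / c) ^ 2) * (Q' t / c) + lam * c * 1) t := fun t ht =>
      (((hd t ht).div_const c).arctan).add ((hasDerivAt_id t).const_mul (lam * c))
    apply antitoneOn_of_deriv_nonpos (convex_Icc _ _)
    · exact fun t ht => (hD t ht).continuousAt.continuousWithinAt
    · exact fun t ht => (hD t (interior_subset ht)).differentiableAt.differentiableWithinAt
    · intro t ht
      rw [(hD t (interior_subset ht)).deriv]
      have h1 := hq t (interior_subset ht)
      have h2 : 0 < c ^ 2 + Q t ^ 2 := by positivity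
      have e1 : 1 / (1 + (Q t / c) ^ 2) * (Q' t / c) + lam * c * 1
          = c * (Q' t + lam * (c ^ 2 + Q t ^ 2)) / (c ^ 2 + Q t ^ 2) := by
        field_simp
      rw [e1]
      apply div_nonpos_of_nonpos_of_nonneg _ h2.le
      apply mul_nonpos_of_nonneg_of_nonpos hc.le
      linarith
  have h1 := hanti (left_mem_Icc.2 hab) (right_mem_Icc.2 hab) hab
  simp only at h1
  have h2 := Real.neg_pi_div_two_lt_arctan (Q b / c)
  have h3 := Real.arctan_lt_pi_div_two (Q a / c)
  nlinarith

theorem log_gradient {L : ℝ} {m : ℝ → ℝ} (hL : 0 < L) (hm : ContinuousOn m (Icc 0 L)) {N : ℕ}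
    {d : Fin N → ℝ} (hd : ∀ i, 0 < d i) {u v w : Fin N → ℝ → ℝ → ℝ} (h : Sol L m d u v w)
    (i : Fin N) (hx : ∃ x ∈ Icc 0 L, 0 < u i 0 x) {a b : ℝ} (ha : 0 < a) (hab : a < b) :
    ∃ W : ℝ, 0 < W ∧ ∀ ε : ℝ, 0 < ε → ε < 1 →
      ∃ s ∈ Ioo a b, ∫ x in (0)..L, (v i s x / (u i s x + ε)) ^ 2 ≤ W := by
  obtain ⟨K, hK0, hK⟩ := h.bdd_rate_log hm b
  obtain ⟨M, hM0, hM⟩ := h.bdd_u_log i b
  obtain ⟨a0, ha0, hmass⟩ := mass_lower hL hm hd h i hx b
  have hnn := nonneg_aux hL hm hd h i
  have hdi := hd i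
  set A : ℝ := -Real.log (a0 / L) with hA
  set B0 : ℝ := Real.log (M + 1) + A with hB0
  set a1 : ℝ := a + (b - a) / 4 with ha1
  set b1 : ℝ := b - (b - a) / 4 with hb1
  have hlen : 0 < b1 - a1 := by rw [ha1, hb1]; linarith
  set c1 : ℝ := 4 * L ^ 2 * Real.pi / (d i * (b1 - a1)) with hc1
  have hc1pos : 0 < c1 := by have := Real.pi_pos; positivity
  set W0 : ℝ := B0 ^ 2 / L + 4 * L * K / d i + c1 ^ 2 / L + 1 with hW0
  have hW0pos : 0 < W0 := by positivity
  refine ⟨W0, hW0pos, ?_⟩
  intro ε hε hε1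
  by_contra hcon
  push Not at hcon
  -- positivity of `u + ε`
  have hup : ∀ t, 0 ≤ t → ∀ x ∈ Icc 0 L, 0 < u i t x + ε := fun t ht x hx' => by
    linarith [hnn t ht x hx']
  -- the functions
  have hcu : ContinuousOn (fun p : ℝ × ℝ => u i p.1 p.2 + ε) (Ioi 0 ×ˢ Icc 0 L) :=
    (h.cuIoi_log i).add continuousOn_const
  have hne : ∀ p ∈ (Ioi (0 : ℝ) ×ˢ Icc (0 : ℝ) L), u i p.1 p.2 + ε ≠ 0 :=
    fun p hp => (hup p.1 (le_of_lt hp.1) p.2 hp.2).ne'
  have hcg : ContinuousOn (fun p : ℝ × ℝ => Real.log (u i p.1 p.2 + ε)) (Ioi 0 ×ˢ Icc 0 L) :=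
    hcu.log hne
  have hcgx : ContinuousOn (fun p : ℝ × ℝ => v i p.1 p.2 / (u i p.1 p.2 + ε))
      (Ioi 0 ×ˢ Icc 0 L) := (h.cv i).div hcu hne
  have hcn : ContinuousOn (fun p : ℝ × ℝ => d i * w i p.1 p.2
      + u i p.1 p.2 * (m p.2 - ∑ j, u j p.1 p.2)) (Ioi 0 ×ˢ Icc 0 L) :=
    (continuousOn_const.mul (h.cw i)).add ((h.cuIoi_log i).mul
      ((h.cont_rate_log hm).mono (prod_mono Ioi_subset_Ici_self subset_rfl)))
  have hcgt : ContinuousOn (fun p : ℝ × ℝ => (d i * w i p.1 p.2
      + u i p.1 p.2 * (m p.2 - ∑ j, u j p.1 p.2)) / (u i p.1 p.2 + ε))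
      (Ioi 0 ×ˢ Icc 0 L) := hcn.div hcu hne
  have hder := hasDerivAt_integral hL (g := fun t x => Real.log (u i t x + ε))
    (gt := fun t x => (d i * w i t x + u i t x * (m x - ∑ j, u j t x)) / (u i t x + ε))
    hcg hcgt (fun t ht x hx' =>
      ((h.dt i t ht x hx').add_const ε).log (hup t (le_of_lt ht) x hx').ne')
  set P : ℝ → ℝ := fun t => ∫ x in (0)..L, Real.log (u i t x + ε) with hP
  set P' : ℝ → ℝ := fun t =>
    ∫ x in (0)..L, (d i * w i t x + u i t x * (m x - ∑ j, u j t x)) / (u i t x + ε) with hP'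
  set W : ℝ → ℝ := fun t => ∫ x in (0)..L, (v i t x / (u i t x + ε)) ^ 2 with hW
  -- space derivatives
  have hgx : ∀ t, 0 < t → DerivOn L (fun x => Real.log (u i t x + ε))
      (fun x => v i t x / (u i t x + ε)) := fun t ht x hx' =>
    ((h.dx i t ht x hx').add_const ε).log (hup t ht.le x hx').ne'
  have hgxx : ∀ t, 0 < t → DerivOn L (fun x => v i t x / (u i t x + ε))
      (fun x => (w i t x * (u i t x + ε) - v i t x * v i t x) / (u i t x + ε) ^ 2) :=
    fun t ht x hx' =>
    (h.dxx i t ht x hx').div ((h.dx i t ht x hx').add_const ε) (hup t ht.le x hx').ne'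
  have hcgx1 : ∀ t, 0 < t → ContinuousOn (fun x => v i t x / (u i t x + ε)) (Icc 0 L) :=
    fun t ht => slice (g := fun t x => v i t x / (u i t x + ε)) hcgx ht
  have hcgxx : ∀ t, 0 < t → ContinuousOn
      (fun x => (w i t x * (u i t x + ε) - v i t x * v i t x) / (u i t x + ε) ^ 2) (Icc 0 L) := by
    intro t ht
    have c1 := slice hcu (g := fun t x => u i t x + ε) ht
    have c2 := slice (h.cv i) ht
    have c3 := slice (h.cw i) ht
    exact ((c3.mul c1).sub (c2.mul c2)).div (c1.pow 2)
      (fun x hx' => pow_ne_zero 2 (hup t ht.le x hx').ne')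
  -- lower bound for `P'`
  have hP1 : ∀ t ∈ Ioo 0 b, d i * W t - K * L ≤ P' t := by
    intro t ht
    have e0 : ∫ x in (0)..L, (w i t x * (u i t x + ε) - v i t x * v i t x) / (u i t x + ε) ^ 2
        = 0 := by
      rw [integral_deriv hL (hgxx t ht.1) (hcgxx t ht.1), h.b0 i t ht.1, h.bL i t ht.1]
      simp
    have e1 : d i * W t - K * L = ∫ x in (0)..L,
        (d i * ((w i t x * (u i t x + ε) - v i t x * v i t x) / (u i t x + ε) ^ 2)
          + d i * (v i t x / (u i t x + ε)) ^ 2 - K) := by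
      rw [intervalIntegral.integral_sub, intervalIntegral.integral_add,
        intervalIntegral.integral_const_mul, intervalIntegral.integral_const_mul, e0,
        intervalIntegral.integral_const]
      · simp only [sub_zero, smul_eq_mul, hW]
        ring
      · exact (continuousOn_const.mul (hcgxx t ht.1)).intervalIntegrable_of_Icc hL.le
      · exact (continuousOn_const.mul ((hcgx1 t ht.1).pow 2)).intervalIntegrable_of_Icc hL.le
      · exact ((continuousOn_const.mul (hcgxx t ht.1)).add
          (continuousOn_const.mul ((hcgx1 t ht.1).pow 2))).intervalIntegrable_of_Icc hL.le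
      · exact continuousOn_const.intervalIntegrable_of_Icc hL.le
    rw [e1, hP']
    apply intervalIntegral.integral_mono_on hL.le
    · exact (((continuousOn_const.mul (hcgxx t ht.1)).add
          (continuousOn_const.mul ((hcgx1 t ht.1).pow 2))).sub
          continuousOn_const).intervalIntegrable_of_Icc hL.le
    · exact (slice (g := fun t x => (d i * w i t x + u i t x * (m x - ∑ j, u j t x))
        / (u i t x + ε)) hcgt ht.1).intervalIntegrable_of_Icc hL.le
    · intro x hx'
      have p1 := hup t ht.1.le x hx'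
      have p2 := hnn t ht.1.le x hx'
      have p3 := (abs_le.1 (hK t ⟨ht.1.le, ht.2.le⟩ x hx')).1
      have e2 : (d i * w i t x + u i t x * (m x - ∑ j, u j t x)) / (u i t x + ε)
          = d i * ((w i t x * (u i t x + ε) - v i t x * v i t x) / (u i t x + ε) ^ 2)
          + d i * (v i t x / (u i t x + ε)) ^ 2
          + u i t x * (m x - ∑ j, u j t x) / (u i t x + ε) := by
        field_simp
        ring
      have e3 : -K ≤ u i t x * (m x - ∑ j, u j t x) / (u i t x + ε) := by
        rw [le_div_iff₀ p1]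
        nlinarith
      linarith
  -- lower bound for `P`
  have hP2 : ∀ t ∈ Ioo 0 b, ∀ lam : ℝ, 0 < lam →
      -L * A - L * ((lam * W t + L / lam) / 2) ≤ P t := by
    intro t ht lam hlam
    -- a point where `u` is large
    obtain ⟨x0, hx0, hux0⟩ := exists_large_log hL (slice (h.cu i) (mem_Ici.2 ht.1.le))
      (hmass t ⟨ht.1.le, ht.2.le⟩)
    have h1 : ∀ x ∈ Icc 0 L, -A - (lam * W t + L / lam) / 2 ≤ Real.log (u i t x + ε) := by
      intro x hx'
      have h2 := osc_le_log hL (hgx t ht.1) (hcgx1 t ht.1) hlam hx0 hx'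
      have h3 := (abs_le.1 h2).1
      have h4 : -A ≤ Real.log (u i t x0 + ε) := by
        rw [hA, neg_neg]
        apply Real.log_le_log (by positivity)
        linarith
      simp only [hW]
      linarith
    have h2 : ∫ x in (0)..L, (-A - (lam * W t + L / lam) / 2) ≤ P t := by
      apply intervalIntegral.integral_mono_on hL.le
      · exact continuousOn_const.intervalIntegrable_of_Icc hL.le
      · exact (slice (g := fun t x => Real.log (u i t x + ε)) hcg
          ht.1).intervalIntegrable_of_Icc hL.le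
      · exact h1
    rw [intervalIntegral.integral_const] at h2
    simp only [sub_zero, smul_eq_mul] at h2
    linarith
  -- upper bound for `P`
  have hP3 : ∀ t ∈ Ioo 0 b, P t ≤ L * Real.log (M + 1) := by
    intro t ht
    have h2 : P t ≤ ∫ x in (0)..L, Real.log (M + 1) := by
      apply intervalIntegral.integral_mono_on hL.le
      · exact (slice (g := fun t x => Real.log (u i t x + ε)) hcg
          ht.1).intervalIntegrable_of_Icc hL.le
      · exact continuousOn_const.intervalIntegrable_of_Icc hL.le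
      · intro x hx'
        apply Real.log_le_log (hup t ht.1.le x hx')
        have := (abs_le.1 (hM t ⟨ht.1.le, ht.2.le⟩ x hx')).2
        linarith
    rw [intervalIntegral.integral_const] at h2
    simpa using h2
  -- the differential inequality for `Q`
  have hsub : ∀ t ∈ Icc a1 b1, t ∈ Ioo a b ∧ t ∈ Ioo 0 b := by
    intro t ht
    have h1 : a < t := by have := ht.1; rw [ha1] at this; linarith
    have h2 : t < b := by have := ht.2; rw [hb1] at this; linarith
    exact ⟨⟨h1, h2⟩, ⟨ha.trans h1, h2⟩⟩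
  refine no_long_log (Q := fun t => -P t / L - A) (Q' := fun t => -P' t / L) (a := a1) (b := b1)
    (c := √(L * W0)) (lam := d i / (4 * L ^ 2)) (by linarith) (by positivity) ?_ ?_ ?_
  · intro t ht
    exact (((hder t (hsub t ht).2.1).neg).div_const L).sub_const A
  · intro t ht
    obtain ⟨ht1, ht2⟩ := hsub t ht
    have hWt : W0 < W t := hcon t ht1
    have hWpos : 0 < W t := hW0pos.trans hWt
    have q1 := hP1 t ht2
    have q3 := hP3 t ht2
    rw [Real.sq_sqrt (by positivity)]
    set Q : ℝ := -P t / L - A with hQ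
    have hPQ : P t = -L * (Q + A) := by rw [hQ]; field_simp; ring
    -- `Q² ≤ L W`
    have hQ2 : Q ^ 2 ≤ L * W t := by
      rcases le_or_gt Q 0 with hQ0 | hQ0
      · have h1 : -B0 ≤ Q := by
          rw [hPQ] at q3
          have : -(Q + A) ≤ Real.log (M + 1) := by
            have := q3
            nlinarith
          rw [hB0]; linarith
        have h2 : Q ^ 2 ≤ B0 ^ 2 := by nlinarith
        have h3 : B0 ^ 2 / L ≤ W0 := by
          rw [hW0]
          have : 0 ≤ 4 * L * K / d i := by positivity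
          have : 0 ≤ c1 ^ 2 / L := by positivity
          linarith
        rw [div_le_iff₀ hL] at h3
        nlinarith
      · have h1 := hP2 t ht2 (Q / W t) (by positivity)
        rw [hPQ] at h1
        have e1 : Q / W t * W t = Q := div_mul_cancel₀ _ hWpos.ne'
        rw [e1] at h1
        have e2 : L / (Q / W t) = L * W t / Q := by field_simp
        rw [e2] at h1
        have h2 : Q ≤ (Q + L * W t / Q) / 2 := by
          have : L * Q ≤ L * ((Q + L * W t / Q) / 2) := by linarith
          exact le_of_mul_le_mul_left this hL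
        have h3 : Q ≤ L * W t / Q := by linarith
        rw [le_div_iff₀ hQ0] at h3
        nlinarith
    have h4 : 4 * L * K / d i ≤ W0 := by
      rw [hW0]
      have : 0 ≤ B0 ^ 2 / L := by positivity
      have : 0 ≤ c1 ^ 2 / L := by positivity
      linarith
    rw [div_le_iff₀ hdi] at h4
    have h5 : d i / (4 * L ^ 2) * (L * W0 + Q ^ 2) ≤ d i / (4 * L ^ 2) * (2 * (L * W t)) := by
      apply mul_le_mul_of_nonneg_left _ (by positivity)
      nlinarith
    have h6 : d i / (4 * L ^ 2) * (2 * (L * W t)) = d i * W t / (2 * L) := by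
      field_simp
      ring
    have h7 : -P' t / L ≤ -(d i * W t - K * L) / L := by
      apply div_le_div_of_nonneg_right _ hL.le
      linarith
    have h8 : -(d i * W t - K * L) / L + d i * W t / (2 * L) = (2 * L * K - d i * W t) / (2 * L) := by
      field_simp
      ring
    have h9 : (2 * L * K - d i * W t) / (2 * L) ≤ 0 := by
      apply div_nonpos_of_nonpos_of_nonneg _ (by positivity)
      nlinarith [mul_nonneg hL.le hK0, mul_lt_mul_of_pos_left hWt hdi]
    show -P' t / L ≤ -(d i / (4 * L ^ 2)) * (L * W0 + Q ^ 2)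
    linarith
  · have h1 : c1 ≤ √(L * W0) := by
      apply Real.le_sqrt_of_sq_le
      rw [hW0]
      have h2 : 0 ≤ 4 * L * K / d i := by positivity
      have h3 : L * (B0 ^ 2 / L + 4 * L * K / d i + c1 ^ 2 / L + 1)
          = B0 ^ 2 + L * (4 * L * K / d i) + c1 ^ 2 + L := by
        field_simp
      rw [h3]
      have : 0 ≤ L * (4 * L * K / d i) := by positivity
      nlinarith [sq_nonneg B0]
    have h2 : Real.pi = d i / (4 * L ^ 2) * c1 * (b1 - a1) := by
      rw [hc1]
      have : b1 - a1 ≠ 0 := hlen.ne'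
      field_simp
    calc Real.pi = d i / (4 * L ^ 2) * c1 * (b1 - a1) := h2
      _ ≤ d i / (4 * L ^ 2) * √(L * W0) * (b1 - a1) := by gcongr

end Pool.Agent.Lib.MP_4fbe7c_an.SD
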