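import Pool.Agent.Lib.MP_4fbe7c_an.SD.H95.Tools
import Pool.Agent.Lib.MP_4fbe7c_an.SD.Cmp

set_option autoImplicit false

open Set MeasureTheory intervalIntegral

namespace Pool.Agent.Lib.MP_4fbe7c_an.SD

open Pool.Agent.Lib.MP_4fbe7c_an.SD.H95

namespace H95

/-- the continuous function `ζ = θ'/θ`. -/
theorem zeta_cont {L : ℝ} {m : ℝ → ℝ} {d : ℝ} {θ θ' θ'' : ℝ → ℝ} (hθ : Steady L m d θ θ' θ'') :
    ContinuousOn (fun x => θ' x / θ x) (Icc 0 L) :=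
  (st_c1 hθ).div (st_c0 hθ) (fun x hx => (hθ.pos x hx).ne')

/-- `d ζ(x) = -∫_0^x (m - θ) - d ∫_0^x ζ²`. -/
theorem zeta_identity {L : ℝ} {m : ℝ → ℝ} (hL : 0 < L) (hm : ContinuousOn m (Icc 0 L)) {d : ℝ}
    (hd : 0 < d) {θ θ' θ'' : ℝ → ℝ} (hθ : Steady L m d θ θ' θ'') {x : ℝ} (hx : x ∈ Icc 0 L) :
    d * (θ' x / θ x) = -(∫ y in (0)..x, (m y - θ y)) - d * ∫ y in (0)..x, (θ' y / θ y) ^ 2 := by
  have h0m : (0 : ℝ) ∈ Icc 0 L := ⟨le_refl 0, hL.le⟩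
  have hc2 := st_c2 hθ hm hd
  have hzc := zeta_cont hθ
  have hzz : ContinuousOn (fun x => (θ' x / θ x) ^ 2) (Icc 0 L) := hzc.pow 2
  have hmt : ContinuousOn (fun x => m x - θ x) (Icc 0 L) := hm.sub (st_c0 hθ)
  have hc3 : ContinuousOn (fun x => θ'' x / θ x - (θ' x / θ x) ^ 2) (Icc 0 L) :=
    (hc2.div (st_c0 hθ) (fun x hx => (hθ.pos x hx).ne')).sub hzz
  have h1 := ftc (st_zeta hθ) hc3 (le_refl 0) hx.1 hx.2
  simp only [hθ.b0, zero_div, sub_zero] at h1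
  have hmt' : ContinuousOn (fun x => -(m x - θ x)) (Icc 0 L) := hmt.neg
  rw [← h1, ← intervalIntegral.integral_const_mul, ← intervalIntegral.integral_const_mul,
    ← intervalIntegral.integral_neg,
    ← intervalIntegral.integral_sub (intble hmt' h0m hx) ((intble hzz h0m hx).const_mul d)]
  apply intervalIntegral.integral_congr
  intro y hy
  have hy' : y ∈ Icc 0 L := by
    rw [uIcc_of_le hx.1] at hy
    exact ⟨hy.1, hy.2.trans hx.2⟩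
  have hp := (hθ.pos y hy').ne'
  have he := hθ.eq y hy'
  have : d * θ'' y = -(θ y * (m y - θ y)) := by linarith
  have h3 : d * (θ'' y / θ y) = -(m y - θ y) := by
    rw [← mul_div_assoc, this]; field_simp
  simp only
  rw [mul_sub, h3]

/-- upper bounds valid for all rates. -/
theorem steady_upper {L : ℝ} {m : ℝ → ℝ} (hL : 0 < L) {M : ℝ}
    (hM : ∀ x ∈ Icc 0 L, |m x| ≤ M) {d : ℝ} (hd : 0 < d) {θ θ' θ'' : ℝ → ℝ}
    (hθ : Steady L m d θ θ' θ'') : ∀ x ∈ Icc 0 L, θ x ≤ M := by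
  have hne : (Icc (0 : ℝ) L).Nonempty := ⟨0, le_refl 0, hL.le⟩
  obtain ⟨x0, hx0, hmax⟩ := isCompact_Icc.exists_isMaxOn hne (st_c0 hθ)
  have h1 : θ'' x0 ≤ 0 := second_deriv_nonpos hL hθ.d1 hθ.b0 hθ.bL hx0 (fun x hx => hmax hx)
    (hθ.d2 x0 hx0)
  have h2 := hθ.eq x0 hx0
  have h3 : 0 ≤ θ x0 * (m x0 - θ x0) := by nlinarith
  have h4 : 0 ≤ m x0 - θ x0 := by
    by_contra hlt
    rw [not_le] at hlt
    nlinarith [hθ.pos x0 hx0]
  intro x hx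
  have h5 : θ x ≤ θ x0 := hmax hx
  have h6 := (abs_le.mp (hM x0 hx0)).2
  linarith

theorem steady_d1 {L : ℝ} {m : ℝ → ℝ} (hL : 0 < L) (hm : ContinuousOn m (Icc 0 L)) {M : ℝ}
    (hM : ∀ x ∈ Icc 0 L, |m x| ≤ M) {d : ℝ} (hd : 0 < d) {θ θ' θ'' : ℝ → ℝ}
    (hθ : Steady L m d θ θ' θ'') : ∀ x ∈ Icc 0 L, |θ' x| ≤ 2 * M ^ 2 * L / d := by
  intro x hx
  have hup := steady_upper hL hM hd hθ
  have h2 : ∀ y ∈ Icc 0 L, |θ'' y| ≤ 2 * M ^ 2 / d := by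
    intro y hy
    have h3 := hθ.pos y hy
    have h4 := hup y hy
    have h5 := hM y hy
    have hM0 : 0 < M := lt_of_lt_of_le h3 h4
    rw [st_eq2 hθ hd y hy, abs_div, abs_of_pos hd, abs_neg, abs_mul, abs_of_pos h3]
    apply div_le_div_of_nonneg_right _ hd.le
    have h6 : |m y - θ y| ≤ 2 * M := by
      rw [abs_le] at h5 ⊢
      constructor <;> linarith [h5.1, h5.2]
    calc θ y * |m y - θ y| ≤ M * (2 * M) := mul_le_mul h4 h6 (abs_nonneg _) hM0.le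
      _ = 2 * M ^ 2 := by ring
  have h7 := abs_le_of_zero hθ.d2 (st_c2 hθ hm hd) hθ.b0 hL h2 hx
  calc |θ' x| ≤ 2 * M ^ 2 / d * L := h7
    _ = 2 * M ^ 2 * L / d := by ring

theorem int_le {L : ℝ} {m : ℝ → ℝ} (hL : 0 < L) (hm : ContinuousOn m (Icc 0 L)) {d : ℝ}
    (hd : 0 < d) {θ θ' θ'' : ℝ → ℝ} (hθ : Steady L m d θ θ' θ'') :
    (∫ x in (0)..L, θ x) = (∫ x in (0)..L, m x) + d * ∫ y in (0)..L, (θ' y / θ y) ^ 2 := by
  have h0m : (0 : ℝ) ∈ Icc 0 L := ⟨le_refl 0, hL.le⟩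
  have hLm : L ∈ Icc 0 L := ⟨hL.le, le_refl L⟩
  have h1 := zeta_identity hL hm hd hθ hLm
  rw [hθ.bL, zero_div, mul_zero, intervalIntegral.integral_sub (intble hm h0m hLm)
    (intble (st_c0 hθ) h0m hLm)] at h1
  linarith

end H95

theorem steady_bounds {L : ℝ} {m : ℝ → ℝ} (hL : 0 < L) (hm : ContinuousOn m (Icc 0 L))
    (hI : 0 < ∫ x in (0)..L, m x) :
    ∃ D c M C : ℝ, 0 < D ∧ 0 < c ∧ 0 < M ∧ 0 < C ∧ ∀ d, D ≤ d → ∀ θ θ' θ'' : ℝ → ℝ,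
      Steady L m d θ θ' θ'' → ∀ x ∈ Icc 0 L, c ≤ θ x ∧ θ x ≤ M ∧ |θ' x| ≤ C / d := by
  obtain ⟨M, hM0, hM⟩ := exists_bound hm
  have h0m : (0 : ℝ) ∈ Icc 0 L := ⟨le_refl 0, hL.le⟩
  have hLm : L ∈ Icc 0 L := ⟨hL.le, le_refl L⟩
  obtain ⟨I, hIdef⟩ : ∃ I : ℝ, I = ∫ x in (0)..L, m x := ⟨_, rfl⟩
  rw [← hIdef] at hI
  obtain ⟨C, hC⟩ : ∃ C : ℝ, C = 2 * M ^ 2 * L := ⟨_, rfl⟩
  have hCpos : 0 < C := by rw [hC]; positivity
  refine ⟨2 * C * L / (I / L), I / L / 2, M, C, by positivity, by positivity, hM0, hCpos, ?_⟩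
  intro d hd θ θ' θ'' hθ
  have hDpos : 0 < 2 * C * L / (I / L) := by positivity
  have hdpos : 0 < d := lt_of_lt_of_le hDpos hd
  have hup := steady_upper hL hM hdpos hθ
  have hd1 := steady_d1 hL hm hM hdpos hθ
  rw [← hC] at hd1
  -- a point with `θ ≥ mean`
  have hex : ∃ x1 ∈ Icc 0 L, I / L ≤ θ x1 := by
    by_contra hcon
    push Not at hcon
    have h1 := int_le hL hm hdpos hθ
    have h2 : 0 ≤ ∫ y in (0)..L, (θ' y / θ y) ^ 2 :=
      intervalIntegral.integral_nonneg hL.le (fun y _ => sq_nonneg _)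
    have h3 : (∫ x in (0)..L, θ x) < ∫ x in (0)..L, (I / L) := by
      apply intervalIntegral.integral_lt_integral_of_continuousOn_of_le_of_exists_lt hL
        (st_c0 hθ) continuousOn_const
      · intro x hx
        exact (hcon x (Ioc_subset_Icc_self hx)).le
      · exact ⟨0, h0m, hcon 0 h0m⟩
    rw [intervalIntegral.integral_const, sub_zero, smul_eq_mul] at h3
    have h4 : L * (I / L) = I := by field_simp
    rw [h4] at h3
    rw [← hIdef] at h1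
    have := mul_nonneg hdpos.le h2
    linarith
  obtain ⟨x1, hx1, hx1'⟩ := hex
  intro x hx
  refine ⟨?_, hup x hx, hd1 x hx⟩
  have h1 := abs_sub_le hθ.d1 (st_c1 hθ) hd1 hx hx1
  have h2 : |x - x1| ≤ L := by
    rw [abs_le]; constructor <;> linarith [hx.1, hx.2, hx1.1, hx1.2]
  have h3 : C / d * |x - x1| ≤ I / L / 2 := by
    have h4 : C / d * |x - x1| ≤ C / d * L := mul_le_mul_of_nonneg_left h2 (by positivity)
    have h5 : C / d * L ≤ I / L / 2 := by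
      rw [div_mul_eq_mul_div, div_le_iff₀ hdpos]
      rw [div_le_iff₀ (by positivity)] at hd
      linarith
    exact h4.trans h5
  have h6 := (abs_le.mp (h1.trans h3)).1
  linarith

end Pool.Agent.Lib.MP_4fbe7c_an.SD
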