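import Pool.Agent.Lib.MP_4fbe7c_an.SD.Base

set_option autoImplicit false

open Set

namespace Pool.Agent.Lib.MP_4fbe7c_an.SD

/-- The pointwise algebraic inequality behind the Lyapunov functional. -/
theorem pointwise {N : ℕ} (i₀ : Fin N) (a U σ : ℝ) (y φ β : Fin N → ℝ) (ha : 0 < a)
    (hσ : 0 ≤ σ) (hy : ∀ i, 0 ≤ y i) (hU : U = ∑ i, y i)
    (hφ : ∀ j, j ≠ i₀ → 0 < φ j)
    (hβ : ∀ j, j ≠ i₀ → β j - a ^ 2 * φ j + a ^ 2 * (√(φ j) - a) ^ 2 ≤ -σ) :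
    a ^ 2 * (a ^ 2 - U) * y i₀ + (∑ j ∈ Finset.univ.erase i₀, (β j - φ j * U) * y j)
      + a ^ 4 * (U - a ^ 2)
    ≤ -σ * (∑ j ∈ Finset.univ.erase i₀, y j)
      - (a * y i₀ + (∑ j ∈ Finset.univ.erase i₀, √(φ j) * y j) - a ^ 3) ^ 2 := by
  classical
  set s : Finset (Fin N) := Finset.univ.erase i₀ with hs
  have hU2 : U = y i₀ + ∑ j ∈ s, y j := by
    rw [hU, hs, Finset.add_sum_erase _ _ (Finset.mem_univ i₀)]
  -- bound for the sum
  have h1 : ∑ j ∈ s, (β j - φ j * U) * y j ≤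
      ∑ j ∈ s, ((-σ + 2 * a ^ 3 * √(φ j) - a ^ 4) * y j - φ j * y j * U) := by
    refine Finset.sum_le_sum fun j hj => ?_
    have hj' : j ≠ i₀ := Finset.ne_of_mem_erase hj
    have h2 := hβ j hj'
    have h3 : √(φ j) ^ 2 = φ j := Real.sq_sqrt (hφ j hj').le
    have h4 : β j ≤ -σ + 2 * a ^ 3 * √(φ j) - a ^ 4 := by
      have : a ^ 2 * (√(φ j) - a) ^ 2 = a ^ 2 * φ j - 2 * a ^ 3 * √(φ j) + a ^ 4 := by
        have h5 : (√(φ j) - a) ^ 2 = √(φ j) ^ 2 - 2 * a * √(φ j) + a ^ 2 := by ring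
        rw [h5, h3]; ring
      linarith
    have := mul_le_mul_of_nonneg_right h4 (hy j)
    nlinarith
  -- Cauchy
  have hC : (a * y i₀ + ∑ j ∈ s, √(φ j) * y j) ^ 2 ≤
      U * (a ^ 2 * y i₀ + ∑ j ∈ s, φ j * y j) := by
    let ψ : Fin N → ℝ := fun j => if j = i₀ then a else √(φ j)
    have e1 : a * y i₀ + ∑ j ∈ s, √(φ j) * y j = ∑ j, √(y j) * (ψ j * √(y j)) := by
      rw [← Finset.add_sum_erase _ _ (Finset.mem_univ i₀)]
      congr 1
      · have : √(y i₀) * √(y i₀) = y i₀ := Real.mul_self_sqrt (hy i₀)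
        simp only [ψ, if_true]
        calc a * y i₀ = a * (√(y i₀) * √(y i₀)) := by rw [this]
          _ = _ := by ring
      · refine Finset.sum_congr rfl fun j hj => ?_
        have hj' : j ≠ i₀ := Finset.ne_of_mem_erase hj
        have : √(y j) * √(y j) = y j := Real.mul_self_sqrt (hy j)
        simp only [ψ, if_neg hj']
        calc √(φ j) * y j = √(φ j) * (√(y j) * √(y j)) := by rw [this]
          _ = _ := by ring
    have e2 : U = ∑ j, √(y j) ^ 2 := by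
      rw [hU]; exact Finset.sum_congr rfl fun j _ => (Real.sq_sqrt (hy j)).symm
    have e3 : a ^ 2 * y i₀ + ∑ j ∈ s, φ j * y j = ∑ j, (ψ j * √(y j)) ^ 2 := by
      rw [← Finset.add_sum_erase _ _ (Finset.mem_univ i₀)]
      congr 1
      · simp only [ψ, if_true]; rw [mul_pow, Real.sq_sqrt (hy i₀)]
      · refine Finset.sum_congr rfl fun j hj => ?_
        have hj' : j ≠ i₀ := Finset.ne_of_mem_erase hj
        simp only [ψ, if_neg hj']; rw [mul_pow, Real.sq_sqrt (hy j), Real.sq_sqrt (hφ j hj').le]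
    rw [e1, e2, e3]
    exact Finset.sum_mul_sq_le_sq_mul_sq _ _ _
  have e4 : ∑ j ∈ s, ((-σ + 2 * a ^ 3 * √(φ j) - a ^ 4) * y j - φ j * y j * U) =
      (-σ - a ^ 4) * (∑ j ∈ s, y j) + 2 * a ^ 3 * (∑ j ∈ s, √(φ j) * y j)
        - U * ∑ j ∈ s, φ j * y j := by
    rw [Finset.mul_sum, Finset.mul_sum, Finset.mul_sum, ← Finset.sum_add_distrib,
      ← Finset.sum_sub_distrib]
    exact Finset.sum_congr rfl fun j _ => by ring
  rw [e4] at h1
  set S := ∑ j ∈ s, y j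
  set G := ∑ j ∈ s, √(φ j) * y j
  set P := ∑ j ∈ s, φ j * y j
  have h6 : a ^ 4 * U = a ^ 4 * y i₀ + a ^ 4 * S := by rw [hU2]; ring
  nlinarith

end Pool.Agent.Lib.MP_4fbe7c_an.SD
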