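import Mathlib

/-!
Definitions for the one-dimensional N-species slowest disperser problem (MP_4fbe7c_an):
`∂_t u_i = d_i ∂_xx u_i + u_i (m(x) - Σ u_j)` on `[0, L]`, Neumann conditions.
-/

set_option autoImplicit false

open Set

namespace Pool.Agent.Lib.MP_4fbe7c_an.SD

/-- `f'` is the derivative of `f` on `[0, L]`, one-sided at the end points. -/
def DerivOn (L : ℝ) (f f' : ℝ → ℝ) : Prop :=
  ∀ x ∈ Icc 0 L, HasDerivWithinAt f (f' x) (Icc 0 L) x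

/-- A positive steady state of one species with rate `d` (with its two derivatives). -/
structure Steady (L : ℝ) (m : ℝ → ℝ) (d : ℝ) (θ θ' θ'' : ℝ → ℝ) : Prop where
  pos : ∀ x ∈ Icc 0 L, 0 < θ x
  d1 : DerivOn L θ θ'
  d2 : DerivOn L θ' θ''
  b0 : θ' 0 = 0
  bL : θ' L = 0
  eq : ∀ x ∈ Icc 0 L, d * θ'' x + θ x * (m x - θ x) = 0

/-- A classical solution of the N-species system on `[0, ∞) × [0, L]` (with its space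
derivatives `v = ∂_x u`, `w = ∂_xx u`), nonnegative at time `0`. -/
structure Sol (L : ℝ) (m : ℝ → ℝ) {N : ℕ} (d : Fin N → ℝ) (u v w : Fin N → ℝ → ℝ → ℝ) :
    Prop where
  cu : ∀ i, ContinuousOn (fun p : ℝ × ℝ => u i p.1 p.2) (Ici 0 ×ˢ Icc 0 L)
  cv : ∀ i, ContinuousOn (fun p : ℝ × ℝ => v i p.1 p.2) (Ioi 0 ×ˢ Icc 0 L)
  cw : ∀ i, ContinuousOn (fun p : ℝ × ℝ => w i p.1 p.2) (Ioi 0 ×ˢ Icc 0 L)
  init : ∀ i, ∀ x ∈ Icc 0 L, 0 ≤ u i 0 x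
  dx : ∀ i, ∀ t, 0 < t → DerivOn L (u i t) (v i t)
  dxx : ∀ i, ∀ t, 0 < t → DerivOn L (v i t) (w i t)
  b0 : ∀ i, ∀ t, 0 < t → v i t 0 = 0
  bL : ∀ i, ∀ t, 0 < t → v i t L = 0
  dt : ∀ i, ∀ t, 0 < t → ∀ x ∈ Icc 0 L,
    HasDerivAt (fun s => u i s x) (d i * w i t x + u i t x * (m x - ∑ j, u j t x)) t

/-- `E = (0, …, θ, …, 0)` (species `i₀`) is Lyapunov stable and attracts all solutions in which
species `i₀` is present, uniformly as in the frozen statement. -/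
def Gas (L : ℝ) (m : ℝ → ℝ) {N : ℕ} (d : Fin N → ℝ) (i₀ : Fin N) (θ : ℝ → ℝ) : Prop :=
  ∀ ε : ℝ, 0 < ε → ∃ δ : ℝ, 0 < δ ∧ ∀ u v w : Fin N → ℝ → ℝ → ℝ, Sol L m d u v w →
    ((∀ x ∈ Icc 0 L, |u i₀ 0 x - θ x| < δ ∧ ∀ j, j ≠ i₀ → u j 0 x < δ) →
        ∀ t : ℝ, 0 ≤ t → ∀ x ∈ Icc 0 L,
          |u i₀ t x - θ x| < ε ∧ ∀ j, j ≠ i₀ → |u j t x| < ε) ∧
    ((∃ x ∈ Icc 0 L, 0 < u i₀ 0 x) →
        ∃ T : ℝ, ∀ t : ℝ, T ≤ t → ∀ x ∈ Icc 0 L,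
          |u i₀ t x - θ x| < ε ∧ ∀ j, j ≠ i₀ → |u j t x| < ε)

/-- An admissible weight for a species with rate `D` (the criterion). -/
structure Weight (L : ℝ) (m θ : ℝ → ℝ) (D : ℝ) (φ φ' φ'' : ℝ → ℝ) : Prop where
  pos : ∀ x ∈ Icc 0 L, 0 < φ x
  d1 : DerivOn L φ φ'
  d2 : DerivOn L φ' φ''
  c2 : ContinuousOn φ'' (Icc 0 L)
  b0 : φ' 0 = 0
  bL : φ' L = 0
  neg : ∀ x ∈ Icc 0 L,
    D * φ'' x + (m x - θ x) * φ x + θ x * (√(φ x) - √(θ x)) ^ 2 < 0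

/-- The Lyapunov functional. -/
noncomputable def V (L : ℝ) {N : ℕ} (i₀ : Fin N) (θ : ℝ → ℝ) (φ : Fin N → ℝ → ℝ)
    (u : Fin N → ℝ → ℝ → ℝ) (t : ℝ) : ℝ :=
  ∫ x in (0)..L, (θ x * u i₀ t x + (∑ j ∈ Finset.univ.erase i₀, φ j x * u j t x)
    - θ x ^ 2 * Real.log (u i₀ t x))

/-- The minimum of `V`. -/
noncomputable def Vmin (L : ℝ) (θ : ℝ → ℝ) : ℝ :=
  ∫ x in (0)..L, (θ x ^ 2 - θ x ^ 2 * Real.log (θ x))

end Pool.Agent.Lib.MP_4fbe7c_an.SD
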