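import Pool.Agent.Lib.MP_4fbe7c_an.SD.Calc

set_option autoImplicit false

open Set

namespace Pool.Agent.Lib.MP_4fbe7c_an.SD


theorem energy {L : ℝ} {m : ℝ → ℝ} (hL : 0 < L) (hm : ContinuousOn m (Icc 0 L)) {N : ℕ}
    {d : Fin N → ℝ} {u v w : Fin N → ℝ → ℝ → ℝ} (h : Sol L m d u v w) (i : Fin N) :
    ∀ t, 0 < t → HasDerivAt (fun t => ∫ x in (0)..L, u i t x ^ 2)
      (2 * ((∫ x in (0)..L, u i t x ^ 2 * (m x - ∑ j, u j t x))
        - d i * ∫ x in (0)..L, v i t x ^ 2)) t := by
  intro t ht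
  have hcu : ∀ j, ContinuousOn (fun p : ℝ × ℝ => u j p.1 p.2) (Ioi 0 ×ˢ Icc 0 L) := fun j =>
    (h.cu j).mono (prod_mono Ioi_subset_Ici_self subset_rfl)
  have hcm : ContinuousOn (fun p : ℝ × ℝ => m p.2) (Ioi (0 : ℝ) ×ˢ Icc 0 L) :=
    hm.comp continuousOn_snd fun p hp => hp.2
  have hcs : ContinuousOn (fun p : ℝ × ℝ => ∑ j, u j p.1 p.2) (Ioi (0 : ℝ) ×ˢ Icc 0 L) :=
    continuousOn_finsetSum _ fun j _ => hcu j
  have h1 := hasDerivAt_integral hL (g := fun t x => u i t x ^ 2)
    (gt := fun t x => 2 * u i t x * (d i * w i t x + u i t x * (m x - ∑ j, u j t x)))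
    ((hcu i).pow 2)
    ((continuousOn_const.mul (hcu i)).mul ((continuousOn_const.mul (h.cw i)).add
      ((hcu i).mul (hcm.sub hcs))))
    (fun s hs x hx => by
      have := (h.dt i s hs x hx).fun_pow 2
      have e : ((2 : ℕ) : ℝ) * u i s x ^ (2 - 1) *
          (d i * w i s x + u i s x * (m x - ∑ j, u j s x)) =
          2 * u i s x * (d i * w i s x + u i s x * (m x - ∑ j, u j s x)) := by
        norm_num
      rwa [e] at this) t ht
  convert h1 using 1
  -- slices
  have hsl : ∀ {g : ℝ → ℝ → ℝ},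
      ContinuousOn (fun p : ℝ × ℝ => g p.1 p.2) (Ioi 0 ×ˢ Icc 0 L) →
      ContinuousOn (g t) (Icc 0 L) := fun {g} hg =>
    hg.comp (f := fun x : ℝ => (t, x)) (by fun_prop) fun x hx => ⟨ht, hx⟩
  have cu : ContinuousOn (u i t) (Icc 0 L) := hsl (hcu i)
  have cv : ContinuousOn (v i t) (Icc 0 L) := hsl (h.cv i)
  have cw : ContinuousOn (w i t) (Icc 0 L) := hsl (h.cw i)
  have cs : ContinuousOn (fun x => ∑ j, u j t x) (Icc 0 L) :=
    hsl (g := fun t x => ∑ j, u j t x) hcs
  have hint : ∀ {f : ℝ → ℝ}, ContinuousOn f (Icc 0 L) →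
      IntervalIntegrable f MeasureTheory.volume 0 L := fun {f} hf =>
    (hf.mono (by rw [uIcc_of_le hL.le])).intervalIntegrable
  have hF : ∫ x in (0)..L, (v i t x * v i t x + u i t x * w i t x) =
      u i t L * v i t L - u i t 0 * v i t 0 :=
    integral_deriv hL (F := fun x => u i t x * v i t x)
      (fun x hx => (h.dx i t ht x hx).mul (h.dxx i t ht x hx))
      ((cv.mul cv).add (cu.mul cw))
  have i1 : IntervalIntegrable (fun x => v i t x * v i t x) MeasureTheory.volume 0 L :=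
    hint (cv.mul cv)
  have i2 : IntervalIntegrable (fun x => u i t x * w i t x) MeasureTheory.volume 0 L :=
    hint (cu.mul cw)
  have i3 : IntervalIntegrable (fun x => 2 * d i * (u i t x * w i t x))
      MeasureTheory.volume 0 L := i2.const_mul _
  have i4 : IntervalIntegrable (fun x => 2 * (u i t x ^ 2 * (m x - ∑ j, u j t x)))
      MeasureTheory.volume 0 L := hint (continuousOn_const.mul ((cu.pow 2).mul (hm.sub cs)))
  rw [h.b0 i t ht, h.bL i t ht, mul_zero, mul_zero, sub_zero,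
    intervalIntegral.integral_add i1 i2] at hF
  have e1 : (fun x => 2 * u i t x * (d i * w i t x + u i t x * (m x - ∑ j, u j t x))) =
      fun x => 2 * d i * (u i t x * w i t x) + 2 * (u i t x ^ 2 * (m x - ∑ j, u j t x)) := by
    funext x
    ring
  have e2 : (fun x => v i t x ^ 2) = fun x => v i t x * v i t x := by
    funext x
    ring
  rw [e1, intervalIntegral.integral_add i3 i4, intervalIntegral.integral_const_mul, intervalIntegral.integral_const_mul, e2]
  linear_combination (-(2 * d i)) * hF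

end Pool.Agent.Lib.MP_4fbe7c_an.SD
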