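import Pool.Agent.Lib.MP_4fbe7c_an.SD.Ener
import Pool.Agent.Lib.MP_4fbe7c_an.SD.Lyap

/-!
Module GOOD: a good time in `(T, T + 1)`.
-/

set_option autoImplicit false

open Set

namespace Pool.Agent.Lib.MP_4fbe7c_an.SD

open Lyap

theorem good_time {L : ℝ} {m : ℝ → ℝ} (hL : 0 < L) (hm : ContinuousOn m (Icc 0 L)) {N : ℕ}
    {d : Fin N → ℝ} (hd : ∀ i, 0 < d i)
    (i₀ : Fin N) {θ θ' θ'' : ℝ → ℝ} (hθ : Steady L m (d i₀) θ θ' θ'')
    {φ φ' φ'' : Fin N → ℝ → ℝ} (hφ : ∀ j, j ≠ i₀ → Weight L m θ (d j) (φ j) (φ' j) (φ'' j))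
    {σ : ℝ} (hσ : 0 ≤ σ)
    (hneg : ∀ j, j ≠ i₀ → ∀ x ∈ Icc 0 L,
      d j * φ'' j x + (m x - θ x) * φ j x + θ x * (√(φ j x) - √(θ x)) ^ 2 ≤ -σ) (M : ℝ) :
    ∃ C : ℝ, 0 < C ∧ ∀ u v w : Fin N → ℝ → ℝ → ℝ, Sol L m d u v w →
      (∀ i t, 0 ≤ t → ∀ x ∈ Icc 0 L, u i t x ≤ M) →
      (∀ t, 0 < t → ∀ x ∈ Icc 0 L, 0 < u i₀ t x) →
      ∀ T η : ℝ, 0 < T → 0 < η → V L i₀ θ φ u T - V L i₀ θ φ u (T + 1) ≤ η →
      ∃ s ∈ Ioo T (T + 1), (∀ i, ∫ x in (0)..L, v i s x ^ 2 ≤ C) ∧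
        (∫ x in (0)..L, (σ * (∑ j ∈ Finset.univ.erase i₀, u j s x)
        + (√(θ x) * u i₀ s x + (∑ j ∈ Finset.univ.erase i₀, √(φ j x) * u j s x)
            - √(θ x) ^ 3) ^ 2)) ≤ C * η := by
  obtain ⟨K, hK⟩ : ∃ K : ℝ, ∀ x ∈ Icc 0 L, |m x| ≤ K := by
    obtain ⟨K, hK⟩ := isCompact_Icc.exists_bound_of_continuousOn hm
    exact ⟨K, fun x hx => by simpa using hK x hx⟩
  have hK0 : 0 ≤ K := (abs_nonneg _).trans (hK 0 ⟨le_rfl, hL.le⟩)
  set C₀ : ℝ := 1 + N * (L * M ^ 2) * (1 + K) with hC₀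
  have hC₀1 : 1 ≤ C₀ := by
    have : 0 ≤ (N : ℝ) * (L * M ^ 2) * (1 + K) := by positivity
    linarith
  have hsd : 0 ≤ ∑ i, 1 / d i := Finset.sum_nonneg fun i _ => (one_div_pos.2 (hd i)).le
  refine ⟨C₀ * (1 + ∑ i, 1 / d i), by positivity, fun u v w h hM hpos T η hT hη hV => ?_⟩
  have hu0 := nonneg hL hm hd h
  have hII : ∀ f : ℝ → ℝ, ContinuousOn f (Icc 0 L) →
      IntervalIntegrable f MeasureTheory.volume 0 L := by
    intro f hf
    apply ContinuousOn.intervalIntegrable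
    rwa [uIcc_of_le hL.le]
  have su : ∀ i t, 0 ≤ t → ContinuousOn (u i t) (Icc 0 L) := fun i t ht =>
    slice_continuousOn (A := Ici 0) ht (h.cu i)
  set diss : ℝ → ℝ := fun t => ∫ x in (0)..L, (σ * (∑ j ∈ Finset.univ.erase i₀, u j t x)
        + (√(θ x) * u i₀ t x + (∑ j ∈ Finset.univ.erase i₀, √(φ j x) * u j t x)
            - √(θ x) ^ 3) ^ 2) with hdiss
  have hdiss0 : ∀ t, 0 < t → 0 ≤ diss t := by
    intro t ht
    refine intervalIntegral.integral_nonneg hL.le fun x hx => ?_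
    have h1 : 0 ≤ ∑ j ∈ Finset.univ.erase i₀, u j t x :=
      Finset.sum_nonneg fun j _ => hu0 j t ht.le x hx
    positivity
  have hVd : ∀ t, 0 < t → HasDerivAt (V L i₀ θ φ u) (deriv (V L i₀ θ φ u) t) t ∧
      deriv (V L i₀ θ φ u) t ≤ -diss t := by
    intro t ht
    obtain ⟨V', h1, h2⟩ := lyapunov hL hm hd h i₀ hθ hφ hσ hneg hpos t ht
    rw [h1.deriv]
    exact ⟨h1, h2⟩
  have hen := fun i => energy hL hm h i
  -- bounds for the energies
  have hE : ∀ i t, 0 ≤ t → 0 ≤ ∫ x in (0)..L, u i t x ^ 2 := fun i t ht =>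
    intervalIntegral.integral_nonneg hL.le fun x hx => sq_nonneg _
  have hE2 : ∀ i t, 0 ≤ t → ∫ x in (0)..L, u i t x ^ 2 ≤ L * M ^ 2 := by
    intro i t ht
    have h1 : ∫ x in (0)..L, u i t x ^ 2 ≤ ∫ x in (0)..L, M ^ 2 := by
      refine intervalIntegral.integral_mono_on hL.le (hII _ ((su i t ht).pow 2)) (by simp)
        fun x hx => ?_
      exact pow_le_pow_left₀ (hu0 i t ht x hx) (hM i t ht x hx) 2
    rwa [intervalIntegral.integral_const, sub_zero, smul_eq_mul] at h1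
  have hR : ∀ i t, 0 ≤ t → ∫ x in (0)..L, u i t x ^ 2 * (m x - ∑ j, u j t x) ≤
      K * (L * M ^ 2) := by
    intro i t ht
    have cS : ContinuousOn (fun x => ∑ j, u j t x) (Icc 0 L) :=
      continuousOn_finsetSum _ fun j _ => su j t ht
    have h1 : ∫ x in (0)..L, u i t x ^ 2 * (m x - ∑ j, u j t x) ≤
        ∫ x in (0)..L, K * u i t x ^ 2 := by
      refine intervalIntegral.integral_mono_on hL.le
        (hII _ (((su i t ht).pow 2).mul (hm.sub cS))) (hII _ (((su i t ht).pow 2).const_mul K))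
        fun x hx => ?_
      have h2 : 0 ≤ ∑ j, u j t x := Finset.sum_nonneg fun j _ => hu0 j t ht x hx
      have h3 : m x ≤ K := (le_abs_self _).trans (hK x hx)
      have h4 : 0 ≤ u i t x ^ 2 := sq_nonneg _
      nlinarith
    rw [intervalIntegral.integral_const_mul] at h1
    exact h1.trans (mul_le_mul_of_nonneg_left (hE2 i t ht) hK0)
  -- mean value theorem
  set P : ℝ → ℝ := fun t => -(V L i₀ θ φ u t) / η - 1 / 2 * ∑ i, ∫ x in (0)..L, u i t x ^ 2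
    with hP
  set P' : ℝ → ℝ := fun t => -(deriv (V L i₀ θ φ u) t) / η -
    1 / 2 * ∑ i, (2 * ((∫ x in (0)..L, u i t x ^ 2 * (m x - ∑ j, u j t x))
        - d i * ∫ x in (0)..L, v i t x ^ 2)) with hP'
  have hPd : ∀ t, 0 < t → HasDerivAt P (P' t) t := by
    intro t ht
    exact ((hVd t ht).1.neg.div_const η).sub
      ((HasDerivAt.fun_sum fun i _ => hen i t ht).const_mul (1 / 2))
  obtain ⟨s, hs, hsl⟩ := exists_hasDerivAt_eq_slope P P' (by linarith : T < T + 1)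
    (fun t ht => (hPd t (by linarith [ht.1])).continuousAt.continuousWithinAt)
    (fun t ht => hPd t (by linarith [ht.1]))
  have hs0 : 0 < s := by linarith [hs.1]
  have hden : (T + 1 - T) = 1 := by ring
  rw [hden, div_one] at hsl
  have hup : P (T + 1) - P T ≤ 1 + 1 / 2 * (N * (L * M ^ 2)) := by
    simp only [hP]
    have h1 : -(V L i₀ θ φ u (T + 1)) / η - -(V L i₀ θ φ u T) / η ≤ 1 := by
      rw [← sub_div, div_le_one hη]
      linarith
    have h2 : 0 ≤ ∑ i, ∫ x in (0)..L, u i (T + 1) x ^ 2 :=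
      Finset.sum_nonneg fun i _ => hE i _ (by linarith)
    have h3 : ∑ i, ∫ x in (0)..L, u i T x ^ 2 ≤ N * (L * M ^ 2) := by
      have := Finset.sum_le_sum fun (i : Fin N) (_ : i ∈ Finset.univ) => hE2 i T hT.le
      simpa using this
    linarith
  have hlow : diss s / η + ∑ i, d i * ∫ x in (0)..L, v i s x ^ 2 ≤
      P' s + K * (N * (L * M ^ 2)) := by
    simp only [hP']
    have h1 : diss s / η ≤ -(deriv (V L i₀ θ φ u) s) / η :=
      div_le_div_of_nonneg_right (by linarith [(hVd s hs0).2]) hη.le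
    have h2 : ∑ i, ∫ x in (0)..L, u i s x ^ 2 * (m x - ∑ j, u j s x) ≤
        K * (N * (L * M ^ 2)) := by
      have := Finset.sum_le_sum fun (i : Fin N) (_ : i ∈ Finset.univ) => hR i s hs0.le
      simp only [Finset.sum_const, Finset.card_univ, Fintype.card_fin, nsmul_eq_mul] at this
      linarith
    have h3 : 1 / 2 * ∑ i, (2 * ((∫ x in (0)..L, u i s x ^ 2 * (m x - ∑ j, u j s x))
        - d i * ∫ x in (0)..L, v i s x ^ 2)) =
        (∑ i, ∫ x in (0)..L, u i s x ^ 2 * (m x - ∑ j, u j s x)) -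
          ∑ i, d i * ∫ x in (0)..L, v i s x ^ 2 := by
      rw [← Finset.mul_sum, Finset.sum_sub_distrib]
      ring
    rw [h3]
    linarith
  have htot : diss s / η + ∑ i, d i * ∫ x in (0)..L, v i s x ^ 2 ≤ C₀ := by
    have h1 : 0 ≤ (N : ℝ) * (L * M ^ 2) := by positivity
    rw [hsl] at hlow
    rw [hC₀]
    linarith
  have hv0 : ∀ i, 0 ≤ ∫ x in (0)..L, v i s x ^ 2 := fun i =>
    intervalIntegral.integral_nonneg hL.le fun x _ => sq_nonneg _
  have hdv : ∀ i, 0 ≤ d i * ∫ x in (0)..L, v i s x ^ 2 := fun i => mul_nonneg (hd i).le (hv0 i)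
  refine ⟨s, hs, fun i => ?_, ?_⟩
  · have h1 : d i * ∫ x in (0)..L, v i s x ^ 2 ≤ C₀ := by
      have h2 := Finset.single_le_sum (fun j _ => hdv j) (Finset.mem_univ i)
      have h3 : 0 ≤ diss s / η := div_nonneg (hdiss0 s hs0) hη.le
      linarith
    have h4 : 1 / d i ≤ ∑ j, 1 / d j :=
      Finset.single_le_sum (f := fun j => 1 / d j) (fun j _ => (one_div_pos.2 (hd j)).le)
        (Finset.mem_univ i)
    have h5 : ∫ x in (0)..L, v i s x ^ 2 ≤ C₀ * (1 / d i) := by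
      rw [mul_one_div, le_div_iff₀ (hd i)]
      linarith
    have h6 : C₀ * (1 / d i) ≤ C₀ * (1 + ∑ j, 1 / d j) :=
      mul_le_mul_of_nonneg_left (by linarith) (by linarith)
    linarith
  · have h1 : diss s / η ≤ C₀ := by
      have := Finset.sum_nonneg fun (i : Fin N) (_ : i ∈ Finset.univ) => hdv i
      linarith
    have h2 : diss s ≤ C₀ * η := by rwa [div_le_iff₀ hη] at h1
    have h3 : C₀ * η ≤ C₀ * (1 + ∑ i, 1 / d i) * η := by
      have : C₀ ≤ C₀ * (1 + ∑ i, 1 / d i) := by nlinarith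
      exact mul_le_mul_of_nonneg_right this hη.le
    exact h2.trans h3

end Pool.Agent.Lib.MP_4fbe7c_an.SD
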