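import Pool.Agent.Lib.MP_4fbe7c_an.SD.Apri2
import Pool.Agent.Lib.MP_4fbe7c_an.SD.Good
import Pool.Agent.Lib.MP_4fbe7c_an.SD.Int

/-!
Module KEY: small dissipation of `V` on `(T, T + 1)` gives closeness on `[T + 1, T + 2]`.
-/

set_option autoImplicit false

open Set

namespace Pool.Agent.Lib.MP_4fbe7c_an.SD

open Lyap

theorem key {L : ℝ} {m : ℝ → ℝ} (hL : 0 < L) (hm : ContinuousOn m (Icc 0 L)) {N : ℕ}
    {d : Fin N → ℝ} (hd : ∀ i, 0 < d i)
    (i₀ : Fin N) {θ θ' θ'' : ℝ → ℝ} (hθ : Steady L m (d i₀) θ θ' θ'')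
    {φ φ' φ'' : Fin N → ℝ → ℝ} (hφ : ∀ j, j ≠ i₀ → Weight L m θ (d j) (φ j) (φ' j) (φ'' j))
    {σ : ℝ} (hσ : 0 < σ)
    (hneg : ∀ j, j ≠ i₀ → ∀ x ∈ Icc 0 L,
      d j * φ'' j x + (m x - θ x) * φ j x + θ x * (√(φ j x) - √(θ x)) ^ 2 ≤ -σ) (M : ℝ)
    {ε : ℝ} (hε : 0 < ε) :
    ∃ η : ℝ, 0 < η ∧ ∀ u v w : Fin N → ℝ → ℝ → ℝ, Sol L m d u v w →
      (∀ i t, 0 ≤ t → ∀ x ∈ Icc 0 L, u i t x ≤ M) →
      (∀ t, 0 < t → ∀ x ∈ Icc 0 L, 0 < u i₀ t x) →
      ∀ T : ℝ, 0 < T → V L i₀ θ φ u T - V L i₀ θ φ u (T + 1) ≤ η →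
      ∀ t ∈ Icc (T + 1) (T + 2), ∀ x ∈ Icc 0 L,
        |u i₀ t x - θ x| < ε ∧ ∀ j, j ≠ i₀ → |u j t x| < ε := by
  classical
  obtain ⟨C, hC, hgood⟩ := good_time hL hm hd i₀ hθ hφ hσ.le hneg M
  obtain ⟨K, hK⟩ : ∃ K : ℝ, ∀ x ∈ Icc 0 L, |m x| ≤ K := by
    obtain ⟨K, hK⟩ := isCompact_Icc.exists_bound_of_continuousOn hm
    exact ⟨K, fun x hx => by simpa using hK x hx⟩
  have h0L : (0 : ℝ) ∈ Icc 0 L := ⟨le_rfl, hL.le⟩
  have hK0 : 0 ≤ K := (abs_nonneg _).trans (hK 0 h0L)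
  have hmK : ∀ x ∈ Icc 0 L, m x ≤ K := fun x hx => (le_abs_self _).trans (hK x hx)
  have cθ : ContinuousOn θ (Icc 0 L) := derivOn_continuousOn hθ.d1
  have cθ' : ContinuousOn θ' (Icc 0 L) := derivOn_continuousOn hθ.d2
  have cφ : ∀ j, j ≠ i₀ → ContinuousOn (φ j) (Icc 0 L) := fun j hj =>
    derivOn_continuousOn (hφ j hj).d1
  -- lower bound for θ
  obtain ⟨c, hc, hcθ⟩ : ∃ c : ℝ, 0 < c ∧ ∀ x ∈ Icc 0 L, c ≤ θ x := by
    obtain ⟨x₀, hx₀, hmin⟩ := isCompact_Icc.exists_isMinOn ⟨0, h0L⟩ cθ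
    exact ⟨θ x₀, hθ.pos x₀ hx₀, fun x hx => hmin hx⟩
  -- upper bound for the weights
  obtain ⟨B, hB0, hB⟩ : ∃ B : ℝ, 0 ≤ B ∧ ∀ j, j ≠ i₀ → ∀ x ∈ Icc 0 L, √(φ j x) ≤ B := by
    have h1 : ∀ j, ∃ b : ℝ, 0 ≤ b ∧ (j ≠ i₀ → ∀ x ∈ Icc 0 L, √(φ j x) ≤ b) := by
      intro j
      by_cases hj : j = i₀
      · exact ⟨0, le_rfl, fun h => absurd hj h⟩
      · obtain ⟨b, hb⟩ := isCompact_Icc.exists_bound_of_continuousOn (cφ j hj).sqrt
        refine ⟨|b|, abs_nonneg _, fun _ x hx => ?_⟩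
        have := hb x hx
        rw [Real.norm_eq_abs] at this
        exact (le_abs_self _).trans (this.trans (le_abs_self _))
    choose b hb0 hb using h1
    refine ⟨∑ j, b j, Finset.sum_nonneg fun j _ => hb0 j, fun j hj x hx => ?_⟩
    exact (hb j hj x hx).trans
      (Finset.single_le_sum (fun j _ => hb0 j) (Finset.mem_univ j))
  set E : ℝ := Real.exp (2 * (K + 1)) with hE
  have hE1 : 1 ≤ E := Real.one_le_exp (by positivity)
  set ε₁ : ℝ := ε / (2 * ((1 + N * |M|) * E * E)) with hε₁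
  have hMN : 0 ≤ (N : ℝ) * |M| := by positivity
  have hε₁0 : 0 < ε₁ := by positivity
  set C₂ : ℝ := 2 * C + 2 * ∫ x in (0)..L, θ' x ^ 2 with hC₂
  have hθ'0 : 0 ≤ ∫ x in (0)..L, θ' x ^ 2 :=
    intervalIntegral.integral_nonneg hL.le fun x _ => sq_nonneg _
  have hC₂0 : 0 < C₂ := by positivity
  obtain ⟨h₀, hh₀, hsup⟩ := sup_small hL hε₁0 hC₂0
  -- the constant in the estimate of ∫ (u - θ)²
  set C₃ : ℝ := (2 * C + 2 * ((B * N * |M|) * B) * (C / σ)) / c with hC₃
  have hC₃0 : 0 < C₃ := by positivity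
  refine ⟨min (h₀ * σ / C) (h₀ / C₃), by positivity, fun u v w h hM hpos T hT hV => ?_⟩
  set η : ℝ := min (h₀ * σ / C) (h₀ / C₃) with hη
  have hη0 : 0 < η := by positivity
  have hη1 : C * η / σ ≤ h₀ := by
    have h1 : η ≤ h₀ * σ / C := min_le_left _ _
    rw [le_div_iff₀ hC] at h1
    rw [div_le_iff₀ hσ]
    linarith
  have hη2 : C₃ * η ≤ h₀ := by
    have h1 : η ≤ h₀ / C₃ := min_le_right _ _
    rw [le_div_iff₀ hC₃0] at h1
    linarith
  have hu0 := nonneg hL hm hd h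
  obtain ⟨s, hs, hv, hdiss⟩ := hgood u v w h hM hpos T η hT hη0 hV
  have hs0 : 0 < s := by linarith [hs.1]
  have hII : ∀ f : ℝ → ℝ, ContinuousOn f (Icc 0 L) →
      IntervalIntegrable f MeasureTheory.volume 0 L := by
    intro f hf
    apply ContinuousOn.intervalIntegrable
    rwa [uIcc_of_le hL.le]
  have su : ∀ i, ContinuousOn (u i s) (Icc 0 L) := fun i =>
    slice_continuousOn (A := Ici 0) hs0.le (h.cu i)
  have sv : ∀ i, ContinuousOn (v i s) (Icc 0 L) := fun i =>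
    slice_continuousOn (A := Ioi 0) hs0 (h.cv i)
  have hM0 : 0 < M := (hpos s hs0 0 h0L).trans_le (hM i₀ s hs0.le 0 h0L)
  have hMabs : |M| = M := abs_of_pos hM0
  set S : ℝ → ℝ := fun x => ∑ j ∈ Finset.univ.erase i₀, u j s x with hS
  set R : ℝ → ℝ := fun x => √(θ x) * u i₀ s x +
    (∑ j ∈ Finset.univ.erase i₀, √(φ j x) * u j s x) - √(θ x) ^ 3 with hR
  have cS : ContinuousOn S (Icc 0 L) := continuousOn_finsetSum _ fun j _ => su j
  have cG : ContinuousOn (fun x => ∑ j ∈ Finset.univ.erase i₀, √(φ j x) * u j s x)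
      (Icc 0 L) := by
    refine continuousOn_finsetSum _ fun j hj => ?_
    exact ((cφ j (Finset.ne_of_mem_erase hj)).sqrt).mul (su j)
  have cR : ContinuousOn R (Icc 0 L) := ((cθ.sqrt.mul (su i₀)).add cG).sub (cθ.sqrt.pow 3)
  have cR2 : ContinuousOn (fun x => R x ^ 2) (Icc 0 L) := cR.pow 2
  have cv2 : ContinuousOn (fun x => v i₀ s x ^ 2) (Icc 0 L) := (sv i₀).pow 2
  have cθ2 : ContinuousOn (fun x => θ' x ^ 2) (Icc 0 L) := cθ'.pow 2
  have hS0 : ∀ x ∈ Icc 0 L, 0 ≤ S x := fun x hx =>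
    Finset.sum_nonneg fun j _ => hu0 j s hs0.le x hx
  have hSI0 : 0 ≤ ∫ x in (0)..L, S x := intervalIntegral.integral_nonneg hL.le hS0
  have hRI0 : 0 ≤ ∫ x in (0)..L, R x ^ 2 :=
    intervalIntegral.integral_nonneg hL.le fun x _ => sq_nonneg _
  have hsplit : σ * (∫ x in (0)..L, S x) + ∫ x in (0)..L, R x ^ 2 ≤ C * η := by
    have e1 : ∫ x in (0)..L, (σ * S x + R x ^ 2) =
        σ * (∫ x in (0)..L, S x) + ∫ x in (0)..L, R x ^ 2 := by
      rw [intervalIntegral.integral_add (hII _ (cS.const_mul σ)) (hII _ cR2),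
        intervalIntegral.integral_const_mul]
    rw [← e1]
    exact hdiss
  have hSI : ∫ x in (0)..L, S x ≤ C * η / σ := by
    rw [le_div_iff₀ hσ]
    linarith
  have hRI : ∫ x in (0)..L, R x ^ 2 ≤ C * η := by
    have := mul_nonneg hσ.le hSI0
    linarith
  -- the other species are small at time s
  have hsmall : ∀ j, j ≠ i₀ → ∀ x ∈ Icc 0 L, |u j s x| < ε₁ := by
    intro j hj
    refine hsup (u j s) (v j s) (h.dx j s hs0) (sv j) ?_ (Or.inl ?_)
    · refine (hv j).trans ?_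
      rw [hC₂]; linarith
    · refine le_trans ?_ (hSI.trans hη1)
      refine intervalIntegral.integral_mono_on hL.le (hII _ (su j).abs) (hII _ cS) fun x hx => ?_
      rw [abs_of_nonneg (hu0 j s hs0.le x hx)]
      exact Finset.single_le_sum (f := fun j => u j s x) (fun k _ => hu0 k s hs0.le x hx)
        (Finset.mem_erase.2 ⟨hj, Finset.mem_univ j⟩)
  -- species i₀ is close to θ at time s
  have hclose : ∀ x ∈ Icc 0 L, |u i₀ s x - θ x| < ε₁ := by
    refine hsup (fun x => u i₀ s x - θ x) (fun x => v i₀ s x - θ' x) ?_ ((sv i₀).sub cθ') ?_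
      (Or.inr ?_)
    · intro x hx
      exact (h.dx i₀ s hs0 x hx).sub (hθ.d1 x hx)
    · have h1 : ∫ x in (0)..L, (v i₀ s x - θ' x) ^ 2 ≤
          ∫ x in (0)..L, (2 * v i₀ s x ^ 2 + 2 * θ' x ^ 2) := by
        refine intervalIntegral.integral_mono_on hL.le (hII _ (((sv i₀).sub cθ').pow 2))
          (hII _ ((cv2.const_mul 2).add (cθ2.const_mul 2))) fun x _ => ?_
        nlinarith [sq_nonneg (v i₀ s x + θ' x)]
      rw [intervalIntegral.integral_add (hII _ (cv2.const_mul 2))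
        (hII _ (cθ2.const_mul 2)), intervalIntegral.integral_const_mul,
        intervalIntegral.integral_const_mul] at h1
      have := hv i₀
      rw [hC₂]
      linarith
    · refine le_trans ?_ hη2
      have h1 : ∫ x in (0)..L, c * (u i₀ s x - θ x) ^ 2 ≤
          ∫ x in (0)..L, (2 * R x ^ 2 + 2 * ((B * N * |M|) * B) * S x) := by
        refine intervalIntegral.integral_mono_on hL.le
          (hII _ ((((su i₀).sub cθ).pow 2).const_mul c))
          (hII _ ((cR2.const_mul 2).add (cS.const_mul _))) fun x hx => ?_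
        have hθx := hθ.pos x hx
        have hsq : √(θ x) ^ 2 = θ x := Real.sq_sqrt hθx.le
        set G : ℝ := ∑ j ∈ Finset.univ.erase i₀, √(φ j x) * u j s x with hG
        have hG0 : 0 ≤ G := Finset.sum_nonneg fun j _ =>
          mul_nonneg (Real.sqrt_nonneg _) (hu0 j s hs0.le x hx)
        have hG1 : G ≤ B * S x := by
          rw [hG, hS, Finset.mul_sum]
          exact Finset.sum_le_sum fun j hj => mul_le_mul_of_nonneg_right
            (hB j (Finset.ne_of_mem_erase hj) x hx) (hu0 j s hs0.le x hx)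
        have hS1 : S x ≤ N * |M| := by
          rw [hMabs, hS]
          have h2 : ∑ j ∈ Finset.univ.erase i₀, u j s x ≤ ∑ j ∈ Finset.univ.erase i₀, M :=
            Finset.sum_le_sum fun j _ => hM j s hs0.le x hx
          have h3 : ∑ j ∈ Finset.univ.erase i₀, M ≤ ∑ j : Fin N, M :=
            Finset.sum_le_sum_of_subset_of_nonneg (Finset.erase_subset _ _)
              fun _ _ _ => hM0.le
          simp only [Finset.sum_const, Finset.card_univ, Fintype.card_fin, nsmul_eq_mul] at h3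
          simp only [Finset.sum_const, nsmul_eq_mul] at h2
          exact h2.trans h3
        have hG2 : G ^ 2 ≤ (B * N * |M|) * B * S x := by
          have h4 : G ≤ B * (N * |M|) := hG1.trans (mul_le_mul_of_nonneg_left hS1 hB0)
          have h5 : G * G ≤ (B * (N * |M|)) * (B * S x) :=
            mul_le_mul h4 hG1 hG0 (by positivity)
          nlinarith
        have h6 : √(θ x) * (u i₀ s x - θ x) = R x - G := by
          have : √(θ x) ^ 3 = √(θ x) * θ x := by
            rw [pow_succ, hsq]; ring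
          simp only [hR]
          rw [this]
          ring
        have h7 : θ x * (u i₀ s x - θ x) ^ 2 = (R x - G) ^ 2 := by
          rw [← h6, mul_pow, hsq]
        have h8 : c * (u i₀ s x - θ x) ^ 2 ≤ θ x * (u i₀ s x - θ x) ^ 2 :=
          mul_le_mul_of_nonneg_right (hcθ x hx) (sq_nonneg _)
        have h9 : (R x - G) ^ 2 ≤ 2 * R x ^ 2 + 2 * G ^ 2 := by
          nlinarith [sq_nonneg (R x + G)]
        linarith
      rw [intervalIntegral.integral_add (hII _ (cR2.const_mul 2))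
        (hII _ (cS.const_mul _)), intervalIntegral.integral_const_mul,
        intervalIntegral.integral_const_mul, intervalIntegral.integral_const_mul] at h1
      have h10 : 0 ≤ 2 * ((B * N * |M|) * B) := by positivity
      have h11 := mul_le_mul_of_nonneg_left hSI h10
      have h12 : c * (C₃ * η) = 2 * (C * η) + 2 * ((B * N * |M|) * B) * (C * η / σ) := by
        rw [hC₃]
        field_simp
      have h13 : c * (∫ x in (0)..L, (u i₀ s x - θ x) ^ 2) ≤ c * (C₃ * η) := by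
        rw [h12]
        linarith
      exact le_of_mul_le_mul_left h13 hc
  -- propagation to [T + 1, T + 2]
  have hg : ∀ j, j ≠ i₀ → ∀ t ∈ Icc s (T + 2), ∀ x ∈ Icc 0 L, u j t x ≤ ε₁ * E := by
    intro j hj t ht x hx
    have h1 := growth hL hm hd h hmK j hs0.le hε₁0.le
      (fun y hy => (le_abs_self _).trans (hsmall j hj y hy).le) t ht.1 x hx
    refine h1.trans (mul_le_mul_of_nonneg_left ?_ hε₁0.le)
    rw [hE]
    apply Real.exp_le_exp.2
    have h2 : t - s ≤ 2 := by linarith [ht.2, hs.1]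
    have h3 : 0 ≤ t - s := by linarith [ht.1]
    nlinarith
  have hεE : ε₁ * E * (1 + N * |M|) * E * 2 = ε := by
    rw [hε₁]
    field_simp
  have hE0 : 0 < E := by linarith
  have hεEp : 0 < ε₁ * E := by positivity
  intro t ht x hx
  have hts : t ∈ Icc s (T + 2) := ⟨by linarith [ht.1, hs.2], ht.2⟩
  constructor
  · have h1 := diff_growth hL hm hd h i₀ hθ (K := K) (R := |M| * (N * (ε₁ * E))) (B := ε₁)
      (s := s) (T := T + 2) hs0.le (by positivity) hε₁0.le hK0
      (fun r hr y hy => by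
        have := hu0 i₀ r (by linarith [hr.1]) y hy
        linarith [hmK y hy, hθ.pos y hy])
      (fun r hr y hy => by
        have hr0 : 0 ≤ r := by linarith [hr.1]
        have h2 : ∑ j ∈ Finset.univ.erase i₀, u j r y ≤
            ∑ j ∈ Finset.univ.erase i₀, (ε₁ * E) :=
          Finset.sum_le_sum fun j hj => hg j (Finset.ne_of_mem_erase hj) r hr y hy
        have h3 : ∑ j ∈ Finset.univ.erase i₀, (ε₁ * E) ≤ ∑ j : Fin N, (ε₁ * E) :=
          Finset.sum_le_sum_of_subset_of_nonneg (Finset.erase_subset _ _)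
            fun _ _ _ => hεEp.le
        simp only [Finset.sum_const, Finset.card_univ, Fintype.card_fin, nsmul_eq_mul] at h3
        simp only [Finset.sum_const, nsmul_eq_mul] at h2
        have h4 : 0 ≤ ∑ j ∈ Finset.univ.erase i₀, u j r y :=
          Finset.sum_nonneg fun j _ => hu0 j r hr0 y hy
        refine mul_le_mul ?_ (h2.trans h3) h4 (abs_nonneg _)
        rw [hMabs]
        exact hM i₀ r hr0 y hy)
      (fun y hy => (hclose y hy).le) t hts x hx
    have h5 : Real.exp ((K + 1) * (t - s)) ≤ E := by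
      rw [hE]
      apply Real.exp_le_exp.2
      have h2 : t - s ≤ 2 := by linarith [ht.2, hs.1]
      have h3 : 0 ≤ K + 1 := by linarith
      nlinarith
    have h6 : ε₁ + |M| * (N * (ε₁ * E)) ≤ ε₁ * E * (1 + N * |M|) := by
      nlinarith
    have h7 : (ε₁ + |M| * (N * (ε₁ * E))) * Real.exp ((K + 1) * (t - s)) ≤
        ε₁ * E * (1 + N * |M|) * E :=
      mul_le_mul h6 h5 (Real.exp_pos _).le (by positivity)
    have h8 : 0 < ε₁ * E * (1 + N * |M|) * E := by positivity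
    linarith
  · intro j hj
    have h1 := hg j hj t hts x hx
    rw [abs_of_nonneg (hu0 j t (by linarith [hts.1]) x hx)]
    have h2 : ε₁ * E ≤ ε₁ * E * (1 + N * |M|) * E := by
      have h3 : 1 ≤ (1 + N * |M|) * E := by nlinarith
      nlinarith
    linarith

end Pool.Agent.Lib.MP_4fbe7c_an.SD
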