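import Pool.Agent.Lib.MP_4fbe7c_an.SD.Calc
import Pool.Agent.Lib.MP_4fbe7c_an.SD.Apri2

/-!
Module MASS (helper96): the total mass of a species stays positive.
-/

set_option autoImplicit false

open Set Filter Topology

namespace Pool.Agent.Lib.MP_4fbe7c_an.SD

section cont

variable {L : ℝ} {m : ℝ → ℝ} {N : ℕ} {d : Fin N → ℝ} {u v w : Fin N → ℝ → ℝ → ℝ}

theorem Sol.cuIoi_log (h : Sol L m d u v w) (i : Fin N) :
    ContinuousOn (fun p : ℝ × ℝ => u i p.1 p.2) (Ioi 0 ×ˢ Icc 0 L) :=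
  (h.cu i).mono (prod_mono Ioi_subset_Ici_self subset_rfl)

theorem cont_m_log (hm : ContinuousOn m (Icc 0 L)) (A : Set ℝ) :
    ContinuousOn (fun p : ℝ × ℝ => m p.2) (A ×ˢ Icc 0 L) :=
  hm.comp continuousOn_snd (fun _ hp => hp.2)

theorem Sol.cont_rate_log (h : Sol L m d u v w) (hm : ContinuousOn m (Icc 0 L)) :
    ContinuousOn (fun p : ℝ × ℝ => m p.2 - ∑ j, u j p.1 p.2) (Ici 0 ×ˢ Icc 0 L) :=
  (cont_m_log hm _).sub (continuousOn_finsetSum _ fun j _ => h.cu j)

theorem Sol.bdd_rate_log (h : Sol L m d u v w) (hm : ContinuousOn m (Icc 0 L)) (b : ℝ) :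
    ∃ K : ℝ, 0 ≤ K ∧ ∀ t ∈ Icc 0 b, ∀ x ∈ Icc 0 L, |m x - ∑ j, u j t x| ≤ K := by
  have hK : IsCompact (Icc (0 : ℝ) b ×ˢ Icc (0 : ℝ) L) := isCompact_Icc.prod isCompact_Icc
  have hc := (h.cont_rate_log hm).mono (t := Icc (0 : ℝ) b ×ˢ Icc (0 : ℝ) L)
    (prod_mono Icc_subset_Ici_self Subset.rfl)
  obtain ⟨C, hC⟩ := hK.exists_bound_of_continuousOn hc
  exact ⟨max C 0, le_max_right _ _, fun t ht x hx => (hC (t, x) ⟨ht, hx⟩).trans (le_max_left _ _)⟩

theorem Sol.bdd_u_log (h : Sol L m d u v w) (i : Fin N) (b : ℝ) :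
    ∃ M : ℝ, 0 ≤ M ∧ ∀ t ∈ Icc 0 b, ∀ x ∈ Icc 0 L, |u i t x| ≤ M := by
  have hK : IsCompact (Icc (0 : ℝ) b ×ˢ Icc (0 : ℝ) L) := isCompact_Icc.prod isCompact_Icc
  have hc := (h.cu i).mono (t := Icc (0 : ℝ) b ×ˢ Icc (0 : ℝ) L)
    (prod_mono Icc_subset_Ici_self Subset.rfl)
  obtain ⟨C, hC⟩ := hK.exists_bound_of_continuousOn hc
  exact ⟨max C 0, le_max_right _ _, fun t ht x hx => (hC (t, x) ⟨ht, hx⟩).trans (le_max_left _ _)⟩

/-- A continuous function with a large integral has a large value. -/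
theorem exists_large_log {L : ℝ} (hL : 0 < L) {f : ℝ → ℝ} (hf : ContinuousOn f (Icc 0 L)) {a0 : ℝ}
    (h : a0 ≤ ∫ x in (0)..L, f x) : ∃ x ∈ Icc 0 L, a0 / L ≤ f x := by
  by_contra hno
  push Not at hno
  have h1 : ∫ x in (0)..L, f x < ∫ x in (0)..L, a0 / L := by
    apply intervalIntegral.integral_lt_integral_of_continuousOn_of_le_of_exists_lt hL
      hf continuousOn_const
    · intro x hx'
      exact (hno x ⟨hx'.1.le, hx'.2⟩).le
    · exact ⟨0, left_mem_Icc.2 hL.le, hno 0 (left_mem_Icc.2 hL.le)⟩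
  rw [intervalIntegral.integral_const] at h1
  simp only [sub_zero, smul_eq_mul] at h1
  rw [mul_div_cancel₀ _ hL.ne'] at h1
  linarith

end cont

theorem mass_lower {L : ℝ} {m : ℝ → ℝ} (hL : 0 < L) (hm : ContinuousOn m (Icc 0 L)) {N : ℕ}
    {d : Fin N → ℝ} (hd : ∀ i, 0 < d i) {u v w : Fin N → ℝ → ℝ → ℝ} (h : Sol L m d u v w)
    (i : Fin N) (hx : ∃ x ∈ Icc 0 L, 0 < u i 0 x) (T : ℝ) :
    ∃ a : ℝ, 0 < a ∧ ∀ t ∈ Icc 0 T, a ≤ ∫ x in (0)..L, u i t x := by
  obtain ⟨K, hK0, hK⟩ := h.bdd_rate_log hm T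
  have hnn := nonneg_aux hL hm hd h i
  have hJ0 : 0 < ∫ x in (0)..L, u i 0 x := by
    apply intervalIntegral.integral_pos hL (slice (h.cu i) (mem_Ici.2 le_rfl))
    · intro x hx'
      exact hnn 0 le_rfl x ⟨hx'.1.le, hx'.2⟩
    · exact hx
  refine ⟨Real.exp (-(K * T)) * ∫ x in (0)..L, u i 0 x, by positivity, ?_⟩
  -- the mass and its derivative
  have hcw : ContinuousOn (fun p : ℝ × ℝ => d i * w i p.1 p.2
      + u i p.1 p.2 * (m p.2 - ∑ j, u j p.1 p.2)) (Ioi 0 ×ˢ Icc 0 L) :=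
    (continuousOn_const.mul (h.cw i)).add ((h.cuIoi_log i).mul
      ((h.cont_rate_log hm).mono (prod_mono Ioi_subset_Ici_self subset_rfl)))
  have hder := hasDerivAt_integral hL (h.cuIoi_log i) hcw (fun t ht x hx' => h.dt i t ht x hx')
  have hcont : ContinuousOn (fun t => ∫ x in (0)..L, u i t x) (Ici 0) :=
    continuousOn_integral hL (h.cu i)
  have hmono : MonotoneOn (fun t => Real.exp (K * t) * ∫ x in (0)..L, u i t x) (Icc 0 T) := by
    apply monotoneOn_of_deriv_nonneg (convex_Icc _ _)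
    · exact (Continuous.continuousOn (by fun_prop)).mul (hcont.mono Icc_subset_Ici_self)
    · intro t ht
      rw [interior_Icc] at ht
      exact (((((hasDerivAt_id t).const_mul K).exp).mul (hder t ht.1)).differentiableAt
        ).differentiableWithinAt
    · intro t ht
      rw [interior_Icc] at ht
      have h1 := (((hasDerivAt_id t).const_mul K).exp).mul (hder t ht.1)
      rw [show (fun t => Real.exp (K * t) * ∫ x in (0)..L, u i t x)
        = (fun y => Real.exp (K * id y)) * (fun t => ∫ x in (0)..L, u i t x) from rfl, h1.deriv]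
      -- lower bound for the derivative
      have h2 : -K * (∫ x in (0)..L, u i t x)
          ≤ ∫ x in (0)..L, (d i * w i t x + u i t x * (m x - ∑ j, u j t x)) := by
        have hw0 : ∫ x in (0)..L, w i t x = 0 := by
          rw [integral_deriv hL (h.dxx i t ht.1) (slice (h.cw i) ht.1), h.b0 i t ht.1,
            h.bL i t ht.1, sub_zero]
        have e1 : -K * (∫ x in (0)..L, u i t x)
            = ∫ x in (0)..L, (d i * w i t x + -K * u i t x) := by
          rw [intervalIntegral.integral_add, intervalIntegral.integral_const_mul,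
            intervalIntegral.integral_const_mul, hw0]
          · ring
          · exact (ContinuousOn.mul (continuousOn_const (c := d i)) (slice (h.cw i) ht.1)).intervalIntegrable_of_Icc hL.le
          · exact (ContinuousOn.mul (continuousOn_const (c := -K)) (slice (h.cuIoi_log i) ht.1)).intervalIntegrable_of_Icc hL.le
        rw [e1]
        apply intervalIntegral.integral_mono_on hL.le
        · exact ((ContinuousOn.mul (continuousOn_const (c := d i)) (slice (h.cw i) ht.1)).add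
            (ContinuousOn.mul (continuousOn_const (c := -K)) (slice (h.cuIoi_log i) ht.1))).intervalIntegrable_of_Icc hL.le
        · exact (slice (g := fun t x => d i * w i t x + u i t x * (m x - ∑ j, u j t x)) hcw
            ht.1).intervalIntegrable_of_Icc hL.le
        · intro x hx'
          have h3 := (abs_le.1 (hK t ⟨ht.1.le, ht.2.le⟩ x hx')).1
          have h4 := hnn t ht.1.le x hx'
          nlinarith
      have h5 := Real.exp_pos (K * t)
      simp only [id, mul_one]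
      nlinarith
  intro t ht
  have h1 := hmono (left_mem_Icc.2 (ht.1.trans ht.2)) ht ht.1
  simp only [mul_zero, Real.exp_zero, one_mul] at h1
  have h2 : Real.exp (-(K * T)) * Real.exp (K * t) ≤ 1 := by
    rw [← Real.exp_add]
    apply Real.exp_le_one_iff.2
    nlinarith [ht.2]
  have h3 : 0 ≤ ∫ x in (0)..L, u i t x := by
    apply intervalIntegral.integral_nonneg hL.le
    intro x hx'
    exact hnn t ht.1 x hx'
  calc Real.exp (-(K * T)) * ∫ x in (0)..L, u i 0 x
      ≤ Real.exp (-(K * T)) * (Real.exp (K * t) * ∫ x in (0)..L, u i t x) :=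
        mul_le_mul_of_nonneg_left h1 (Real.exp_pos _).le
    _ = (Real.exp (-(K * T)) * Real.exp (K * t)) * ∫ x in (0)..L, u i t x := by ring
    _ ≤ 1 * ∫ x in (0)..L, u i t x := mul_le_mul_of_nonneg_right h2 h3
    _ = _ := one_mul _

end Pool.Agent.Lib.MP_4fbe7c_an.SD
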